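import Pool.Agent.Helper72.PL.Final4

/-! The mean square along chains: no look-ahead, or powers of one prime. -/

namespace Pool.Agent.Helper72.PL

open Finset Filter Pool.Agent.Helper72.NS Pool.Agent.Helper72.PW

lemma sq2_cast (A : Set ℕ) (x : ℕ) :
    ((sq2 A x : ℕ) : ℝ) = ∑ n ∈ Finset.range x, (rep A n : ℝ) ^ 2 := by
  unfold sq2
  push_cast
  rfl

/-- Mean squares: no look-ahead, or powers of one prime. -/
theorem squareC (Q h : ℕ) : ∃ c : ℝ, 0 < c ∧ ∀ (A : Set ℕ) (m f : ℕ → ℕ) (t : ℕ), Chain m →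
    (∀ j, m (j + 1) ≤ Q * m j) →
    (h = 0 ∨ ∃ p : ℕ, p.Prime ∧ ∀ j, ∃ e, m j = p ^ e) →
    (∀ n ≥ t, f n ≤ n ∧ f n ∈ A ∧ n - f n ∈ A) →
    (∀ j, ∀ n ≥ t, ∀ n' ≥ t, n % m (j + h) = n' % m (j + h) → f n % m j = f n' % m j) →
    ∀ᶠ x : ℕ in atTop, (x : ℝ) ^ (1 + c) ≤ ∑ n ∈ Finset.range x, (rep A n : ℝ) ^ 2 := by
  classical
  obtain ⟨c₁, hc₁, hpow⟩ := squareA Q
  have hall : ∀ p : ℕ, ∃ c : ℝ, 0 < c ∧ (p.Prime → ∀ (A : Set ℕ) (f : ℕ → ℕ) (t : ℕ),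
      (∀ n ≥ t, f n ≤ n ∧ f n ∈ A ∧ n - f n ∈ A) →
      (∀ j, ∀ n ≥ t, ∀ n' ≥ t, n % p ^ (j + (h + 1) * Q) = n' % p ^ (j + (h + 1) * Q) →
        f n % p ^ j = f n' % p ^ j) →
      ∀ᶠ x : ℕ in atTop, (x : ℝ) ^ (1 + c) ≤ sq2 A x) := by
    intro p
    by_cases hp : p.Prime
    · obtain ⟨c, hc, hc2⟩ := squareB hp ((h + 1) * Q)
      exact ⟨c, hc, fun _ => hc2⟩
    · exact ⟨1, one_pos, fun hp' => absurd hp' hp⟩
  choose cc hcc hcc2 using hall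
  have hne : (Finset.range (Q + 1)).Nonempty := ⟨0, Finset.mem_range.2 (Nat.succ_pos Q)⟩
  set c₂ := (Finset.range (Q + 1)).inf' hne cc with hc₂
  have hc₂0 : 0 < c₂ := by
    rw [hc₂, Finset.lt_inf'_iff]
    exact fun p _ => hcc p
  have hweak : ∀ {A : Set ℕ} {c c' : ℝ}, c ≤ c' →
      (∀ᶠ x : ℕ in atTop, (x : ℝ) ^ (1 + c') ≤ sq2 A x) →
      ∀ᶠ x : ℕ in atTop, (x : ℝ) ^ (1 + c) ≤ ∑ n ∈ Finset.range x, (rep A n : ℝ) ^ 2 := by
    intro A c c' hcc' hev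
    filter_upwards [hev, Filter.eventually_ge_atTop 1] with x hx hx1
    rw [← sq2_cast]
    refine le_trans ?_ hx
    exact Real.rpow_le_rpow_of_exponent_le (by exact_mod_cast hx1) (by linarith)
  refine ⟨min c₁ c₂, lt_min hc₁ hc₂0, ?_⟩
  intro A m f t hm hq hor hf hL
  rcases hor with h0 | ⟨p, hp, hmp⟩
  · refine hweak (min_le_left _ _) (hpow A m f t hm hq hf ?_)
    intro j n hn n' hn' hnn
    refine hL j n hn n' hn' ?_
    rw [h0, add_zero]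
    exact hnn
  · have hpQ : p ∈ Finset.range (Q + 1) := by
      rw [Finset.mem_range]
      obtain ⟨e, he⟩ := hmp 1
      have h1 := hq 0
      have h2 := hm.two 0
      rw [hm.one, mul_one, zero_add, he] at h1 h2
      have h3 : e ≠ 0 := by
        rintro rfl
        rw [pow_zero] at h2
        omega
      have h4 : p ≤ p ^ e := Nat.le_self_pow h3 p
      omega
    refine hweak ((min_le_right _ _).trans (Finset.inf'_le cc hpQ)) (hcc2 p hp A f t hf ?_)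
    exact look_prime hm hq hp hmp hL

end Pool.Agent.Helper72.PL
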