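import Pool.Agent.Helper72.PW.Levels

/-! A factor of a measure which is invariant under a shift of order `p`. -/

namespace Pool.Agent.Helper72.PL

open Finset Pool.Agent.Helper72.PW

/-- the mass of a residue class -/
def mass (w : ℕ → ℕ) (g M r : ℕ) : ℕ := ∑ u ∈ Finset.range g, if u % M = r then w u else 0

lemma mass_pos {w : ℕ → ℕ} {g M r : ℕ} (h : 0 < mass w g M r) : ∃ u < g, 0 < w u ∧ u % M = r := by
  unfold mass at h
  obtain ⟨u, hu, h2⟩ := Finset.exists_ne_zero_of_sum_ne_zero h.ne'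
  rw [Finset.mem_range] at hu
  by_cases h3 : u % M = r
  · rw [if_pos h3] at h2
    exact ⟨u, hu, by omega, h3⟩
  · rw [if_neg h3] at h2
    exact absurd rfl h2

lemma le_mass {w : ℕ → ℕ} {g M u : ℕ} (hu : u < g) : w u ≤ mass w g M (u % M) := by
  unfold mass
  have h := Finset.single_le_sum (f := fun v => if v % M = u % M then w v else 0)
    (fun b _ => Nat.zero_le _) (Finset.mem_range.2 hu)
  simp only [if_pos] at h
  exact h

lemma sum_mass (w : ℕ → ℕ) (g : ℕ) {M : ℕ} (hM : 0 < M) (ζ : ℂ) (hζ : ζ ^ M = 1) :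
    ∑ u ∈ Finset.range g, (w u : ℂ) * ζ ^ u =
      ∑ r ∈ Finset.range M, (mass w g M r : ℂ) * ζ ^ r := by
  unfold mass
  have h1 : ∀ u, ζ ^ u = ζ ^ (u % M) := by
    intro u
    conv_lhs => rw [← Nat.mod_add_div u M, pow_add, pow_mul, hζ, one_pow, mul_one]
  calc ∑ u ∈ Finset.range g, (w u : ℂ) * ζ ^ u
      = ∑ u ∈ Finset.range g, ∑ r ∈ Finset.range M,
          (if u % M = r then (w u : ℂ) else 0) * ζ ^ r := by
        refine Finset.sum_congr rfl fun u _ => ?_
        rw [Finset.sum_eq_single (u % M)]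
        · rw [if_pos rfl, h1 u]
        · intro r _ hr
          rw [if_neg (Ne.symm hr), zero_mul]
        · intro hr
          exact absurd (Finset.mem_range.2 (Nat.mod_lt _ hM)) hr
    _ = _ := by
        rw [Finset.sum_comm]
        refine Finset.sum_congr rfl fun r _ => ?_
        rw [← Finset.sum_mul]
        push_cast
        rfl

open Polynomial in
/-- rational relations between roots of unity of prime power order -/
lemma rational_relation {p i : ℕ} (hp : p.Prime) (M : ℕ → ℕ) (ζ : ℂ)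
    (hζ : IsPrimitiveRoot ζ (p ^ (i + 1)))
    (h0 : ∑ r ∈ Finset.range (p ^ (i + 1)), (M r : ℂ) * ζ ^ r = 0) :
    ∀ s < p ^ (i + 1), M s = M (s % p ^ i + (p - 1) * p ^ i) := by
  have hp0 : 0 < p := hp.pos
  have hP : 0 < p ^ i := Nat.pow_pos hp0
  have hpow : p ^ (i + 1) = p * p ^ i := by rw [pow_succ, mul_comm]
  set c : ℕ → ℚ := fun s => (M s : ℚ) - M (s % p ^ i + (p - 1) * p ^ i) with hc
  set D : ℚ[X] := ∑ s ∈ Finset.range (p ^ (i + 1)), Polynomial.C (c s) * X ^ s with hD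
  have hcoef : ∀ s, D.coeff s = if s < p ^ (i + 1) then c s else 0 := by
    intro s
    rw [hD, Polynomial.finsetSum_coeff]
    simp only [Polynomial.coeff_C_mul, Polynomial.coeff_X_pow, mul_ite, mul_one, mul_zero]
    rw [Finset.sum_ite_eq]
    simp only [Finset.mem_range]
  have hgeom : ∑ k ∈ Finset.range p, ζ ^ (k * p ^ i) = 0 := by
    have h1 : IsPrimitiveRoot (ζ ^ (p ^ i)) p := by
      have := hζ.pow_of_dvd hP.ne' (pow_dvd_pow p (Nat.le_succ i))
      rw [hpow, Nat.mul_div_cancel _ hP] at this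
      exact this
    have h2 := h1.geom_sum_eq_zero hp.one_lt
    rw [← h2]
    refine Finset.sum_congr rfl fun k _ => ?_
    rw [← pow_mul, mul_comm]
  have heval : Polynomial.aeval ζ D = 0 := by
    rw [hD, map_sum]
    simp only [map_mul, Polynomial.aeval_C, map_pow, Polynomial.aeval_X]
    have h1 : ∑ s ∈ Finset.range (p ^ (i + 1)), (algebraMap ℚ ℂ) (c s) * ζ ^ s =
        ∑ r ∈ Finset.range (p ^ (i + 1)), (M r : ℂ) * ζ ^ r -
        ∑ s ∈ Finset.range (p ^ (i + 1)), (M (s % p ^ i + (p - 1) * p ^ i) : ℂ) * ζ ^ s := by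
      rw [← Finset.sum_sub_distrib]
      refine Finset.sum_congr rfl fun s _ => ?_
      rw [hc]
      simp only [map_sub, map_natCast]
      ring
    rw [h1, h0, zero_sub, neg_eq_zero, hpow, sum_split]
    refine Finset.sum_eq_zero fun r hr => ?_
    rw [Finset.mem_range] at hr
    have h2 : ∑ d ∈ Finset.range p, (M ((r + d * p ^ i) % p ^ i + (p - 1) * p ^ i) : ℂ) *
        ζ ^ (r + d * p ^ i) = (M (r + (p - 1) * p ^ i) : ℂ) * ζ ^ r *
        ∑ k ∈ Finset.range p, ζ ^ (k * p ^ i) := by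
      rw [Finset.mul_sum]
      refine Finset.sum_congr rfl fun d _ => ?_
      rw [Nat.add_mul_mod_self_right, Nat.mod_eq_of_lt hr, pow_add]
      ring
    rw [h2, hgeom, mul_zero]
  have hmin : minpoly ℚ ζ = Polynomial.cyclotomic (p ^ (i + 1)) ℚ :=
    (Polynomial.cyclotomic_eq_minpoly_rat hζ (Nat.pow_pos hp0)).symm
  have hdvd : Polynomial.cyclotomic (p ^ (i + 1)) ℚ ∣ D := by
    rw [← hmin]
    exact minpoly.dvd ℚ ζ heval
  have hdeg : D.degree < ((p - 1) * p ^ i : ℕ) := by
    rw [Polynomial.degree_lt_iff_coeff_zero]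
    intro s hs
    rw [hcoef]
    split_ifs with h1
    · have h2 : s % p ^ i + (p - 1) * p ^ i = s := by
        have h3 := Nat.div_add_mod s (p ^ i)
        have h4 : s / p ^ i = p - 1 := by
          have h5 : s / p ^ i < p := Nat.div_lt_of_lt_mul (by rw [mul_comm, ← hpow]; exact h1)
          have h6 : p - 1 ≤ s / p ^ i := (Nat.le_div_iff_mul_le hP).2 hs
          omega
        rw [h4, mul_comm] at h3
        omega
      rw [hc]
      simp only
      rw [h2, sub_self]
    · rfl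
  have hDz : D = 0 := by
    by_contra hne
    have h1 := Polynomial.degree_le_of_dvd hdvd hne
    rw [Polynomial.degree_cyclotomic, Nat.totient_prime_pow_succ hp, mul_comm] at h1
    exact absurd (h1.trans_lt hdeg) (lt_irrefl _)
  intro s hs
  have h1 := hcoef s
  rw [hDz, Polynomial.coeff_zero, if_pos hs, hc] at h1
  simp only at h1
  have h2 : (M s : ℚ) = M (s % p ^ i + (p - 1) * p ^ i) := by linarith
  exact_mod_cast h2

/-- every digit occurs -/
theorem full_branch {p i g : ℕ} (hp : p.Prime) (w : ℕ → ℕ) (ζ : ℂ)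
    (hζ : IsPrimitiveRoot ζ (p ^ (i + 1)))
    (h0 : ∑ u ∈ Finset.range g, (w u : ℂ) * ζ ^ u = 0) :
    ∀ u < g, 0 < w u → ∀ x < p, ∃ u' < g, 0 < w u' ∧ u' % p ^ (i + 1) = u % p ^ i + x * p ^ i := by
  have hp0 : 0 < p := hp.pos
  have hP : 0 < p ^ i := Nat.pow_pos hp0
  have hPP : 0 < p ^ (i + 1) := Nat.pow_pos hp0
  have hpow : p ^ (i + 1) = p * p ^ i := by rw [pow_succ, mul_comm]
  rw [sum_mass w g hPP ζ hζ.pow_eq_one] at h0
  have hrel := rational_relation hp (mass w g (p ^ (i + 1))) ζ hζ h0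
  intro u hu hwu x hx
  have h1 : 0 < mass w g (p ^ (i + 1)) (u % p ^ (i + 1)) := hwu.trans_le (le_mass hu)
  have h2 := hrel (u % p ^ (i + 1)) (Nat.mod_lt _ hPP)
  have hlt : u % p ^ i + x * p ^ i < p ^ (i + 1) := by
    have h3 := Nat.mod_lt u hP
    rw [hpow]
    calc u % p ^ i + x * p ^ i < p ^ i + x * p ^ i := by omega
      _ = (x + 1) * p ^ i := by ring
      _ ≤ p * p ^ i := Nat.mul_le_mul_right _ hx
  have h3 := hrel (u % p ^ i + x * p ^ i) hlt
  rw [Nat.add_mul_mod_self_right, Nat.mod_mod] at h3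
  rw [Nat.mod_mod_of_dvd u (pow_dvd_pow p (Nat.le_succ i)), ← h3] at h2
  rw [h2] at h1
  exact mass_pos h1

end Pool.Agent.Helper72.PL
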