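import Pool.Agent.Helper72.PL.Final2
import Pool.Agent.Helper72.PW.Final

/-! Power growth along chains: no look-ahead, or powers of one prime. -/

namespace Pool.Agent.Helper72.PL

open Finset Filter Pool.Agent.Helper72.NS Pool.Agent.Helper72.PW

/-- a chain of powers of one prime and all powers of the prime -/
lemma look_prime {m : ℕ → ℕ} (hm : Chain m) {Q h t p : ℕ} (hq : ∀ j, m (j + 1) ≤ Q * m j)
    (hp : p.Prime) (hmp : ∀ j, ∃ e, m j = p ^ e) {f : ℕ → ℕ}
    (hL : ∀ j, ∀ n ≥ t, ∀ n' ≥ t, n % m (j + h) = n' % m (j + h) → f n % m j = f n' % m j) :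
    ∀ i, ∀ n ≥ t, ∀ n' ≥ t, n % p ^ (i + (h + 1) * Q) = n' % p ^ (i + (h + 1) * Q) →
      f n % p ^ i = f n' % p ^ i := by
  choose e he using hmp
  have hp1 : 1 < p := hp.one_lt
  have h0 : e 0 = 0 := by
    have h1 := he 0
    rw [hm.one] at h1
    by_contra hne
    have h2 : 1 < p ^ e 0 := Nat.one_lt_pow hne hp1
    omega
  have hstep : ∀ j, e (j + 1) ≤ e j + Q := by
    intro j
    have h1 := hq j
    rw [he j, he (j + 1)] at h1
    by_contra hcon
    rw [not_le] at hcon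
    have h2 : p ^ (e j + Q) ≤ p ^ e (j + 1) := Nat.pow_le_pow_right hp.pos hcon.le
    have h3 : Q < p ^ Q := Nat.lt_pow_self hp1
    rw [pow_add] at h2
    have h4 : Q * p ^ e j < p ^ Q * p ^ e j := Nat.mul_lt_mul_of_pos_right h3 (Nat.pow_pos hp.pos)
    rw [mul_comm (p ^ e j)] at h2
    omega
  have hmono : ∀ j, j ≤ e j := by
    intro j
    induction j with
    | zero => exact Nat.zero_le _
    | succ j ih =>
      have h1 := hm.two j
      rw [he j, he (j + 1)] at h1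
      have h2 : e j < e (j + 1) := by
        by_contra hcon
        rw [not_lt] at hcon
        have h3 : p ^ e (j + 1) ≤ p ^ e j := Nat.pow_le_pow_right hp.pos hcon
        have h4 : 0 < p ^ e j := Nat.pow_pos hp.pos
        omega
      omega
  have hmany : ∀ k j, e (j + k) ≤ e j + k * Q := by
    intro k j
    induction k with
    | zero => simp
    | succ k ih =>
      have h1 := hstep (j + k)
      rw [add_mul, one_mul]
      have h2 : e (j + (k + 1)) = e (j + k + 1) := by rw [add_assoc]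
      omega
  intro i n hn n' hn' hnn
  have hex : ∃ j, i ≤ e j := ⟨i, hmono i⟩
  classical
  set j := Nat.find hex with hj
  have hj1 : i ≤ e j := Nat.find_spec hex
  have hj2 : e j ≤ i + Q := by
    rcases Nat.eq_zero_or_pos j with h1 | h1
    · rw [h1, h0]
      exact Nat.zero_le _
    · have h2 := Nat.find_min hex (m := j - 1) (by omega)
      have h3 := hstep (j - 1)
      rw [Nat.sub_add_cancel h1] at h3
      omega
  have hj3 : e (j + h) ≤ i + (h + 1) * Q := by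
    have h1 := hmany h j
    rw [add_mul, one_mul]
    omega
  have h1 : n % m (j + h) = n' % m (j + h) := by
    rw [he (j + h)]
    have hd := pow_dvd_pow p hj3
    exact Nat.ModEq.of_dvd hd hnn
  have h2 := hL j n hn n' hn' h1
  rw [he j] at h2
  exact Nat.ModEq.of_dvd (pow_dvd_pow p hj1) h2

/-- Power growth: no look-ahead, or powers of one prime. -/
theorem powerC (Q h : ℕ) : ∃ c : ℝ, 0 < c ∧ ∀ (A : Set ℕ) (m f : ℕ → ℕ) (t : ℕ), Chain m →
    (∀ j, m (j + 1) ≤ Q * m j) →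
    (h = 0 ∨ ∃ p : ℕ, p.Prime ∧ ∀ j, ∃ e, m j = p ^ e) →
    (∀ n ≥ t, f n ≤ n ∧ f n ∈ A ∧ n - f n ∈ A) →
    (∀ j, ∀ n ≥ t, ∀ n' ≥ t, n % m (j + h) = n' % m (j + h) → f n % m j = f n' % m j) →
    ∀ᶠ x : ℕ in atTop, ∃ n < x, (x : ℝ) ^ c ≤ rep A n := by
  classical
  obtain ⟨c₁, hc₁, hpow⟩ := PW.power Q
  have hall : ∀ p : ℕ, ∃ c : ℝ, 0 < c ∧ (p.Prime → ∀ (A : Set ℕ) (f : ℕ → ℕ) (t : ℕ),
      (∀ n ≥ t, f n ≤ n ∧ f n ∈ A ∧ n - f n ∈ A) →
      (∀ j, ∀ n ≥ t, ∀ n' ≥ t, n % p ^ (j + (h + 1) * Q) = n' % p ^ (j + (h + 1) * Q) →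
        f n % p ^ j = f n' % p ^ j) →
      ∀ᶠ x : ℕ in atTop, ∃ n < x, (x : ℝ) ^ c ≤ rep A n) := by
    intro p
    by_cases hp : p.Prime
    · obtain ⟨c, hc, hc2⟩ := powerP hp ((h + 1) * Q)
      exact ⟨c, hc, fun _ => hc2⟩
    · exact ⟨1, one_pos, fun hp' => absurd hp' hp⟩
  choose cc hcc hcc2 using hall
  have hne : (Finset.range (Q + 1)).Nonempty := ⟨0, Finset.mem_range.2 (Nat.succ_pos Q)⟩
  set c₂ := (Finset.range (Q + 1)).inf' hne cc with hc₂
  have hc₂0 : 0 < c₂ := by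
    rw [hc₂, Finset.lt_inf'_iff]
    exact fun p _ => hcc p
  have hweak : ∀ {A : Set ℕ} {c c' : ℝ}, c ≤ c' →
      (∀ᶠ x : ℕ in atTop, ∃ n < x, (x : ℝ) ^ c' ≤ rep A n) →
      ∀ᶠ x : ℕ in atTop, ∃ n < x, (x : ℝ) ^ c ≤ rep A n := by
    intro A c c' hcc' hev
    filter_upwards [hev, Filter.eventually_ge_atTop 1] with x hx hx1
    obtain ⟨n, hn, h1⟩ := hx
    refine ⟨n, hn, le_trans ?_ h1⟩
    exact Real.rpow_le_rpow_of_exponent_le (by exact_mod_cast hx1) hcc'
  refine ⟨min c₁ c₂, lt_min hc₁ hc₂0, ?_⟩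
  intro A m f t hm hq hor hf hL
  rcases hor with h0 | ⟨p, hp, hmp⟩
  · refine hweak (min_le_left _ _) (hpow A m f t hm hq hf ?_)
    intro j n hn n' hn' hnn
    refine hL j n hn n' hn' ?_
    rw [h0, add_zero]
    exact hnn
  · have hpQ : p ∈ Finset.range (Q + 1) := by
      rw [Finset.mem_range]
      obtain ⟨e, he⟩ := hmp 1
      have h1 := hq 0
      have h2 := hm.two 0
      rw [hm.one, mul_one, zero_add, he] at h1 h2
      have h3 : e ≠ 0 := by
        rintro rfl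
        rw [pow_zero] at h2
        omega
      have h4 : p ≤ p ^ e := Nat.le_self_pow h3 p
      omega
    refine hweak ((min_le_right _ _).trans (Finset.inf'_le cc hpQ)) (hcc2 p hp A f t hf ?_)
    exact look_prime hm hq hp hmp hL

end Pool.Agent.Helper72.PL
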