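import Pool.Agent.Helper72.PW.Class

/-! Fourth powers: classes of elements and the additive energy. -/

namespace Pool.Agent.Helper72.PL

open Finset Pool.Agent.Helper72.PW

variable {m g : ℕ → ℕ}

/-- the additive energy -/
def en (S : Finset ℕ) : ℕ :=
  (((S ×ˢ S) ×ˢ (S ×ˢ S)).filter fun x => x.1.1 + x.1.2 = x.2.1 + x.2.2).card

/-- number of pairs with a given sum -/
def cs (S : Finset ℕ) (s : ℕ) : ℕ := ((S ×ˢ S).filter fun q => q.1 + q.2 = s).card

lemma fib_sq {α β : Type*} [DecidableEq β] (P : Finset α) (D : α → β) (T : Finset β)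
    (hT : ∀ p ∈ P, D p ∈ T) (r : α → α → Prop) [DecidableRel r]
    (hr : ∀ p ∈ P, ∀ q ∈ P, D p = D q → r p q) :
    ∑ t ∈ T, (P.filter fun p => D p = t).card ^ 2 ≤ ((P ×ˢ P).filter fun x => r x.1 x.2).card := by
  classical
  have h1 : ((P ×ˢ P).filter fun x => r x.1 x.2).card =
      ∑ t ∈ T, (((P ×ˢ P).filter fun x => r x.1 x.2).filter fun x => D x.1 = t).card := by
    refine Finset.card_eq_sum_card_fiberwise fun x hx => ?_
    rw [Finset.mem_coe, Finset.mem_filter, Finset.mem_product] at hx
    exact hT _ hx.1.1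
  rw [h1]
  refine Finset.sum_le_sum fun t _ => ?_
  rw [sq, ← Finset.card_product]
  refine Finset.card_le_card fun x hx => ?_
  rw [Finset.mem_product, Finset.mem_filter, Finset.mem_filter] at hx
  rw [Finset.mem_filter, Finset.mem_filter, Finset.mem_product]
  exact ⟨⟨⟨hx.1.1, hx.2.1⟩, hr _ hx.1.1 _ hx.2.1 (hx.1.2.trans hx.2.2.symm)⟩, hx.1.2⟩

lemma en_le (S : Finset ℕ) (M : ℕ) (hS : ∀ a ∈ S, a < M) :
    en S ≤ ∑ s ∈ Finset.range (2 * M), cs S s ^ 2 := by
  classical
  unfold en cs
  have h1 : (((S ×ˢ S) ×ˢ (S ×ˢ S)).filter fun x => x.1.1 + x.1.2 = x.2.1 + x.2.2).card =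
      ∑ s ∈ Finset.range (2 * M), ((((S ×ˢ S) ×ˢ (S ×ˢ S)).filter
        fun x => x.1.1 + x.1.2 = x.2.1 + x.2.2).filter fun x => x.1.1 + x.1.2 = s).card := by
    refine Finset.card_eq_sum_card_fiberwise fun x hx => ?_
    rw [Finset.mem_coe, Finset.mem_filter, Finset.mem_product, Finset.mem_product] at hx
    rw [Finset.mem_coe, Finset.mem_range]
    have := hS _ hx.1.1.1
    have := hS _ hx.1.1.2
    omega
  rw [h1]
  refine Finset.sum_le_sum fun s _ => ?_
  rw [sq, ← Finset.card_product]
  refine Finset.card_le_card fun x hx => ?_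
  rw [Finset.mem_filter, Finset.mem_filter, Finset.mem_product] at hx
  rw [Finset.mem_product, Finset.mem_filter, Finset.mem_filter]
  exact ⟨⟨hx.1.1.1, hx.2⟩, hx.1.1.2, hx.1.2.symm.trans hx.2⟩

lemma en_mono {S S' : Finset ℕ} (h : S ⊆ S') : en S ≤ en S' := by
  unfold en
  refine Finset.card_le_card (Finset.filter_subset_filter _ ?_)
  exact Finset.product_subset_product (Finset.product_subset_product h h)
    (Finset.product_subset_product h h)

/-- the number of elements and the energy -/
lemma card_four_le (S : Finset ℕ) (M : ℕ) (hS : ∀ a ∈ S, a < M) :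
    (S.card : ℝ) ^ 4 ≤ 2 * M * en S := by
  classical
  have h1 : S.card ^ 2 = ∑ s ∈ Finset.range (2 * M), cs S s := by
    rw [sq, ← Finset.card_product]
    unfold cs
    refine Finset.card_eq_sum_card_fiberwise fun p hp => ?_
    rw [Finset.mem_coe, Finset.mem_product] at hp
    rw [Finset.mem_coe, Finset.mem_range]
    have := hS _ hp.1
    have := hS _ hp.2
    omega
  have h2 : ∑ s ∈ Finset.range (2 * M), cs S s ^ 2 ≤ en S := by
    unfold cs en
    refine fib_sq (S ×ˢ S) (fun q => q.1 + q.2) (Finset.range (2 * M)) (fun p hp => ?_)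
      (fun p q => p.1 + p.2 = q.1 + q.2) (fun p _ q _ h => h)
    rw [Finset.mem_product] at hp
    rw [Finset.mem_range]
    have := hS _ hp.1
    have := hS _ hp.2
    omega
  have h3 := sq_sum_le_card_mul_sum_sq (s := Finset.range (2 * M)) (f := fun s => cs S s)
  rw [← h1, Finset.card_range] at h3
  have h4 : S.card ^ 4 ≤ 2 * M * en S := by
    calc S.card ^ 4 = (S.card ^ 2) ^ 2 := by ring
      _ ≤ 2 * M * ∑ s ∈ Finset.range (2 * M), cs S s ^ 2 := h3
      _ ≤ _ := Nat.mul_le_mul_left _ h2
  exact_mod_cast h4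

/-- Elements with digits in prescribed sets, up to weights. -/
theorem class_four (h : Rad m g) {w : ℝ} (hw : 0 ≤ w) (hw1 : w ≤ 1) (J : ℕ)
    (G : Fin J → Finset ℕ) (S : Finset ℕ) (hS : ∀ a ∈ S, a < m J) :
    (∑ a ∈ S, wt w m G a) ^ 4 ≤ en S * ∏ j : Fin J, EE w (g j) (G j) := by
  classical
  set v : Fin J → ℕ → ℝ := fun j s => if s ∈ sums (G j) then 1 else w with hv
  have hv0 : ∀ j s, 0 ≤ v j s := by
    intro j s
    rw [hv]
    simp only
    split_ifs
    · norm_num
    · exact hw
  have hv1 : ∀ j s, v j s ≤ 1 := by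
    intro j s
    rw [hv]
    simp only
    split_ifs
    · exact le_rfl
    · exact hw1
  have h1 : ∀ a a' : ℕ, wt w m G a * wt w m G a' ≤ ∏ j : Fin J, v j (dg m j a + dg m j a') := by
    intro a a'
    unfold wt
    rw [← Finset.prod_mul_distrib]
    refine Finset.prod_le_prod (fun j _ => ?_) fun j _ => ?_
    · refine mul_nonneg ?_ ?_ <;> split_ifs <;> first | exact hw | exact zero_le_one
    · rw [hv]
      simp only
      by_cases e1 : dg m j a ∈ G j
      · by_cases e2 : dg m j a' ∈ G j
        · have e3 : dg m j a + dg m j a' ∈ sums (G j) := by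
            unfold sums
            rw [Finset.mem_image]
            exact ⟨(dg m j a, dg m j a'), Finset.mem_product.2 ⟨e1, e2⟩, rfl⟩
          rw [if_pos e1, if_pos e2, if_pos e3, mul_one]
        · rw [if_pos e1, if_neg e2, one_mul]
          split_ifs
          · exact hw1
          · exact le_rfl
      · rw [if_neg e1]
        have e3 : (if dg m j a' ∈ G j then (1 : ℝ) else w) ≤ 1 := by
          split_ifs
          · exact le_rfl
          · exact hw1
        have e4 : w * (if dg m j a' ∈ G j then (1 : ℝ) else w) ≤ w * 1 :=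
          mul_le_mul_of_nonneg_left e3 hw
        rw [mul_one] at e4
        refine e4.trans ?_
        split_ifs
        · exact hw1
        · exact le_rfl
  set T : Finset (Fin J → ℕ) := Fintype.piFinset fun j : Fin J => Finset.range (2 * g j) with hT
  set D : ℕ × ℕ → (Fin J → ℕ) := fun p j => dg m j p.1 + dg m j p.2 with hD
  have hmaps : ∀ p ∈ S ×ˢ S, D p ∈ T := by
    intro p _
    rw [hT, Fintype.mem_piFinset]
    intro j
    rw [Finset.mem_range, hD]
    have e1 := dg_lt h j p.1
    have e2 := dg_lt h j p.2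
    simp only
    omega
  have hcount : ∑ σ ∈ T, ((S ×ˢ S).filter fun p => D p = σ).card ^ 2 ≤ en S := by
    unfold en
    refine fib_sq (S ×ˢ S) D T hmaps (fun p q => p.1 + p.2 = q.1 + q.2) ?_
    intro p hp q hq hpq
    rw [Finset.mem_product] at hp hq
    have e1 := digit_sum h J p.1 p.2 q.1 q.2 fun j hj => by
      have e2 := congrFun hpq ⟨j, hj⟩
      rw [hD] at e2
      exact e2
    rw [Nat.mod_eq_of_lt (hS _ hp.1), Nat.mod_eq_of_lt (hS _ hp.2),
      Nat.mod_eq_of_lt (hS _ hq.1), Nat.mod_eq_of_lt (hS _ hq.2)] at e1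
    exact e1
  set V : (Fin J → ℕ) → ℝ := fun σ => ∏ j : Fin J, v j (σ j) with hV
  have hV0 : ∀ σ, 0 ≤ V σ := fun σ => Finset.prod_nonneg fun j _ => hv0 j _
  have hV1 : ∀ σ, V σ ≤ 1 := fun σ => Finset.prod_le_one (fun j _ => hv0 j _) fun j _ => hv1 j _
  have hsq : (∑ a ∈ S, wt w m G a) ^ 2 ≤
      ∑ σ ∈ T, (((S ×ˢ S).filter fun p => D p = σ).card : ℝ) * V σ := by
    calc (∑ a ∈ S, wt w m G a) ^ 2
        = ∑ p ∈ S ×ˢ S, wt w m G p.1 * wt w m G p.2 := by
          rw [sq, Finset.sum_mul_sum, Finset.sum_product]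
      _ ≤ ∑ p ∈ S ×ˢ S, V (D p) := Finset.sum_le_sum fun p _ => h1 p.1 p.2
      _ = ∑ σ ∈ T, ∑ p ∈ (S ×ˢ S).filter (fun p => D p = σ), V (D p) :=
          (Finset.sum_fiberwise_of_maps_to hmaps _).symm
      _ = _ := by
          refine Finset.sum_congr rfl fun σ _ => ?_
          rw [Finset.sum_congr rfl (g := fun _ => V σ) fun p hp => by
            rw [(Finset.mem_filter.1 hp).2]]
          rw [Finset.sum_const, nsmul_eq_mul]
  have h0 : 0 ≤ (∑ a ∈ S, wt w m G a) ^ 2 := sq_nonneg _
  calc (∑ a ∈ S, wt w m G a) ^ 4 = ((∑ a ∈ S, wt w m G a) ^ 2) ^ 2 := by ring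
    _ ≤ (∑ σ ∈ T, (((S ×ˢ S).filter fun p => D p = σ).card : ℝ) * V σ) ^ 2 :=
        pow_le_pow_left₀ h0 hsq 2
    _ ≤ (∑ σ ∈ T, (((S ×ˢ S).filter fun p => D p = σ).card : ℝ) ^ 2) * ∑ σ ∈ T, V σ ^ 2 :=
        Finset.sum_mul_sq_le_sq_mul_sq _ _ _
    _ ≤ en S * ∑ σ ∈ T, V σ := by
        refine mul_le_mul ?_ ?_ (Finset.sum_nonneg fun σ _ => sq_nonneg _) (Nat.cast_nonneg _)
        · exact_mod_cast hcount
        · refine Finset.sum_le_sum fun σ _ => ?_
          rw [sq]
          exact mul_le_of_le_one_left (hV0 σ) (hV1 σ)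
    _ = en S * ∏ j : Fin J, ∑ s ∈ Finset.range (2 * g j), v j s := by
        rw [Finset.prod_univ_sum]
    _ ≤ en S * ∏ j : Fin J, EE w (g j) (G j) := by
        refine mul_le_mul_of_nonneg_left ?_ (Nat.cast_nonneg _)
        refine Finset.prod_le_prod (fun j _ => Finset.sum_nonneg fun s _ => hv0 j s) fun j _ => ?_
        unfold EE
        calc ∑ s ∈ Finset.range (2 * g j), v j s
            ≤ ∑ s ∈ Finset.range (2 * g j), ((if s ∈ sums (G j) then (1 : ℝ) else 0) + w) := by
              refine Finset.sum_le_sum fun s _ => ?_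
              rw [hv]
              simp only
              split_ifs
              · linarith
              · linarith
          _ = (((Finset.range (2 * g j)).filter fun s => s ∈ sums (G j)).card : ℝ) +
              2 * g j * w := by
              rw [Finset.sum_add_distrib, Finset.sum_const, Finset.card_range, nsmul_eq_mul,
                Finset.sum_boole]
              push_cast
              ring
          _ ≤ _ := by
              have e1 : ((Finset.range (2 * g j)).filter fun s => s ∈ sums (G j)).card ≤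
                  (sums (G j)).card := by
                refine Finset.card_le_card fun s hs => ?_
                exact (Finset.mem_filter.1 hs).2
              have e2 : (((Finset.range (2 * g j)).filter fun s => s ∈ sums (G j)).card : ℝ) ≤
                  (sums (G j)).card := by exact_mod_cast e1
              linarith

end Pool.Agent.Helper72.PL
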