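import Pool.Agent.Helper72.PL.Main2
import Pool.Agent.Helper72.NS.Sets

/-! Choices which are Lipschitz in the `p`-adic sense: the number of representations grows like a
power. -/

namespace Pool.Agent.Helper72.PL

open Finset Filter Pool.Agent.Helper72.NS Pool.Agent.Helper72.PW

lemma card_le_rep {ι : Type*} (A : Set ℕ) (S : Finset ι) (e : ι → ℕ × ℕ) (n : ℕ)
    (hinj : Set.InjOn e (S : Set ι))
    (hS : ∀ q ∈ S, (e q).1 ∈ A ∧ (e q).2 ∈ A ∧ (e q).1 + (e q).2 = n) : S.card ≤ rep A n := by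
  classical
  unfold rep
  have hfin : {q : ℕ × ℕ | q.1 ∈ A ∧ q.2 ∈ A ∧ q.1 + q.2 = n}.Finite := by
    refine Set.Finite.subset (Finset.finite_toSet
      (Finset.range (n + 1) ×ˢ Finset.range (n + 1))) ?_
    rintro ⟨a, b⟩ ⟨_, _, h3⟩
    simp only at h3
    rw [Finset.mem_coe, Finset.mem_product, Finset.mem_range, Finset.mem_range]
    exact ⟨by simp only; omega, by simp only; omega⟩
  rw [← Finset.card_image_of_injOn hinj, ← Set.ncard_coe_finset]
  refine Set.ncard_le_ncard ?_ hfin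
  intro q hq
  rw [Finset.mem_coe, Finset.mem_image] at hq
  obtain ⟨x, hx, rfl⟩ := hq
  exact hS x hx

/-- pairs of residues and representations -/
lemma count_res (A : Set ℕ) (K : ℕ → ℕ) {e d M H : ℕ} (hd : 0 < d) (hM : 0 < M)
    (hK : ∀ z < M, e + d * K z ∈ A) (hlt : ∀ z < M, K z < M * H) (R : ℝ)
    (hR : ∀ n < 2 * e + d * (2 * M + M * (2 * H)), (rep A n : ℝ) ≤ R) (s : ℕ) :
    (((red M K ×ˢ red M K).filter fun q => q.1 + q.2 = s).card : ℝ) ≤ 2 * H * R := by
  classical
  have hex : ∀ a, ∃ z, a ∈ red M K → z < M ∧ K z % M = a := by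
    intro a
    by_cases ha : a ∈ red M K
    · have ha' := ha
      unfold red at ha'
      rw [Finset.mem_image] at ha'
      obtain ⟨z, hz, h1⟩ := ha'
      exact ⟨z, fun _ => ⟨Finset.mem_range.1 hz, h1⟩⟩
    · exact ⟨0, fun h => absurd h ha⟩
  choose zz hzz using hex
  set S := (red M K ×ˢ red M K).filter fun q => q.1 + q.2 = s with hS
  have hmem : ∀ q ∈ S, q.1 ∈ red M K ∧ q.2 ∈ red M K ∧ q.1 + q.2 = s := by
    intro q hq
    rw [hS, Finset.mem_filter, Finset.mem_product] at hq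
    exact ⟨hq.1.1, hq.1.2, hq.2⟩
  set ε : ℕ × ℕ → ℕ := fun q => K (zz q.1) / M + K (zz q.2) / M with hε
  have hεlt : ∀ q ∈ S, ε q ∈ Finset.range (2 * H) := by
    intro q hq
    obtain ⟨h1, h2, _⟩ := hmem q hq
    have h3 := hlt _ (hzz q.1 h1).1
    have h4 := hlt _ (hzz q.2 h2).1
    have h5 := Nat.div_lt_of_lt_mul h3
    have h6 := Nat.div_lt_of_lt_mul h4
    rw [Finset.mem_range, hε]
    simp only
    omega
  have hfib : ∀ c ∈ Finset.range (2 * H), ((S.filter fun q => ε q = c).card : ℝ) ≤ R := by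
    intro c hc
    rw [Finset.mem_range] at hc
    have hval : ∀ a ∈ red M K, K (zz a) = a + M * (K (zz a) / M) := by
      intro a ha
      have h1 := Nat.div_add_mod (K (zz a)) M
      rw [(hzz a ha).2] at h1
      omega
    have h1 : (S.filter fun q => ε q = c).card ≤ rep A (2 * e + d * (s + M * c)) := by
      refine card_le_rep A _ (fun q => (e + d * K (zz q.1), e + d * K (zz q.2))) _ ?_ ?_
      · intro q hq q' hq' hqq
        rw [Finset.mem_coe, Finset.mem_filter] at hq hq'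
        obtain ⟨h1, h2, _⟩ := hmem q hq.1
        obtain ⟨h3, h4, _⟩ := hmem q' hq'.1
        simp only [Prod.mk.injEq] at hqq
        have h5 : K (zz q.1) = K (zz q'.1) :=
          Nat.eq_of_mul_eq_mul_left hd (by omega)
        have h6 : K (zz q.2) = K (zz q'.2) :=
          Nat.eq_of_mul_eq_mul_left hd (by omega)
        refine Prod.ext ?_ ?_
        · rw [← (hzz q.1 h1).2, h5, (hzz q'.1 h3).2]
        · rw [← (hzz q.2 h2).2, h6, (hzz q'.2 h4).2]
      · intro q hq
        rw [Finset.mem_filter] at hq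
        obtain ⟨h1, h2, h3⟩ := hmem q hq.1
        refine ⟨hK _ (hzz q.1 h1).1, hK _ (hzz q.2 h2).1, ?_⟩
        have h4 := hval q.1 h1
        have h5 := hval q.2 h2
        have h6 : K (zz q.1) / M + K (zz q.2) / M = c := hq.2
        simp only
        calc e + d * K (zz q.1) + (e + d * K (zz q.2))
            = 2 * e + d * ((q.1 + M * (K (zz q.1) / M)) + (q.2 + M * (K (zz q.2) / M))) := by
              rw [← h4, ← h5]; ring
          _ = 2 * e + d * ((q.1 + q.2) + M * (K (zz q.1) / M + K (zz q.2) / M)) := by ring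
          _ = _ := by rw [h3, h6]
    rcases (S.filter fun q => ε q = c).eq_empty_or_nonempty with h2 | ⟨q, hq⟩
    · rw [h2, Finset.card_empty, Nat.cast_zero]
      have h3 : 0 < d * (2 * M + M * (2 * H)) := Nat.mul_pos hd (by omega)
      exact le_trans (Nat.cast_nonneg _) (hR 0 (by omega))
    · rw [Finset.mem_filter] at hq
      obtain ⟨h3, h4, h5⟩ := hmem q hq.1
      have h6 : q.1 < M := by rw [← (hzz q.1 h3).2]; exact Nat.mod_lt _ (by
        have := (hzz q.1 h3).1; omega)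
      have h7 : q.2 < M := by rw [← (hzz q.2 h4).2]; exact Nat.mod_lt _ (by
        have := (hzz q.2 h4).1; omega)
      refine le_trans (by exact_mod_cast h1) (hR _ ?_)
      have h8 : s + M * c < 2 * M + M * (2 * H) := by
        have := Nat.mul_le_mul_left M hc.le
        omega
      have h9 := Nat.mul_lt_mul_of_pos_left h8 hd
      omega
  calc (S.card : ℝ) = ∑ c ∈ Finset.range (2 * H), ((S.filter fun q => ε q = c).card : ℝ) := by
        rw [Finset.card_eq_sum_card_fiberwise hεlt]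
        push_cast
        rfl
    _ ≤ ∑ _c ∈ Finset.range (2 * H), R := Finset.sum_le_sum hfib
    _ = _ := by
        rw [Finset.sum_const, Finset.card_range, nsmul_eq_mul]
        push_cast
        ring

/-- The reduced system. -/
lemma reduceP {p h t s : ℕ} (hp : 2 ≤ p) {f : ℕ → ℕ} (hs : t < p ^ s)
    (hf : ∀ n ≥ t, f n ≤ n)
    (hL : ∀ j, ∀ n ≥ t, ∀ n' ≥ t, n % p ^ (j + h) = n' % p ^ (j + h) → f n % p ^ j = f n' % p ^ j) :
    (∀ z, f (t + p ^ (s + h) * z) = f t + p ^ s * (f (t + p ^ (s + h) * z) / p ^ s)) ∧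
    Sys p h (fun z => f (t + p ^ (s + h) * z) / p ^ s)
      (fun z => p ^ h * z - f (t + p ^ (s + h) * z) / p ^ s) := by
  have hp0 : 0 < p := by omega
  have hps : 0 < p ^ s := Nat.pow_pos hp0
  have hft : f t < p ^ s := (hf t le_rfl).trans_lt hs
  have e1 : ∀ z, f (t + p ^ (s + h) * z) = f t + p ^ s * (f (t + p ^ (s + h) * z) / p ^ s) := by
    intro z
    have h1 := hL s (t + p ^ (s + h) * z) (Nat.le_add_right _ _) t le_rfl
      (Nat.add_mul_mod_self_left _ _ _)
    rw [Nat.mod_eq_of_lt hft] at h1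
    have h2 := Nat.div_add_mod (f (t + p ^ (s + h) * z)) (p ^ s)
    rw [h1] at h2
    omega
  have e2 : ∀ z, f (t + p ^ (s + h) * z) / p ^ s ≤ p ^ h * z := by
    intro z
    have h1 := Nat.div_le_div_right (c := p ^ s)
      (hf (t + p ^ (s + h) * z) (Nat.le_add_right _ _))
    have h2 : t + p ^ (s + h) * z = t + p ^ s * (p ^ h * z) := by rw [pow_add]; ring
    rw [h2, Nat.add_mul_div_left _ _ hps, Nat.div_eq_of_lt hs, zero_add] at h1
    rw [h2]
    exact h1
  set F : ℕ → ℕ := fun z => f (t + p ^ (s + h) * z) / p ^ s with hF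
  have hadd : ∀ z, F z + (p ^ h * z - F z) = p ^ h * z := fun z => Nat.add_sub_cancel' (e2 z)
  have hlf : ∀ i z z', z ≡ z' [MOD p ^ i] → F z ≡ F z' [MOD p ^ i] := by
    intro i z z' hz
    have h1 : t + p ^ (s + h) * z ≡ t + p ^ (s + h) * z' [MOD p ^ (s + i + h)] := by
      have h2 : p ^ (s + i + h) = p ^ (s + h) * p ^ i := by
        rw [← pow_add]
        congr 1
        ring
      rw [h2]
      exact Nat.ModEq.add_left t (Nat.ModEq.mul_left' _ hz)
    have h3 : f (t + p ^ (s + h) * z) ≡ f (t + p ^ (s + h) * z') [MOD p ^ (s + i)] :=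
      hL (s + i) _ (Nat.le_add_right _ _) _ (Nat.le_add_right _ _) h1
    have h4 : f t + p ^ s * F z ≡ f t + p ^ s * F z' [MOD p ^ s * p ^ i] := by
      rw [← pow_add]
      have h5 := h3
      rw [e1 z, e1 z'] at h5
      exact h5
    exact Nat.ModEq.mul_left_cancel' hps.ne' (Nat.ModEq.add_left_cancel' _ h4)
  refine ⟨e1, ⟨hadd, hlf, fun i z z' hz => ?_⟩⟩
  have h1 : F z + (p ^ h * z - F z) ≡ F z' + (p ^ h * z' - F z') [MOD p ^ i] := by
    rw [hadd z, hadd z']
    exact Nat.ModEq.mul_left _ hz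
  exact Nat.ModEq.add_left_cancel (hlf i z z' hz) h1

/-- Choices which are Lipschitz in the `p`-adic sense: a power of `x`. -/
theorem powerP {p : ℕ} (hp : p.Prime) (h : ℕ) : ∃ c : ℝ, 0 < c ∧
    ∀ (A : Set ℕ) (f : ℕ → ℕ) (t : ℕ),
    (∀ n ≥ t, f n ≤ n ∧ f n ∈ A ∧ n - f n ∈ A) →
    (∀ j, ∀ n ≥ t, ∀ n' ≥ t, n % p ^ (j + h) = n' % p ^ (j + h) → f n % p ^ j = f n' % p ^ j) →
    ∀ᶠ x : ℕ in atTop, ∃ n < x, (x : ℝ) ^ c ≤ rep A n := by
  obtain ⟨W, hW, c₀, hc₀, hlev⟩ := levels2 hp h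
  have hp2 := hp.two_le
  have hp0 := hp.pos
  have hpr : (2 : ℝ) ≤ p := by exact_mod_cast hp2
  have hlp : 0 < Real.log p := Real.log_pos (by linarith)
  have hWr : (1 : ℝ) ≤ W := by exact_mod_cast hW
  have hW0 : (0 : ℝ) < W := by linarith
  refine ⟨c₀ / (2 * (W * Real.log p)), by positivity, fun A f t hf hL => ?_⟩
  set c := c₀ / (2 * (W * Real.log p)) with hc
  have hc0 : 0 < c := by positivity
  have hts : t < p ^ t := Nat.lt_pow_self (by omega)
  obtain ⟨e1, hsys⟩ := reduceP hp2 hts (fun n hn => (hf n hn).1) hL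
  set F : ℕ → ℕ := fun z => f (t + p ^ (t + h) * z) / p ^ t with hF
  have hpt : 0 < p ^ t := Nat.pow_pos hp0
  have hRad := rad_mm hp2 hW
  set D := 6 * p ^ (t + h) with hD
  have hD0 : 0 < D := by positivity
  have hDr : (0 : ℝ) < D := by exact_mod_cast hD0
  have hlarge : ∀ᶠ x : ℕ in atTop,
      2 * (h * Real.log p) + Real.log 4 + c₀ * (Real.log D / (W * Real.log p) + 1) <
        c * Real.log x := by
    have h1 : Tendsto (fun x : ℕ => c * Real.log x) atTop atTop :=
      (Real.tendsto_log_atTop.comp tendsto_natCast_atTop_atTop).const_mul_atTop hc0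
    exact h1.eventually_gt_atTop _
  filter_upwards [hlarge, Filter.eventually_ge_atTop (D + 1)] with x hx hxt
  by_contra hcon
  push Not at hcon
  have hx0 : (0 : ℝ) < x := by exact_mod_cast (by omega : 0 < x)
  have hx1 : (1 : ℝ) ≤ x := by exact_mod_cast (by omega : 1 ≤ x)
  have hex : ∃ L, x < D * mm p W L := by
    refine ⟨x, ?_⟩
    have h1 : x < mm p W x := by
      unfold mm
      exact Nat.lt_pow_self (by have := hRad.two 0; omega)
    exact h1.trans_le (Nat.le_mul_of_pos_left _ hD0)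
  classical
  set K := Nat.find hex with hK
  have hK1 : x < D * mm p W K := Nat.find_spec hex
  have hK0 : K ≠ 0 := by
    intro h0
    rw [h0] at hK1
    have : mm p W 0 = 1 := pow_zero _
    rw [this, mul_one] at hK1
    omega
  obtain ⟨L, hKL⟩ := Nat.exists_eq_succ_of_ne_zero hK0
  have hL1 : D * mm p W L ≤ x := by
    have h1 := Nat.find_min hex (m := L) (by rw [← hK, hKL]; exact Nat.lt_succ_self L)
    omega
  set M := mm p W L with hM
  have hM0 : 0 < M := hRad.pos L
  have hph : 1 ≤ p ^ h := Nat.one_le_pow _ _ hp0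
  have hbound : ∀ e, e ≤ t → 2 * e + p ^ t * (2 * M + M * (2 * p ^ h)) ≤ x := by
    intro e he
    refine le_trans ?_ hL1
    have h1 : e ≤ p ^ t := he.trans hts.le
    have h2 : p ^ t ≤ p ^ t * M := Nat.le_mul_of_pos_right _ hM0
    have h3 : p ^ t * M ≤ p ^ t * M * p ^ h := Nat.le_mul_of_pos_right _ hph
    have h4 : D * M = 6 * (p ^ t * M * p ^ h) := by
      rw [hD, pow_add]
      ring
    rw [h4]
    have h5 : p ^ t * (2 * M + M * (2 * p ^ h)) = 2 * (p ^ t * M) + 2 * (p ^ t * M * p ^ h) := by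
      ring
    rw [h5]
    omega
  have hcount : ∀ (K : ℕ → ℕ) (e : ℕ), e ≤ t → (∀ z, e + p ^ t * K z ∈ A) →
      (∀ z, K z ≤ p ^ h * z) → ∀ s, (((red M K ×ˢ red M K).filter
        fun q => q.1 + q.2 = s).card : ℝ) ≤ 2 * (p ^ h : ℕ) * (x : ℝ) ^ c := by
    intro K e he hKA hKle s
    refine count_res A K hpt hM0 (fun z _ => hKA z) (fun z hz => ?_) ((x : ℝ) ^ c)
      (fun n hn => (hcon n (hn.trans_le (hbound e he))).le) s
    calc K z ≤ p ^ h * z := hKle z
      _ < p ^ h * M := Nat.mul_lt_mul_of_pos_left hz hph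
      _ = _ := mul_comm _ _
  have hft : f t ≤ t := (hf t le_rfl).1
  have hFle : ∀ z, F z ≤ p ^ h * z := fun z => by
    have h0 : F z + (p ^ h * z - F z) = p ^ h * z := hsys.add z
    omega
  have hcF := hcount F (f t) hft (fun z => by
    have h1 := (hf (t + p ^ (t + h) * z) (Nat.le_add_right _ _)).2.1
    rwa [e1 z] at h1) hFle
  have hcG := hcount (fun z => p ^ h * z - F z) (t - f t) (by omega) (fun z => by
    have h1 := (hf (t + p ^ (t + h) * z) (Nat.le_add_right _ _)).2.2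
    rw [e1 z] at h1
    have h2 : t - f t + p ^ t * (p ^ h * z - F z) = t + p ^ (t + h) * z - (f t + p ^ t * F z) := by
      have h3 := Nat.mul_le_mul_left (p ^ t) (hFle z)
      have h4 : p ^ (t + h) * z = p ^ t * (p ^ h * z) := by rw [pow_add]; ring
      rw [Nat.mul_sub, h4]
      omega
    rw [h2]
    exact h1) (fun z => Nat.sub_le _ _)
  have hphr : (1 : ℝ) ≤ ((p ^ h : ℕ) : ℝ) := by exact_mod_cast hph
  have hxc : (1 : ℝ) ≤ (x : ℝ) ^ c := Real.one_le_rpow hx1 hc0.le
  have hR1 : 1 ≤ 2 * ((p ^ h : ℕ) : ℝ) * (x : ℝ) ^ c := by nlinarith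
  have hfin := hlev F (fun z => p ^ h * z - F z) hsys L (2 * ((p ^ h : ℕ) : ℝ) * (x : ℝ) ^ c) hR1
    hcF hcG
  have hlog : Real.log (2 * (2 * ((p ^ h : ℕ) : ℝ) * (x : ℝ) ^ c)) =
      Real.log 4 + h * Real.log p + c * Real.log x := by
    have h1 : 2 * (2 * ((p ^ h : ℕ) : ℝ) * (x : ℝ) ^ c) = 4 * ((p : ℝ) ^ h) * (x : ℝ) ^ c := by
      push_cast
      ring
    rw [h1, Real.log_mul (by positivity) (by positivity), Real.log_mul (by norm_num)
      (by positivity), Real.log_pow, Real.log_rpow hx0]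
  rw [hlog] at hfin
  have hlx : Real.log x ≤ Real.log D + (L + 1) * (W * Real.log p) := by
    have h1 : (x : ℝ) ≤ D * ((p : ℝ) ^ W) ^ K := by
      have h2 : (x : ℝ) ≤ ((D * mm p W K : ℕ) : ℝ) := by exact_mod_cast hK1.le
      refine h2.trans (le_of_eq ?_)
      unfold mm
      push_cast
      ring
    have h2 := Real.log_le_log hx0 h1
    rw [Real.log_mul (by positivity) (by positivity), Real.log_pow, Real.log_pow, hKL] at h2
    push_cast at h2
    exact h2
  have h1 : c₀ * (Real.log x / (W * Real.log p)) ≤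
      c₀ * (Real.log D / (W * Real.log p) + 1) + c₀ * L := by
    rw [← mul_add]
    refine mul_le_mul_of_nonneg_left ?_ hc₀.le
    rw [div_le_iff₀ (by positivity)]
    calc Real.log x ≤ Real.log D + (L + 1) * (W * Real.log p) := hlx
      _ = _ := by
        field_simp
        ring
  have h2 : c₀ * (Real.log x / (W * Real.log p)) = 2 * (c * Real.log x) := by
    rw [hc]
    field_simp
  linarith

end Pool.Agent.Helper72.PL
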