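import Pool.Agent.Helper72.PL.Main4
import Pool.Agent.Helper72.PL.ChainP

/-! The mean square of the number of representations grows like a power. -/

namespace Pool.Agent.Helper72.PL

open Finset Filter Pool.Agent.Helper72.NS Pool.Agent.Helper72.PW

lemma sum_sub (F : ℕ → ℕ) (e : ℕ → ℕ) {N x : ℕ} (hinj : Set.InjOn e (Set.Iio N))
    (hx : ∀ s < N, e s < x) :
    ∑ s ∈ Finset.range N, F (e s) ≤ ∑ n ∈ Finset.range x, F n := by
  have h1 : Set.InjOn e ((Finset.range N : Finset ℕ) : Set ℕ) := by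
    intro a ha b hb hab
    rw [Finset.mem_coe, Finset.mem_range] at ha hb
    exact hinj ha hb hab
  rw [← Finset.sum_image (f := F) h1]
  refine Finset.sum_le_sum_of_subset fun n hn => ?_
  rw [Finset.mem_image] at hn
  obtain ⟨s, hs, rfl⟩ := hn
  exact Finset.mem_range.2 (hx s (Finset.mem_range.1 hs))

/-- the sum of the squares of the numbers of representations -/
noncomputable def sq2 (A : Set ℕ) (x : ℕ) : ℕ := ∑ n ∈ Finset.range x, rep A n ^ 2

lemma en_le_sq2 (A : Set ℕ) (S : Finset ℕ) {e d M x : ℕ} (hd : 0 < d) (hS : ∀ a ∈ S, a < M)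
    (hSA : ∀ a ∈ S, e + d * a ∈ A) (hx : 2 * e + d * (2 * M) ≤ x) : en S ≤ sq2 A x := by
  refine (en_le S M hS).trans ?_
  have h1 : ∀ s ∈ Finset.range (2 * M), cs S s ^ 2 ≤ rep A (2 * e + d * s) ^ 2 := fun s _ =>
    Nat.pow_le_pow_left (count_le_rep A S e d hd hSA s) 2
  refine (Finset.sum_le_sum h1).trans ?_
  unfold sq2
  refine sum_sub (fun n => rep A n ^ 2) (fun s => 2 * e + d * s) ?_ ?_
  · intro a _ b _ hab
    simp only at hab
    exact Nat.eq_of_mul_eq_mul_left hd (by omega)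
  · intro s hs
    have := Nat.mul_lt_mul_of_pos_left hs hd
    omega

/-- pairs of residues and representations -/
lemma cs_res (A : Set ℕ) (K : ℕ → ℕ) {e d M H : ℕ} (hd : 0 < d)
    (hK : ∀ z < M, e + d * K z ∈ A) (hlt : ∀ z < M, K z < M * H) (s : ℕ) :
    cs (red M K) s ≤ ∑ c ∈ Finset.range (2 * H), rep A (2 * e + d * (s + M * c)) := by
  classical
  have hex : ∀ a, ∃ z, a ∈ red M K → z < M ∧ K z % M = a := by
    intro a
    by_cases ha : a ∈ red M K
    · have ha' := ha
      unfold red at ha'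
      rw [Finset.mem_image] at ha'
      obtain ⟨z, hz, h1⟩ := ha'
      exact ⟨z, fun _ => ⟨Finset.mem_range.1 hz, h1⟩⟩
    · exact ⟨0, fun h => absurd h ha⟩
  choose zz hzz using hex
  unfold cs
  set S := (red M K ×ˢ red M K).filter fun q => q.1 + q.2 = s with hS
  have hmem : ∀ q ∈ S, q.1 ∈ red M K ∧ q.2 ∈ red M K ∧ q.1 + q.2 = s := by
    intro q hq
    rw [hS, Finset.mem_filter, Finset.mem_product] at hq
    exact ⟨hq.1.1, hq.1.2, hq.2⟩
  set ε : ℕ × ℕ → ℕ := fun q => K (zz q.1) / M + K (zz q.2) / M with hε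
  have hεlt : ∀ q ∈ S, ε q ∈ Finset.range (2 * H) := by
    intro q hq
    obtain ⟨h1, h2, _⟩ := hmem q hq
    have h3 := hlt _ (hzz q.1 h1).1
    have h4 := hlt _ (hzz q.2 h2).1
    have h5 := Nat.div_lt_of_lt_mul h3
    have h6 := Nat.div_lt_of_lt_mul h4
    rw [Finset.mem_range, hε]
    simp only
    omega
  rw [Finset.card_eq_sum_card_fiberwise hεlt]
  refine Finset.sum_le_sum fun c hc => ?_
  have hval : ∀ a ∈ red M K, K (zz a) = a + M * (K (zz a) / M) := by
    intro a ha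
    have h1 := Nat.div_add_mod (K (zz a)) M
    rw [(hzz a ha).2] at h1
    omega
  refine card_le_rep A _ (fun q => (e + d * K (zz q.1), e + d * K (zz q.2))) _ ?_ ?_
  · intro q hq q' hq' hqq
    rw [Finset.mem_coe, Finset.mem_filter] at hq hq'
    obtain ⟨h1, h2, _⟩ := hmem q hq.1
    obtain ⟨h3, h4, _⟩ := hmem q' hq'.1
    simp only [Prod.mk.injEq] at hqq
    have h5 : K (zz q.1) = K (zz q'.1) :=
      Nat.eq_of_mul_eq_mul_left hd (by omega)
    have h6 : K (zz q.2) = K (zz q'.2) :=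
      Nat.eq_of_mul_eq_mul_left hd (by omega)
    refine Prod.ext ?_ ?_
    · rw [← (hzz q.1 h1).2, h5, (hzz q'.1 h3).2]
    · rw [← (hzz q.2 h2).2, h6, (hzz q'.2 h4).2]
  · intro q hq
    rw [Finset.mem_filter] at hq
    obtain ⟨h1, h2, h3⟩ := hmem q hq.1
    refine ⟨hK _ (hzz q.1 h1).1, hK _ (hzz q.2 h2).1, ?_⟩
    have h4 := hval q.1 h1
    have h5 := hval q.2 h2
    have h6 : K (zz q.1) / M + K (zz q.2) / M = c := hq.2
    simp only
    calc e + d * K (zz q.1) + (e + d * K (zz q.2))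
        = 2 * e + d * ((q.1 + M * (K (zz q.1) / M)) + (q.2 + M * (K (zz q.2) / M))) := by
          rw [← h4, ← h5]; ring
      _ = 2 * e + d * ((q.1 + q.2) + M * (K (zz q.1) / M + K (zz q.2) / M)) := by ring
      _ = _ := by rw [h3, h6]

lemma en_res (A : Set ℕ) (K : ℕ → ℕ) {e d M H x : ℕ} (hd : 0 < d) (hM : 0 < M)
    (hK : ∀ z < M, e + d * K z ∈ A) (hlt : ∀ z < M, K z < M * H)
    (hx : 2 * e + d * (2 * M + M * (2 * H)) ≤ x) : en (red M K) ≤ 4 * H ^ 2 * sq2 A x := by
  have hred : ∀ a ∈ red M K, a < M := by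
    intro a ha
    unfold red at ha
    rw [Finset.mem_image] at ha
    obtain ⟨z, _, rfl⟩ := ha
    exact Nat.mod_lt _ hM
  refine (en_le (red M K) M hred).trans ?_
  have h1 : ∀ s ∈ Finset.range (2 * M), cs (red M K) s ^ 2 ≤
      2 * H * ∑ c ∈ Finset.range (2 * H), rep A (2 * e + d * (s + M * c)) ^ 2 := by
    intro s _
    refine (Nat.pow_le_pow_left (cs_res A K hd hK hlt s) 2).trans ?_
    have := sq_sum_le_card_mul_sum_sq (s := Finset.range (2 * H))
      (f := fun c => rep A (2 * e + d * (s + M * c)))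
    rw [Finset.card_range] at this
    exact this
  refine (Finset.sum_le_sum h1).trans ?_
  rw [← Finset.mul_sum, Finset.sum_comm]
  have h2 : ∀ c ∈ Finset.range (2 * H),
      ∑ s ∈ Finset.range (2 * M), rep A (2 * e + d * (s + M * c)) ^ 2 ≤ sq2 A x := by
    intro c hc
    rw [Finset.mem_range] at hc
    unfold sq2
    refine sum_sub (fun n => rep A n ^ 2) (fun s => 2 * e + d * (s + M * c)) ?_ ?_
    · intro a _ b _ hab
      simp only at hab
      have h3 : d * (a + M * c) = d * (b + M * c) := by omega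
      have h4 := Nat.eq_of_mul_eq_mul_left hd h3
      omega
    · intro s hs
      have h3 : s + M * c < 2 * M + M * (2 * H) := by
        have := Nat.mul_le_mul_left M hc.le
        omega
      have h4 := Nat.mul_lt_mul_of_pos_left h3 hd
      omega
  calc 2 * H * ∑ c ∈ Finset.range (2 * H), ∑ s ∈ Finset.range (2 * M),
        rep A (2 * e + d * (s + M * c)) ^ 2
      ≤ 2 * H * ∑ _c ∈ Finset.range (2 * H), sq2 A x :=
        Nat.mul_le_mul_left _ (Finset.sum_le_sum h2)
    _ = _ := by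
        rw [Finset.sum_const, Finset.card_range, smul_eq_mul]
        ring

/-- Choices digit by digit: the mean square. -/
theorem squareA (Q : ℕ) : ∃ c : ℝ, 0 < c ∧ ∀ (A : Set ℕ) (m f : ℕ → ℕ) (t : ℕ), Chain m →
    (∀ j, m (j + 1) ≤ Q * m j) →
    (∀ n ≥ t, f n ≤ n ∧ f n ∈ A ∧ n - f n ∈ A) →
    (∀ j, ∀ n ≥ t, ∀ n' ≥ t, n % m j = n' % m j → f n % m j = f n' % m j) →
    ∀ᶠ x : ℕ in atTop, (x : ℝ) ^ (1 + c) ≤ sq2 A x := by
  rcases Nat.lt_or_ge Q 2 with hQ | hQ
  · refine ⟨1, one_pos, fun A m f t hm hmQ => ?_⟩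
    exfalso
    have h1 := hm.two 0
    have h2 := hmQ 0
    have h3 := hm.pos 0
    nlinarith
  obtain ⟨c₀, hc₀, hlev⟩ := levelsA hQ
  have hQr : (2 : ℝ) ≤ Q := by exact_mod_cast hQ
  have hlQ : 0 < Real.log Q := Real.log_pos (by linarith)
  refine ⟨c₀ / (2 * Real.log Q), by positivity, fun A m f t hm hmQ hf hL => ?_⟩
  set c := c₀ / (2 * Real.log Q) with hc
  have hc0 : 0 < c := by positivity
  have hpow : ∀ j, 2 ^ j ≤ m j := by
    intro j
    induction j with
    | zero => rw [hm.one]; norm_num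
    | succ j ih => have := hm.two j; rw [pow_succ]; omega
  have hts : t < m t := (Nat.lt_two_pow_self).trans_le (hpow t)
  obtain ⟨e1, hsplit⟩ := reduce hm hts (fun n hn => (hf n hn).1) hL
  set F : ℕ → ℕ := fun k => f (t + m t * k) / m t with hF
  have hmt : 0 < m t := hm.pos t
  have hM : ∀ j, m t * (m (t + j) / m t) = m (t + j) := fun j =>
    Nat.mul_div_cancel' (hm.dvd' (by omega))
  have hgm : ∀ j, m (t + j + 1) / m (t + j) * m (t + j) = m (t + j + 1) := fun j =>
    Nat.div_mul_cancel (hm.dvd _)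
  have hRad : Rad (fun j => m (t + j) / m t) (fun j => m (t + j + 1) / m (t + j)) := by
    refine ⟨?_, fun j => ?_, fun j => ?_⟩
    · simp only [add_zero]
      exact Nat.div_self hmt
    · have h1 := hM j
      have h2 := hM (j + 1)
      have h3 := hgm j
      refine Nat.eq_of_mul_eq_mul_left hmt ?_
      rw [h2, mul_left_comm, h1, h3, add_assoc]
    · rw [Nat.le_div_iff_mul_le (hm.pos _)]
      exact hm.two _
  have hgQ : ∀ j, m (t + j + 1) / m (t + j) ≤ Q := fun j =>
    Nat.div_le_of_le_mul (by rw [mul_comm]; exact hmQ (t + j))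
  set D : ℝ := 4 * Q * m t with hD
  have hmtr : (1 : ℝ) ≤ m t := by exact_mod_cast hmt
  have hD1 : 1 ≤ D := by rw [hD]; nlinarith
  have hlarge : ∀ᶠ x : ℕ in atTop,
      Real.log (2 * D) + c₀ * (Real.log 4 / Real.log Q + t + 1) < c * Real.log x := by
    have h1 : Tendsto (fun x : ℕ => c * Real.log x) atTop atTop :=
      (Real.tendsto_log_atTop.comp tendsto_natCast_atTop_atTop).const_mul_atTop hc0
    exact h1.eventually_gt_atTop _
  filter_upwards [hlarge, Filter.eventually_ge_atTop (4 * m t + 1)] with x hx hxt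
  by_contra hcon
  rw [not_le] at hcon
  have hx0 : (0 : ℝ) < x := by exact_mod_cast (by omega : 0 < x)
  have hx1 : (1 : ℝ) ≤ x := by exact_mod_cast (by omega : 1 ≤ x)
  have hex : ∃ J, x < 4 * m (t + J) := by
    refine ⟨x, ?_⟩
    have h1 : x < 2 ^ (t + x) :=
      (Nat.lt_two_pow_self).trans_le (Nat.pow_le_pow_right (by norm_num) (by omega))
    have h2 := hpow (t + x)
    omega
  classical
  set K := Nat.find hex with hK
  have hK1 : x < 4 * m (t + K) := Nat.find_spec hex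
  have hK0 : K ≠ 0 := by
    intro h0
    rw [h0, add_zero] at hK1
    omega
  obtain ⟨J, hJ⟩ := Nat.exists_eq_succ_of_ne_zero hK0
  have hJ1 : 4 * m (t + J) ≤ x := by
    have h1 := Nat.find_min hex (m := J) (by rw [← hK, hJ]; exact Nat.lt_succ_self J)
    omega
  have hxM : (x : ℝ) ≤ D * ((m (t + J) / m t : ℕ) : ℝ) := by
    have h1 : x ≤ 4 * (Q * m (t + J)) := by
      have h2 := hmQ (t + J)
      rw [hJ] at hK1
      have h3 : m (t + J.succ) = m (t + J + 1) := rfl
      rw [h3] at hK1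
      omega
    have h2 : (x : ℝ) ≤ 4 * (Q * m (t + J)) := by exact_mod_cast h1
    have h3 : ((m (t + J) : ℕ) : ℝ) = m t * ((m (t + J) / m t : ℕ) : ℝ) := by
      exact_mod_cast (hM J).symm
    rw [h3] at h2
    rw [hD]
    linarith
  have hxc : (1 : ℝ) ≤ (x : ℝ) ^ c := Real.one_le_rpow hx1 hc0.le
  have hK1' : 1 ≤ D * (x : ℝ) ^ c := one_le_mul_of_one_le_of_one_le hD1 hxc
  have hxsplit : (x : ℝ) ^ (1 + c) = x * (x : ℝ) ^ c := by
    rw [Real.rpow_add hx0, Real.rpow_one]
  have hen : ∀ (S : Finset ℕ) (e : ℕ), e ≤ t → (∀ a ∈ S, a < m (t + J) / m t) →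
      (∀ a ∈ S, e + m t * a ∈ A) →
      (en S : ℝ) ≤ D * (x : ℝ) ^ c * ((m (t + J) / m t : ℕ) : ℝ) := by
    intro S e he hSlt hSA
    have h1 : en S ≤ sq2 A x := by
      refine en_le_sq2 A S hmt hSlt hSA ?_
      have h7 := hM J
      have h8 : m t * (2 * (m (t + J) / m t)) = 2 * m (t + J) := by
        rw [mul_left_comm, h7]
      have h9 : m t ≤ m (t + J) := Nat.le_of_dvd (hm.pos _) (hm.dvd' (by omega))
      omega
    have h2 : (en S : ℝ) ≤ sq2 A x := by exact_mod_cast h1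
    have h3 : (sq2 A x : ℝ) ≤ x * (x : ℝ) ^ c := by
      rw [← hxsplit]
      exact hcon.le
    have h4 := mul_le_mul_of_nonneg_right hxM (by positivity : (0 : ℝ) ≤ (x : ℝ) ^ c)
    linarith
  have hMJ : ∀ a ∈ (Finset.range (m (t + J) / m t)).image F, a < m (t + J) / m t := by
    intro a ha
    rw [Finset.mem_image] at ha
    obtain ⟨n, hn, rfl⟩ := ha
    exact (hsplit.left.le n).trans_lt (Finset.mem_range.1 hn)
  have hMJ' : ∀ a ∈ (Finset.range (m (t + J) / m t)).image (fun k => k - F k),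
      a < m (t + J) / m t := by
    intro a ha
    rw [Finset.mem_image] at ha
    obtain ⟨n, hn, rfl⟩ := ha
    exact (Nat.sub_le _ _).trans_lt (Finset.mem_range.1 hn)
  have hft : f t ≤ t := (hf t le_rfl).1
  have hfin := hlev _ _ _ _ hRad hgQ hsplit J (D * (x : ℝ) ^ c) hK1'
    (hen _ (f t) hft hMJ fun a ha => by
      rw [Finset.mem_image] at ha
      obtain ⟨n, _, rfl⟩ := ha
      have h1 := (hf (t + m t * n) (by omega)).2.1
      rwa [e1 n] at h1)
    (hen _ (t - f t) (by omega) hMJ' fun a ha => by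
      rw [Finset.mem_image] at ha
      obtain ⟨n, _, rfl⟩ := ha
      have h1 := (hf (t + m t * n) (by omega)).2.2
      rw [e1 n] at h1
      have h2 : t - f t + m t * (n - F n) = t + m t * n - (f t + m t * F n) := by
        have h3 : F n ≤ n := hsplit.left.le n
        have h4 := Nat.mul_le_mul_left (m t) h3
        rw [Nat.mul_sub]
        omega
      rw [h2]
      exact h1)
  rw [← mul_assoc, Real.log_mul (by positivity) (by positivity), Real.log_rpow hx0] at hfin
  have hmle : ∀ j, (m j : ℝ) ≤ (Q : ℝ) ^ j := by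
    intro j
    induction j with
    | zero => rw [hm.one]; simp
    | succ j ih =>
      have h1 : (m (j + 1) : ℝ) ≤ Q * m j := by exact_mod_cast hmQ j
      rw [pow_succ]
      nlinarith
  have hlx : Real.log x ≤ Real.log 4 + (t + J + 1) * Real.log Q := by
    have h1 : (x : ℝ) ≤ 4 * (Q : ℝ) ^ (t + K) := by
      have h2 : (x : ℝ) ≤ 4 * m (t + K) := by exact_mod_cast hK1.le
      have h3 := hmle (t + K)
      linarith
    have h2 := Real.log_le_log hx0 h1
    rw [Real.log_mul (by norm_num) (by positivity), Real.log_pow, hJ] at h2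
    push_cast at h2
    linarith
  have h1 : c₀ * (Real.log x / Real.log Q) ≤
      c₀ * (Real.log 4 / Real.log Q + t + 1) + c₀ * J := by
    rw [← mul_add]
    refine mul_le_mul_of_nonneg_left ?_ hc₀.le
    rw [div_le_iff₀ hlQ]
    calc Real.log x ≤ Real.log 4 + (t + J + 1) * Real.log Q := hlx
      _ = _ := by
        field_simp
        ring
  have h2 : c₀ * (Real.log x / Real.log Q) = 2 * (c * Real.log x) := by
    rw [hc]
    field_simp
  linarith

/-- Choices which are Lipschitz in the `p`-adic sense: the mean square. -/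
theorem squareB {p : ℕ} (hp : p.Prime) (h : ℕ) : ∃ c : ℝ, 0 < c ∧
    ∀ (A : Set ℕ) (f : ℕ → ℕ) (t : ℕ),
    (∀ n ≥ t, f n ≤ n ∧ f n ∈ A ∧ n - f n ∈ A) →
    (∀ j, ∀ n ≥ t, ∀ n' ≥ t, n % p ^ (j + h) = n' % p ^ (j + h) → f n % p ^ j = f n' % p ^ j) →
    ∀ᶠ x : ℕ in atTop, (x : ℝ) ^ (1 + c) ≤ sq2 A x := by
  obtain ⟨W, hW, c₀, hc₀, hlev⟩ := levelsB hp h
  have hp2 := hp.two_le
  have hp0 := hp.pos
  have hpr : (2 : ℝ) ≤ p := by exact_mod_cast hp2
  have hlp : 0 < Real.log p := Real.log_pos (by linarith)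
  have hWr : (1 : ℝ) ≤ W := by exact_mod_cast hW
  have hW0 : (0 : ℝ) < W := by linarith
  refine ⟨c₀ / (2 * (W * Real.log p)), by positivity, fun A f t hf hL => ?_⟩
  set c := c₀ / (2 * (W * Real.log p)) with hc
  have hc0 : 0 < c := by positivity
  have hts : t < p ^ t := Nat.lt_pow_self (by omega)
  obtain ⟨e1, hsys⟩ := reduceP hp2 hts (fun n hn => (hf n hn).1) hL
  set F : ℕ → ℕ := fun z => f (t + p ^ (t + h) * z) / p ^ t with hF
  have hpt : 0 < p ^ t := Nat.pow_pos hp0
  have hRad := rad_mm hp2 hW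
  set D := 6 * p ^ (t + h) with hD
  have hD0 : 0 < D := by positivity
  have hDr : (1 : ℝ) ≤ D := by exact_mod_cast hD0
  set E : ℝ := 4 * ((p ^ h : ℕ) : ℝ) ^ 2 * (D * ((p ^ W : ℕ) : ℝ)) with hE
  have hph : 1 ≤ p ^ h := Nat.one_le_pow _ _ hp0
  have hphr : (1 : ℝ) ≤ ((p ^ h : ℕ) : ℝ) := by exact_mod_cast hph
  have hpWr : (1 : ℝ) ≤ ((p ^ W : ℕ) : ℝ) := by exact_mod_cast Nat.one_le_pow _ _ hp0
  have hE1 : 1 ≤ E := by
    rw [hE]
    have h1 : (1 : ℝ) ≤ ((p ^ h : ℕ) : ℝ) ^ 2 := one_le_pow₀ hphr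
    have h2 : (1 : ℝ) ≤ D * ((p ^ W : ℕ) : ℝ) := one_le_mul_of_one_le_of_one_le hDr hpWr
    have h3 := one_le_mul_of_one_le_of_one_le h1 h2
    linarith
  have hE0 : 0 < E := by linarith
  have hlarge : ∀ᶠ x : ℕ in atTop,
      h * Real.log p + Real.log (2 * E) + c₀ * (Real.log D / (W * Real.log p) + 1) <
        c * Real.log x := by
    have h1 : Tendsto (fun x : ℕ => c * Real.log x) atTop atTop :=
      (Real.tendsto_log_atTop.comp tendsto_natCast_atTop_atTop).const_mul_atTop hc0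
    exact h1.eventually_gt_atTop _
  filter_upwards [hlarge, Filter.eventually_ge_atTop (D + 1)] with x hx hxt
  by_contra hcon
  rw [not_le] at hcon
  have hx0 : (0 : ℝ) < x := by exact_mod_cast (by omega : 0 < x)
  have hx1 : (1 : ℝ) ≤ x := by exact_mod_cast (by omega : 1 ≤ x)
  have hex : ∃ L, x < D * mm p W L := by
    refine ⟨x, ?_⟩
    have h1 : x < mm p W x := by
      unfold mm
      exact Nat.lt_pow_self (by have := hRad.two 0; omega)
    exact h1.trans_le (Nat.le_mul_of_pos_left _ hD0)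
  classical
  set K := Nat.find hex with hK
  have hK1 : x < D * mm p W K := Nat.find_spec hex
  have hK0 : K ≠ 0 := by
    intro h0
    rw [h0] at hK1
    have : mm p W 0 = 1 := pow_zero _
    rw [this, mul_one] at hK1
    omega
  obtain ⟨L, hKL⟩ := Nat.exists_eq_succ_of_ne_zero hK0
  have hL1 : D * mm p W L ≤ x := by
    have h1 := Nat.find_min hex (m := L) (by rw [← hK, hKL]; exact Nat.lt_succ_self L)
    omega
  have hxM : (x : ℝ) ≤ D * ((p ^ W : ℕ) : ℝ) * (mm p W L : ℝ) := by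
    have h1 : x ≤ D * p ^ W * mm p W L := by
      rw [hKL] at hK1
      have h2 : mm p W L.succ = p ^ W * mm p W L := by
        unfold mm
        rw [Nat.succ_eq_add_one, pow_succ']
      rw [h2, ← mul_assoc] at hK1
      exact hK1.le
    exact_mod_cast h1
  set M := mm p W L with hM
  have hM0 : 0 < M := hRad.pos L
  have hbound : ∀ e, e ≤ t → 2 * e + p ^ t * (2 * M + M * (2 * p ^ h)) ≤ x := by
    intro e he
    refine le_trans ?_ hL1
    have h1 : e ≤ p ^ t := he.trans hts.le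
    have h2 : p ^ t ≤ p ^ t * M := Nat.le_mul_of_pos_right _ hM0
    have h3 : p ^ t * M ≤ p ^ t * M * p ^ h := Nat.le_mul_of_pos_right _ hph
    have h4 : D * M = 6 * (p ^ t * M * p ^ h) := by
      rw [hD, pow_add]
      ring
    rw [h4]
    have h5 : p ^ t * (2 * M + M * (2 * p ^ h)) = 2 * (p ^ t * M) + 2 * (p ^ t * M * p ^ h) := by
      ring
    rw [h5]
    omega
  have hxsplit : (x : ℝ) ^ (1 + c) = x * (x : ℝ) ^ c := by
    rw [Real.rpow_add hx0, Real.rpow_one]
  have hen : ∀ (K : ℕ → ℕ) (e : ℕ), e ≤ t → (∀ z, e + p ^ t * K z ∈ A) →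
      (∀ z, K z ≤ p ^ h * z) → (en (red M K) : ℝ) ≤ E * (x : ℝ) ^ c * M := by
    intro K e he hKA hKle
    have h1 : en (red M K) ≤ 4 * (p ^ h) ^ 2 * sq2 A x := by
      refine en_res A K hpt hM0 (fun z _ => hKA z) (fun z hz => ?_) (hbound e he)
      calc K z ≤ p ^ h * z := hKle z
        _ < p ^ h * M := Nat.mul_lt_mul_of_pos_left hz hph
        _ = _ := mul_comm _ _
    have h2 : (en (red M K) : ℝ) ≤ 4 * ((p ^ h : ℕ) : ℝ) ^ 2 * sq2 A x := by exact_mod_cast h1
    have h3 : (sq2 A x : ℝ) ≤ x * (x : ℝ) ^ c := by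
      rw [← hxsplit]
      exact hcon.le
    have h4 : x * (x : ℝ) ^ c ≤ D * ((p ^ W : ℕ) : ℝ) * (M : ℝ) * (x : ℝ) ^ c :=
      mul_le_mul_of_nonneg_right hxM (by positivity)
    have h5 : 4 * ((p ^ h : ℕ) : ℝ) ^ 2 * sq2 A x ≤
        4 * ((p ^ h : ℕ) : ℝ) ^ 2 * (D * ((p ^ W : ℕ) : ℝ) * (M : ℝ) * (x : ℝ) ^ c) :=
      mul_le_mul_of_nonneg_left (h3.trans h4) (by positivity)
    refine h2.trans (h5.trans (le_of_eq ?_))
    rw [hE]
    ring
  have hft : f t ≤ t := (hf t le_rfl).1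
  have hFle : ∀ z, F z ≤ p ^ h * z := fun z => by
    have h0 : F z + (p ^ h * z - F z) = p ^ h * z := hsys.add z
    omega
  have hcF := hen F (f t) hft (fun z => by
    have h1 := (hf (t + p ^ (t + h) * z) (Nat.le_add_right _ _)).2.1
    rwa [e1 z] at h1) hFle
  have hcG := hen (fun z => p ^ h * z - F z) (t - f t) (by omega) (fun z => by
    have h1 := (hf (t + p ^ (t + h) * z) (Nat.le_add_right _ _)).2.2
    rw [e1 z] at h1
    have h2 : t - f t + p ^ t * (p ^ h * z - F z) = t + p ^ (t + h) * z - (f t + p ^ t * F z) := by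
      have h3 := Nat.mul_le_mul_left (p ^ t) (hFle z)
      have h4 : p ^ (t + h) * z = p ^ t * (p ^ h * z) := by rw [pow_add]; ring
      rw [Nat.mul_sub, h4]
      omega
    rw [h2]
    exact h1) (fun z => Nat.sub_le _ _)
  have hxc : (1 : ℝ) ≤ (x : ℝ) ^ c := Real.one_le_rpow hx1 hc0.le
  have hR1 : 1 ≤ E * (x : ℝ) ^ c := one_le_mul_of_one_le_of_one_le hE1 hxc
  have hfin := hlev F (fun z => p ^ h * z - F z) hsys L (E * (x : ℝ) ^ c) hR1 hcF hcG
  rw [← mul_assoc, Real.log_mul (by positivity) (by positivity), Real.log_rpow hx0] at hfin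
  have hlx : Real.log x ≤ Real.log D + (L + 1) * (W * Real.log p) := by
    have h1 : (x : ℝ) ≤ D * ((p : ℝ) ^ W) ^ K := by
      have h2 : (x : ℝ) ≤ ((D * mm p W K : ℕ) : ℝ) := by exact_mod_cast hK1.le
      refine h2.trans (le_of_eq ?_)
      unfold mm
      push_cast
      ring
    have h2 := Real.log_le_log hx0 h1
    rw [Real.log_mul (by positivity) (by positivity), Real.log_pow, Real.log_pow, hKL] at h2
    push_cast at h2
    exact h2
  have h1 : c₀ * (Real.log x / (W * Real.log p)) ≤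
      c₀ * (Real.log D / (W * Real.log p) + 1) + c₀ * L := by
    rw [← mul_add]
    refine mul_le_mul_of_nonneg_left ?_ hc₀.le
    rw [div_le_iff₀ (by positivity)]
    calc Real.log x ≤ Real.log D + (L + 1) * (W * Real.log p) := hlx
      _ = _ := by
        field_simp
        ring
  have h2 : c₀ * (Real.log x / (W * Real.log p)) = 2 * (c * Real.log x) := by
    rw [hc]
    field_simp
  linarith

end Pool.Agent.Helper72.PL
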