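import Mathlib

/-! A gap in the relative entropy of a matrix of natural numbers with respect to a product. -/

namespace Pool.Agent.Helper72.PL

open Finset

lemma kl_term {s t : ℝ} (hs : 0 ≤ s) (ht : 0 ≤ t) (hst : 0 < s → 0 < t) :
    (√s - √t) ^ 2 + s - t ≤ s * Real.log (s / t) := by
  rcases hs.eq_or_lt with h0 | h0
  · rw [← h0, Real.sqrt_zero, zero_sub, neg_sq, Real.sq_sqrt ht]
    simp
  · have ht0 := hst h0
    have h1 : √s ^ 2 = s := Real.sq_sqrt hs
    have h2 : √t ^ 2 = t := Real.sq_sqrt ht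
    have hs0 : 0 < √s := Real.sqrt_pos.2 h0
    have ht1 : 0 < √t := Real.sqrt_pos.2 ht0
    have h3 : Real.log (s / t) = -(2 * Real.log (√t / √s)) := by
      rw [Real.log_div h0.ne' ht0.ne', Real.log_div ht1.ne' hs0.ne', Real.log_sqrt hs,
        Real.log_sqrt ht]
      ring
    have h4 := Real.log_le_sub_one_of_pos (div_pos ht1 hs0)
    have h5 : s * (√t / √s) = √s * √t := by
      rw [mul_div_assoc']
      rw [div_eq_iff hs0.ne']
      nlinarith
    rw [h3]
    have h6 : s * Real.log (√t / √s) ≤ √s * √t - s := by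
      calc s * Real.log (√t / √s) ≤ s * (√t / √s - 1) := mul_le_mul_of_nonneg_left h4 hs
        _ = _ := by rw [mul_sub, h5, mul_one]
    nlinarith

/-- the values of `mu` which are not small -/
noncomputable def bigB (B : ℕ) (g : ℕ) (μ : ℕ → ℝ) : Finset ℕ :=
  (Finset.range g).filter fun x => 1 / (2 * (B : ℝ)) ≤ μ x

lemma mem_bigB {B g : ℕ} {μ : ℕ → ℝ} {x : ℕ} :
    x ∈ bigB B g μ ↔ x < g ∧ 1 / (2 * (B : ℝ)) ≤ μ x := by
  unfold bigB
  rw [Finset.mem_filter, Finset.mem_range]

/-- The gap. -/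
theorem gap2 {g T B : ℕ} (N : ℕ → ℕ → ℕ) (hT : 0 < T) (hTB : T ≤ B)
    (hN : ∑ u ∈ Finset.range g, ∑ v ∈ Finset.range g, N u v = T) (μ ν : ℕ → ℝ)
    (hμ0 : ∀ x, 0 ≤ μ x) (hν0 : ∀ x, 0 ≤ ν x)
    (hμ : ∑ x ∈ Finset.range g, μ x = 1) (hν : ∑ x ∈ Finset.range g, ν x = 1)
    (hpos : ∀ u < g, ∀ v < g, 0 < N u v → 0 < μ u ∧ 0 < ν v) :
    0 ≤ ∑ u ∈ Finset.range g, ∑ v ∈ Finset.range g,
      (N u v : ℝ) * Real.log ((N u v : ℝ) / T / (μ u * ν v)) ∧
    ((∑ u ∈ Finset.range g, ∑ v ∈ Finset.range g,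
      (N u v : ℝ) * Real.log ((N u v : ℝ) / T / (μ u * ν v)) < T * (1 / (100 * (B : ℝ) ^ 4))) →
      (∀ u < g, ∀ v < g, ∀ u' < g, ∀ v' < g, N u v * N u' v' = N u v' * N u' v) ∧
      ∀ u < g, ∀ v < g, 0 < N u v ↔ u ∈ bigB B g μ ∧ v ∈ bigB B g ν) := by
  have hTr : (0 : ℝ) < T := by exact_mod_cast hT
  have hB1 : (1 : ℝ) ≤ B := by exact_mod_cast (by omega : 1 ≤ B)
  have hB0 : (0 : ℝ) < B := by linarith
  have hTBr : (T : ℝ) ≤ B := by exact_mod_cast hTB
  set s : ℕ → ℕ → ℝ := fun u v => (N u v : ℝ) / T with hs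
  set t : ℕ → ℕ → ℝ := fun u v => μ u * ν v with ht
  have hs0 : ∀ u v, 0 ≤ s u v := fun u v => by rw [hs]; positivity
  have ht0 : ∀ u v, 0 ≤ t u v := fun u v => mul_nonneg (hμ0 u) (hν0 v)
  have hssum : ∑ u ∈ Finset.range g, ∑ v ∈ Finset.range g, s u v = 1 := by
    rw [hs]
    simp only
    rw [Finset.sum_congr rfl fun u _ => (Finset.sum_div _ _ _).symm, ← Finset.sum_div]
    rw [div_eq_one_iff_eq hTr.ne']
    exact_mod_cast hN
  have htsum : ∑ u ∈ Finset.range g, ∑ v ∈ Finset.range g, t u v = 1 := by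
    rw [ht]
    simp only
    rw [Finset.sum_congr rfl (g := fun u => μ u) fun u _ => by
      rw [← Finset.mul_sum, hν, mul_one]]
    exact hμ
  have hval : ∑ u ∈ Finset.range g, ∑ v ∈ Finset.range g,
      (N u v : ℝ) * Real.log ((N u v : ℝ) / T / (μ u * ν v)) =
      T * ∑ u ∈ Finset.range g, ∑ v ∈ Finset.range g, s u v * Real.log (s u v / t u v) := by
    rw [Finset.mul_sum]
    refine Finset.sum_congr rfl fun u _ => ?_
    rw [Finset.mul_sum]
    refine Finset.sum_congr rfl fun v _ => ?_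
    rw [hs, ht]
    simp only
    rw [← mul_assoc, mul_div_cancel₀ _ hTr.ne']
  have hterm : ∀ u ∈ Finset.range g, ∀ v ∈ Finset.range g,
      (√(s u v) - √(t u v)) ^ 2 + s u v - t u v ≤ s u v * Real.log (s u v / t u v) := by
    intro u hu v hv
    rw [Finset.mem_range] at hu hv
    refine kl_term (hs0 u v) (ht0 u v) fun h0 => ?_
    have h1 : 0 < N u v := by
      rcases Nat.eq_zero_or_pos (N u v) with h | h
      · exfalso
        rw [hs] at h0
        simp only at h0
        rw [h, Nat.cast_zero, zero_div] at h0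
        exact lt_irrefl _ h0
      · exact h
    have h2 := hpos u hu v hv h1
    exact mul_pos h2.1 h2.2
  have hlow : ∑ u ∈ Finset.range g, ∑ v ∈ Finset.range g, (√(s u v) - √(t u v)) ^ 2 ≤
      ∑ u ∈ Finset.range g, ∑ v ∈ Finset.range g, s u v * Real.log (s u v / t u v) := by
    have h1 : ∑ u ∈ Finset.range g, ∑ v ∈ Finset.range g,
        ((√(s u v) - √(t u v)) ^ 2 + s u v - t u v) ≤
        ∑ u ∈ Finset.range g, ∑ v ∈ Finset.range g, s u v * Real.log (s u v / t u v) :=
      Finset.sum_le_sum fun u hu => Finset.sum_le_sum fun v hv => hterm u hu v hv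
    have h2 : ∑ u ∈ Finset.range g, ∑ v ∈ Finset.range g,
        ((√(s u v) - √(t u v)) ^ 2 + s u v - t u v) =
        ∑ u ∈ Finset.range g, ∑ v ∈ Finset.range g, (√(s u v) - √(t u v)) ^ 2 +
        ∑ u ∈ Finset.range g, ∑ v ∈ Finset.range g, s u v -
        ∑ u ∈ Finset.range g, ∑ v ∈ Finset.range g, t u v := by
      rw [← Finset.sum_add_distrib, ← Finset.sum_sub_distrib]
      refine Finset.sum_congr rfl fun u _ => ?_
      rw [← Finset.sum_add_distrib, ← Finset.sum_sub_distrib]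
    rw [h2, hssum, htsum] at h1
    linarith
  have hsq0 : 0 ≤ ∑ u ∈ Finset.range g, ∑ v ∈ Finset.range g, (√(s u v) - √(t u v)) ^ 2 :=
    Finset.sum_nonneg fun u _ => Finset.sum_nonneg fun v _ => sq_nonneg _
  rw [hval]
  refine ⟨mul_nonneg hTr.le (hsq0.trans hlow), fun hlt => ?_⟩
  have hlt' := lt_of_mul_lt_mul_left hlt hTr.le
  have hμ1 : ∀ a < g, μ a ≤ 1 := by
    intro a ha
    rw [← hμ]
    exact Finset.single_le_sum (fun b _ => hμ0 b) (Finset.mem_range.2 ha)
  have hν1 : ∀ a < g, ν a ≤ 1 := by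
    intro a ha
    rw [← hν]
    exact Finset.single_le_sum (fun b _ => hν0 b) (Finset.mem_range.2 ha)
  have ht1 : ∀ u < g, ∀ v < g, t u v ≤ 1 := fun u hu v hv =>
    mul_le_one₀ (hμ1 u hu) (hν0 v) (hν1 v hv)
  have hs1 : ∀ u < g, ∀ v < g, s u v ≤ 1 := by
    intro u hu v hv
    rw [← hssum]
    calc s u v ≤ ∑ v ∈ Finset.range g, s u v :=
          Finset.single_le_sum (f := fun v => s u v) (fun b _ => hs0 u b) (Finset.mem_range.2 hv)
      _ ≤ _ := Finset.single_le_sum (f := fun u => ∑ v ∈ Finset.range g, s u v)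
          (fun b _ => Finset.sum_nonneg fun c _ => hs0 b c) (Finset.mem_range.2 hu)
  set e : ℝ := 1 / (5 * (B : ℝ) ^ 2) with he
  have hclose : ∀ u < g, ∀ v < g, |s u v - t u v| ≤ e := by
    intro u hu v hv
    have h1 : (√(s u v) - √(t u v)) ^ 2 < (1 / (10 * (B : ℝ) ^ 2)) ^ 2 := by
      have h2 : (√(s u v) - √(t u v)) ^ 2 ≤
          ∑ u ∈ Finset.range g, ∑ v ∈ Finset.range g, (√(s u v) - √(t u v)) ^ 2 := by
        calc (√(s u v) - √(t u v)) ^ 2
            ≤ ∑ v ∈ Finset.range g, (√(s u v) - √(t u v)) ^ 2 :=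
              Finset.single_le_sum (f := fun v => (√(s u v) - √(t u v)) ^ 2)
                (fun b _ => sq_nonneg _) (Finset.mem_range.2 hv)
          _ ≤ _ := Finset.single_le_sum
              (f := fun u => ∑ v ∈ Finset.range g, (√(s u v) - √(t u v)) ^ 2)
              (fun b _ => Finset.sum_nonneg fun c _ => sq_nonneg _) (Finset.mem_range.2 hu)
      have h3 : (1 / (10 * (B : ℝ) ^ 2)) ^ 2 = 1 / (100 * (B : ℝ) ^ 4) := by
        field_simp
        ring
      rw [h3]
      exact (h2.trans hlow).trans_lt hlt'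
    have h2 := abs_lt_of_sq_lt_sq h1 (by positivity)
    have h3 : s u v - t u v = (√(s u v) - √(t u v)) * (√(s u v) + √(t u v)) := by
      have e1 := Real.sq_sqrt (hs0 u v)
      have e2 := Real.sq_sqrt (ht0 u v)
      nlinarith
    have h4 : √(s u v) ≤ 1 := Real.sqrt_le_one.2 (hs1 u hu v hv)
    have h5 : √(t u v) ≤ 1 := Real.sqrt_le_one.2 (ht1 u hu v hv)
    rw [h3, abs_mul, abs_of_nonneg (add_nonneg (Real.sqrt_nonneg _) (Real.sqrt_nonneg _))]
    calc |√(s u v) - √(t u v)| * (√(s u v) + √(t u v))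
        ≤ 1 / (10 * (B : ℝ) ^ 2) * 2 :=
          mul_le_mul h2.le (by linarith) (add_nonneg (Real.sqrt_nonneg _) (Real.sqrt_nonneg _))
            (by positivity)
      _ = e := by
          rw [he]
          field_simp
          ring
  have hprod : ∀ u < g, ∀ v < g, ∀ u' < g, ∀ v' < g,
      |s u v * s u' v' - t u v * t u' v'| ≤ 2 * e := by
    intro u hu v hv u' hu' v' hv'
    have h1 : s u v * s u' v' - t u v * t u' v' =
        (s u v - t u v) * s u' v' + t u v * (s u' v' - t u' v') := by ring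
    rw [h1]
    refine (abs_add_le _ _).trans ?_
    rw [abs_mul, abs_mul, abs_of_nonneg (hs0 u' v'), abs_of_nonneg (ht0 u v)]
    have h2 := hclose u hu v hv
    have h3 := hclose u' hu' v' hv'
    have h4 := hs1 u' hu' v' hv'
    have h5 := ht1 u hu v hv
    have h6 : |s u v - t u v| * s u' v' ≤ e * 1 :=
      mul_le_mul h2 h4 (hs0 _ _) ((abs_nonneg _).trans h2)
    have h7 : t u v * |s u' v' - t u' v'| ≤ 1 * e :=
      mul_le_mul h5 h3 (abs_nonneg _) (by norm_num)
    linarith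
  constructor
  · intro u hu v hv u' hu' v' hv'
    have h1 := hprod u hu v hv u' hu' v' hv'
    have h2 := hprod u hu v' hv' u' hu' v hv
    have h3 : t u v * t u' v' = t u v' * t u' v := by
      rw [ht]
      simp only
      ring
    rw [h3] at h1
    have h4 : |s u v * s u' v' - s u v' * s u' v| ≤ 4 * e := by
      have h5 : s u v * s u' v' - s u v' * s u' v =
          (s u v * s u' v' - t u v' * t u' v) - (s u v' * s u' v - t u v' * t u' v) := by ring
      rw [h5]
      refine (abs_sub _ _).trans ?_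
      linarith
    have h5 : s u v * s u' v' - s u v' * s u' v =
        (((N u v * N u' v' : ℕ) : ℤ) - ((N u v' * N u' v : ℕ) : ℤ) : ℤ) / (T : ℝ) ^ 2 := by
      rw [hs]
      simp only
      push_cast
      field_simp
    rw [h5, abs_div, abs_of_pos (by positivity : (0 : ℝ) < (T : ℝ) ^ 2),
      div_le_iff₀ (by positivity)] at h4
    have h6 : 4 * e * (T : ℝ) ^ 2 < 1 := by
      have h7 : (T : ℝ) ^ 2 ≤ (B : ℝ) ^ 2 := pow_le_pow_left₀ hTr.le hTBr 2
      have h8 : 0 < e := by rw [he]; positivity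
      calc 4 * e * (T : ℝ) ^ 2 ≤ 4 * e * (B : ℝ) ^ 2 :=
            mul_le_mul_of_nonneg_left h7 (by positivity)
        _ = 4 / 5 := by
            rw [he]
            field_simp
        _ < 1 := by norm_num
    have h7 := h4.trans_lt h6
    have h8 : |((N u v * N u' v' : ℕ) : ℤ) - ((N u v' * N u' v : ℕ) : ℤ)| < 1 := by
      rw [← Int.cast_abs] at h7
      exact_mod_cast h7
    rw [Int.abs_lt_one_iff] at h8
    omega
  · intro u hu v hv
    have h1 := hclose u hu v hv
    rw [abs_le] at h1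
    have hB2 : (B : ℝ) ≤ (B : ℝ) ^ 2 := by nlinarith
    constructor
    · intro h0
      have h2 : 1 / (B : ℝ) ≤ s u v := by
        rw [hs]
        simp only
        have h3 : (1 : ℝ) ≤ N u v := by exact_mod_cast h0
        rw [div_le_div_iff₀ hB0 hTr]
        nlinarith
      have h3 : e ≤ 1 / (2 * (B : ℝ)) := by
        rw [he]
        refine one_div_le_one_div_of_le (by positivity) ?_
        linarith
      have h4 : 1 / (B : ℝ) = 1 / (2 * (B : ℝ)) + 1 / (2 * (B : ℝ)) := by
        field_simp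
        norm_num
      have h5 : 1 / (2 * (B : ℝ)) ≤ t u v := by linarith [h1.2]
      have h6 := hpos u hu v hv h0
      rw [mem_bigB, mem_bigB]
      refine ⟨⟨hu, h5.trans ?_⟩, hv, h5.trans ?_⟩
      · rw [ht]
        simp only
        nlinarith [hν1 v hv, h6.1]
      · rw [ht]
        simp only
        nlinarith [hμ1 u hu, h6.2]
    · rintro ⟨h2, h3⟩
      rw [mem_bigB] at h2 h3
      by_contra h0
      have h4 : N u v = 0 := by omega
      have h5 : s u v = 0 := by
        rw [hs]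
        simp only
        rw [h4, Nat.cast_zero, zero_div]
      have h6 : 1 / (2 * (B : ℝ)) * (1 / (2 * (B : ℝ))) ≤ t u v :=
        mul_le_mul h2.2 h3.2 (by positivity) (hμ0 u)
      have h7 : e < 1 / (2 * (B : ℝ)) * (1 / (2 * (B : ℝ))) := by
        rw [he, div_mul_div_comm, one_mul]
        refine one_div_lt_one_div_of_lt (by positivity) ?_
        nlinarith
      rw [h5] at h1
      linarith [h1.1]

end Pool.Agent.Helper72.PL
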