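import Pool.Agent.Helper72.PW.TileSets

/-! Zero runs, and sets of integers with prescribed zero digits. -/

namespace Pool.Agent.Helper72.PL

open Finset Pool.Agent.Helper72.PW

/-- every digit in the place `i` is possible after every beginning -/
def FB (p : ℕ) (U : Finset ℕ) (i : ℕ) : Prop :=
  ∀ u ∈ U, ∀ x < p, ∃ u' ∈ U, u' % p ^ (i + 1) = u % p ^ i + x * p ^ i

lemma adjust {P p : ℕ} (hP : 0 < P) (hp : 0 < p) (s t : ℕ) :
    ∃ x < p, (s % P + x * P + t) % (P * p) = (s + t) % P := by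
  set q := (s % P + t) / P with hq
  refine ⟨(p - q % p) % p, Nat.mod_lt _ hp, ?_⟩
  set x := (p - q % p) % p with hx
  have h1 : (s % P + t) % P = (s + t) % P := by
    rw [Nat.add_mod, Nat.mod_mod, ← Nat.add_mod]
  have h2 : P * q + (s % P + t) % P = s % P + t := Nat.div_add_mod _ _
  have h3 : (q + x) % p = 0 := by
    have h4 := Nat.mod_lt q hp
    rw [Nat.add_mod, hx, Nat.mod_mod]
    rcases Nat.eq_zero_or_pos (q % p) with h5 | h5
    · rw [h5]
      simp
    · rw [Nat.mod_eq_of_lt (by omega : p - q % p < p)]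
      have : q % p + (p - q % p) = p := by omega
      rw [this, Nat.mod_self]
  obtain ⟨y, hy⟩ := Nat.dvd_of_mod_eq_zero h3
  have h4 : s % P + x * P + t = (s + t) % P + P * p * y := by
    rw [h1] at h2
    calc s % P + x * P + t = (s % P + t) + x * P := by ring
      _ = (P * q + (s + t) % P) + x * P := by rw [h2]
      _ = (s + t) % P + P * (q + x) := by ring
      _ = _ := by rw [hy]; ring
  rw [h4, Nat.add_mul_mod_self_left]
  refine Nat.mod_eq_of_lt ((Nat.mod_lt _ hP).trans_le ?_)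
  exact Nat.le_mul_of_pos_right _ hp

/-- A zero run kills the digit of the other set. -/
theorem kill {p h W : ℕ} (hp : 0 < p) {U V : Finset ℕ} (hU : U.Nonempty) (X : ℕ)
    (hrun : ∀ u ∈ U, ∀ v ∈ V, ∀ i, i + h + 1 ≤ W → (u + v + X) % p ^ (i + h + 1) < p ^ i →
      u % p ^ (i + 1) < p ^ i ∧ v % p ^ (i + 1) < p ^ i)
    (hB : ∀ i, h ≤ i → i < W → FB p U i ∨ FB p V i) {i : ℕ} (hi : h ≤ i) (hiW : i + h + 1 ≤ W)
    (hFB : FB p U i) : ∀ v ∈ V, v % p ^ (i + 1) < p ^ i := by
  intro v hv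
  obtain ⟨u, hu⟩ := hU
  have key : ∀ m, m ≤ h → ∃ u' ∈ U, ∃ v' ∈ V, v' % p ^ (i + 1) = v % p ^ (i + 1) ∧
      (u' + v' + X) % p ^ (i + m + 1) < p ^ i := by
    intro m
    induction m with
    | zero =>
      intro _
      obtain ⟨x, hx, hxx⟩ := adjust (Nat.pow_pos hp : 0 < p ^ i) hp u (v + X)
      obtain ⟨u', hu', hu2⟩ := hFB u hu x hx
      refine ⟨u', hu', v, hv, rfl, ?_⟩
      have h1 : (u' + v + X) % p ^ (i + 0 + 1) = (u + (v + X)) % p ^ i := by
        rw [← hxx, ← hu2, add_zero, ← pow_succ, Nat.add_mod (u' % p ^ (i + 1)), Nat.mod_mod,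
          ← Nat.add_mod, add_assoc]
      rw [h1]
      exact Nat.mod_lt _ (Nat.pow_pos hp)
    | succ m ih =>
      intro hm
      obtain ⟨u', hu', v', hv', h1, h2⟩ := ih (by omega)
      have hlast : (u' + (v' + X)) % p ^ (i + m + 1) < p ^ i := by
        rw [← add_assoc]
        exact h2
      have hlast' : (v' + (u' + X)) % p ^ (i + m + 1) < p ^ i := by
        rw [show v' + (u' + X) = u' + v' + X by ring]
        exact h2
      rcases hB (i + m + 1) (by omega) (by omega) with hfb | hfb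
      · obtain ⟨x, hx, hxx⟩ := adjust (Nat.pow_pos hp : 0 < p ^ (i + m + 1)) hp u' (v' + X)
        obtain ⟨u'', hu'', hu2⟩ := hfb u' hu' x hx
        refine ⟨u'', hu'', v', hv', h1, ?_⟩
        have h3 : (u'' + v' + X) % p ^ (i + (m + 1) + 1) = (u' + (v' + X)) % p ^ (i + m + 1) := by
          rw [← hxx, ← hu2, show i + (m + 1) + 1 = i + m + 1 + 1 by ring,
            ← pow_succ, Nat.add_mod (u'' % p ^ (i + m + 1 + 1)), Nat.mod_mod,
            ← Nat.add_mod, add_assoc]
        rw [h3]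
        exact hlast
      · obtain ⟨x, hx, hxx⟩ := adjust (Nat.pow_pos hp : 0 < p ^ (i + m + 1)) hp v' (u' + X)
        obtain ⟨v'', hv'', hv2⟩ := hfb v' hv' x hx
        refine ⟨u', hu', v'', hv'', ?_, ?_⟩
        · rw [← h1]
          have h3 : v'' % p ^ (i + m + 1 + 1) % p ^ (i + 1) =
              (v' % p ^ (i + m + 1) + x * p ^ (i + m + 1)) % p ^ (i + 1) := by rw [hv2]
          obtain ⟨c, hc⟩ : p ^ (i + 1) ∣ p ^ (i + m + 1) := pow_dvd_pow p (by omega)
          rw [Nat.mod_mod_of_dvd v'' (pow_dvd_pow p (by omega : i + 1 ≤ i + m + 1 + 1))] at h3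
          rw [h3, Nat.add_mod, Nat.mod_mod_of_dvd v' ⟨c, hc⟩]
          have h4 : x * p ^ (i + m + 1) % p ^ (i + 1) = 0 := by
            rw [hc, show x * (p ^ (i + 1) * c) = p ^ (i + 1) * (x * c) by ring]
            exact Nat.mul_mod_right _ _
          rw [h4, add_zero, Nat.mod_mod]
        · have h3 : (u' + v'' + X) % p ^ (i + (m + 1) + 1) =
              (v' + (u' + X)) % p ^ (i + m + 1) := by
            rw [← hxx, ← hv2, show i + (m + 1) + 1 = i + m + 1 + 1 by ring,
              ← pow_succ, Nat.add_mod (v'' % p ^ (i + m + 1 + 1)), Nat.mod_mod,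
              ← Nat.add_mod, show u' + v'' + X = v'' + (u' + X) by ring]
          rw [h3]
          exact hlast'
  obtain ⟨u', hu', v', hv', h1, h2⟩ := key h le_rfl
  rw [← h1]
  exact (hrun u' hu' v' hv' i hiW h2).2

/-- the places which are not close to the ends of the window -/
def core (h W : ℕ) : Finset ℕ := Finset.Ico h (W - h)

lemma mem_core {h W i : ℕ} : i ∈ core h W ↔ h ≤ i ∧ i + h + 1 ≤ W := by
  unfold core
  rw [Finset.mem_Ico]
  omega

lemma card_core (h W : ℕ) : (core h W).card = W - h - h := by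
  unfold core
  rw [Nat.card_Ico]

/-- zero digits outside of `t` in the core -/
def UU (p h W : ℕ) (t : Finset ℕ) : Finset ℕ :=
  (Finset.range (p ^ W)).filter fun u => ∀ i ∈ core h W, i ∉ t → u % p ^ (i + 1) < p ^ i

lemma mem_UU {p h W : ℕ} {t : Finset ℕ} {u : ℕ} : u ∈ UU p h W t ↔
    u < p ^ W ∧ ∀ i ∈ core h W, i ∉ t → u % p ^ (i + 1) < p ^ i := by
  unfold UU
  rw [Finset.mem_filter, Finset.mem_range]

lemma UU_sub (p h W : ℕ) (t : Finset ℕ) : UU p h W t ⊆ Finset.range (p ^ W) :=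
  Finset.filter_subset _ _

/-- the places with digits which are not always zero -/
def tp (p h W : ℕ) (U : Finset ℕ) : Finset ℕ :=
  (core h W).filter fun i => ∃ u ∈ U, p ^ i ≤ u % p ^ (i + 1)

lemma tp_sub (p h W : ℕ) (U : Finset ℕ) : tp p h W U ⊆ core h W := Finset.filter_subset _ _

lemma sub_UU {p h W : ℕ} {U : Finset ℕ} (hU : U ⊆ Finset.range (p ^ W)) :
    U ⊆ UU p h W (tp p h W U) := by
  intro u hu
  rw [mem_UU]
  refine ⟨Finset.mem_range.1 (hU hu), fun i hi hit => ?_⟩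
  by_contra hcon
  rw [not_lt] at hcon
  apply hit
  unfold tp
  rw [Finset.mem_filter]
  exact ⟨hi, u, hu, hcon⟩

/-- The two types are complementary. -/
theorem tp_compl {p h W : ℕ} (hp : 2 ≤ p) {U V : Finset ℕ} (hU : U.Nonempty) (hV : V.Nonempty)
    (X : ℕ)
    (hrun : ∀ u ∈ U, ∀ v ∈ V, ∀ i, i + h + 1 ≤ W → (u + v + X) % p ^ (i + h + 1) < p ^ i →
      u % p ^ (i + 1) < p ^ i ∧ v % p ^ (i + 1) < p ^ i)
    (hB : ∀ i, h ≤ i → i < W → FB p U i ∨ FB p V i) :
    tp p h W V = core h W \ tp p h W U := by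
  have hp0 : 0 < p := by omega
  have hrun' : ∀ v ∈ V, ∀ u ∈ U, ∀ i, i + h + 1 ≤ W → (v + u + X) % p ^ (i + h + 1) < p ^ i →
      v % p ^ (i + 1) < p ^ i ∧ u % p ^ (i + 1) < p ^ i := by
    intro v hv u hu i hi hlt
    rw [add_comm v u] at hlt
    exact (hrun u hu v hv i hi hlt).symm
  have hB' : ∀ i, h ≤ i → i < W → FB p V i ∨ FB p U i := fun i h1 h2 => (hB i h1 h2).symm
  have hfb : ∀ (U : Finset ℕ) i, i ∈ core h W → U.Nonempty → FB p U i → i ∈ tp p h W U := by
    rintro U i hi ⟨u, hu⟩ hfb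
    obtain ⟨u', hu', h1⟩ := hfb u hu 1 (by omega)
    unfold tp
    rw [Finset.mem_filter]
    refine ⟨hi, u', hu', ?_⟩
    rw [h1, one_mul]
    exact Nat.le_add_left _ _
  ext i
  rw [Finset.mem_sdiff]
  constructor
  · intro hi
    have hic := tp_sub p h W V hi
    refine ⟨hic, fun hiU => ?_⟩
    rw [mem_core] at hic
    unfold tp at hi hiU
    rw [Finset.mem_filter] at hi hiU
    obtain ⟨_, v, hv, hv2⟩ := hi
    obtain ⟨_, u, hu, hu2⟩ := hiU
    rcases hB i hic.1 (by omega) with h1 | h1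
    · have := kill hp0 hU X hrun hB hic.1 hic.2 h1 v hv
      omega
    · have := kill hp0 hV X hrun' hB' hic.1 hic.2 h1 u hu
      omega
  · rintro ⟨hic, hiU⟩
    have hic2 := mem_core.1 hic
    rcases hB i hic2.1 (by omega) with h1 | h1
    · exact absurd (hfb U i hic hU h1) hiU
    · exact hfb V i hic hV h1

/-- complementary sets of digits -/
def rel (p h W : ℕ) (X Y : Finset ℕ) : Prop :=
  ∃ t, t ⊆ core h W ∧ X = UU p h W t ∧ Y = UU p h W (core h W \ t)

lemma rel_symm {p h W : ℕ} {X Y : Finset ℕ} (hr : rel p h W X Y) : rel p h W Y X := by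
  obtain ⟨t, ht, hX, hY⟩ := hr
  refine ⟨core h W \ t, Finset.sdiff_subset, hY, ?_⟩
  rw [Finset.sdiff_sdiff_eq_self ht]
  exact hX

lemma pow_mem_UU {p h W : ℕ} (hp : 2 ≤ p) {t : Finset ℕ} {i : ℕ} (hi : i ∈ core h W) :
    p ^ i ∈ UU p h W t ↔ i ∈ t := by
  have hi2 := mem_core.1 hi
  rw [mem_UU]
  have hself : p ^ i % p ^ (i + 1) = p ^ i :=
    Nat.mod_eq_of_lt (Nat.pow_lt_pow_right (by omega) (Nat.lt_succ_self i))
  constructor
  · rintro ⟨_, h2⟩
    by_contra hcon
    have h3 := h2 i hi hcon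
    rw [hself] at h3
    exact lt_irrefl _ h3
  · intro hit
    refine ⟨Nat.pow_lt_pow_right (by omega) (by omega), fun j _ hjt => ?_⟩
    rcases Nat.lt_trichotomy j i with h1 | h1 | h1
    · rw [Nat.mod_eq_zero_of_dvd (pow_dvd_pow p (by omega))]
      exact Nat.pow_pos (by omega)
    · exact absurd (h1 ▸ hit) hjt
    · rw [Nat.mod_eq_of_lt (Nat.pow_lt_pow_right (by omega) (by omega))]
      exact Nat.pow_lt_pow_right (by omega) h1

lemma rel_unique {p h W : ℕ} (hp : 2 ≤ p) {X Y Z : Finset ℕ} (h1 : rel p h W X Y)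
    (h2 : rel p h W X Z) : Y = Z := by
  obtain ⟨t, ht, hX, hY⟩ := h1
  obtain ⟨t', ht', hX', hZ⟩ := h2
  have : t = t' := by
    ext i
    constructor
    · intro hi
      rw [← pow_mem_UU hp (ht hi), ← hX', hX, pow_mem_UU hp (ht hi)]
      exact hi
    · intro hi
      rw [← pow_mem_UU hp (ht' hi), ← hX, hX', pow_mem_UU hp (ht' hi)]
      exact hi
  rw [hY, hZ, this]

lemma digits_sum {p : ℕ} (W u : ℕ) :
    u % p ^ W = ∑ i ∈ Finset.range W, p ^ i * (u / p ^ i % p) := by
  induction W with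
  | zero => rw [pow_zero, Nat.mod_one, Finset.sum_range_zero]
  | succ W ih => rw [Finset.sum_range_succ, ← ih, Nat.mod_pow_succ]

lemma sums_UU {p h W : ℕ} (hp : 2 ≤ p) (t : Finset ℕ) :
    (sums (UU p h W t)).card ≤ (2 * p - 1) ^ (W - (core h W \ t).card) := by
  classical
  set T : Finset (Fin W → ℕ) := Fintype.piFinset fun i : Fin W =>
    if (i : ℕ) ∈ core h W \ t then {0} else Finset.range (2 * p - 1) with hT
  have hp0 : 0 < p := by omega
  have hdig : ∀ u ∈ UU p h W t, ∀ i ∈ core h W \ t, u / p ^ i % p = 0 := by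
    intro u hu i hi
    rw [Finset.mem_sdiff] at hi
    have h1 := (mem_UU.1 hu).2 i hi.1 hi.2
    rw [Nat.mod_pow_succ] at h1
    by_contra hne
    have h2 : p ^ i ≤ p ^ i * (u / p ^ i % p) :=
      Nat.le_mul_of_pos_right _ (Nat.pos_of_ne_zero hne)
    exact absurd h1 (not_lt.2 (h2.trans (Nat.le_add_left _ _)))
  have hsub : sums (UU p h W t) ⊆ T.image fun c => ∑ i : Fin W, p ^ (i : ℕ) * c i := by
    intro s hs
    unfold sums at hs
    rw [Finset.mem_image] at hs
    obtain ⟨⟨a, b⟩, hab, rfl⟩ := hs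
    rw [Finset.mem_product] at hab
    have ha : a ∈ UU p h W t := hab.1
    have hb : b ∈ UU p h W t := hab.2
    rw [Finset.mem_image]
    refine ⟨fun i => a / p ^ (i : ℕ) % p + b / p ^ (i : ℕ) % p, ?_, ?_⟩
    · rw [hT, Fintype.mem_piFinset]
      intro i
      split_ifs with hi
      · rw [Finset.mem_singleton, hdig a ha i hi, hdig b hb i hi]
      · rw [Finset.mem_range]
        have h1 := Nat.mod_lt (a / p ^ (i : ℕ)) hp0
        have h2 := Nat.mod_lt (b / p ^ (i : ℕ)) hp0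
        omega
    · have h1 := digits_sum (p := p) W a
      have h2 := digits_sum (p := p) W b
      rw [Nat.mod_eq_of_lt (mem_UU.1 ha).1, Finset.sum_range] at h1
      rw [Nat.mod_eq_of_lt (mem_UU.1 hb).1, Finset.sum_range] at h2
      change ∑ i : Fin W, p ^ (i : ℕ) * (a / p ^ (i : ℕ) % p + b / p ^ (i : ℕ) % p) = a + b
      rw [Finset.sum_congr rfl fun i _ => mul_add _ _ _, Finset.sum_add_distrib, ← h1, ← h2]
  refine (Finset.card_le_card hsub).trans (Finset.card_image_le.trans (le_of_eq ?_))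
  rw [hT, Fintype.card_piFinset]
  have h1 : ∀ i : Fin W, (if (i : ℕ) ∈ core h W \ t then ({0} : Finset ℕ)
      else Finset.range (2 * p - 1)).card =
      if (i : ℕ) ∈ core h W \ t then 1 else 2 * p - 1 := by
    intro i
    split_ifs
    · exact Finset.card_singleton _
    · exact Finset.card_range _
  rw [Finset.prod_congr rfl fun i _ => h1 i]
  rw [← Finset.prod_range (f := fun i => if i ∈ core h W \ t then 1 else 2 * p - 1)]
  rw [Finset.prod_ite, Finset.prod_const_one, one_mul, Finset.prod_const]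
  congr 1
  have h2 : (Finset.range W).filter (fun i => i ∉ core h W \ t) =
      Finset.range W \ (core h W \ t) := by
    ext i
    simp only [Finset.mem_filter, Finset.mem_sdiff]
  rw [h2, Finset.card_sdiff_of_subset, Finset.card_range]
  intro i hi
  rw [Finset.mem_sdiff] at hi
  have := mem_core.1 hi.1
  rw [Finset.mem_range]
  omega

lemma rel_sums {p h W : ℕ} (hp : 2 ≤ p) (hW : 2 * h ≤ W)
    (hbig : (2 * p - 1) ^ (W + 2 * h) + 1 ≤ (p ^ W) ^ 2) {X Y : Finset ℕ}
    (hr : rel p h W X Y) : (sums X).card * (sums Y).card + 1 ≤ (p ^ W) ^ 2 := by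
  obtain ⟨t, ht, hX, hY⟩ := hr
  have h1 := sums_UU (h := h) (W := W) hp t
  have h2 := sums_UU (h := h) (W := W) hp (core h W \ t)
  rw [Finset.sdiff_sdiff_eq_self ht] at h2
  have h3 := Finset.card_sdiff_add_card_eq_card ht
  rw [card_core] at h3
  rw [hX, hY]
  have h4 : (W - (core h W \ t).card) + (W - t.card) = W + 2 * h := by omega
  have h5 := Nat.mul_le_mul h1 h2
  rw [← pow_add, h4] at h5
  omega

/-- long windows -/
lemma exists_window (p h : ℕ) (hp : 2 ≤ p) : ∃ W, 2 * h + 1 ≤ W ∧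
    (2 * p - 1) ^ (W + 2 * h) + 1 ≤ (p ^ W) ^ 2 := by
  have hp0 : 0 < p := by omega
  set b := 2 * p - 1 with hb
  have hb3 : 3 ≤ b := by omega
  have hpb : b + 1 ≤ p ^ 2 := by
    have : 2 * p ≤ p ^ 2 := by nlinarith
    omega
  refine ⟨b ^ (2 * h + 1), ?_, ?_⟩
  · exact (Nat.lt_pow_self (by omega : 1 < b)).le
  · set W := b ^ (2 * h + 1) with hW
    have h1 : (b + 1) ^ W ≤ (p ^ W) ^ 2 := by
      calc (b + 1) ^ W ≤ (p ^ 2) ^ W := Nat.pow_le_pow_left hpb W
        _ = (p ^ W) ^ 2 := by rw [← pow_mul, ← pow_mul, mul_comm]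
    have hbr : (0 : ℝ) < b := by exact_mod_cast (by omega : 0 < b)
    have h2 : (1 : ℝ) + W * (1 / b) ≤ (1 + 1 / b) ^ W :=
      one_add_mul_le_pow (by have : (0 : ℝ) < 1 / b := by positivity
                             linarith) W
    have h3 : ((b : ℝ) + 1) ^ W = (b : ℝ) ^ W * (1 + 1 / b) ^ W := by
      rw [← mul_pow]
      congr 1
      field_simp
    have h4 : (b : ℝ) ^ (W + 2 * h) + 1 ≤ ((b : ℝ) + 1) ^ W := by
      rw [h3]
      have h5 : (W : ℝ) * (1 / b) = (b : ℝ) ^ (2 * h) := by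
        rw [hW]
        push_cast
        rw [pow_succ]
        field_simp
      rw [h5] at h2
      have h6 : (1 : ℝ) ≤ (b : ℝ) ^ W := one_le_pow₀ (by exact_mod_cast (by omega : 1 ≤ b))
      calc (b : ℝ) ^ (W + 2 * h) + 1 ≤ (b : ℝ) ^ W * (1 + (b : ℝ) ^ (2 * h)) := by
            rw [pow_add]
            linarith
        _ ≤ _ := mul_le_mul_of_nonneg_left h2 (by positivity)
    have h5 : b ^ (W + 2 * h) + 1 ≤ (b + 1) ^ W := by exact_mod_cast h4
    exact h5.trans h1

end Pool.Agent.Helper72.PL
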