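import Pool.Agent.Helper72.PW.Levels
import Pool.Agent.Helper72.PL.Gap2

/-! Increments of the mutual information of two functions. -/

namespace Pool.Agent.Helper72.PL

open Finset Pool.Agent.Helper72.PW

variable {m : ℕ → ℕ} {g : ℕ} {F G : ℕ → ℕ}

/-- `F` acts on the residues modulo `m l` -/
def Act (m F : ℕ → ℕ) : Prop := ∀ l z, F z % m l = F (z % m l) % m l

/-- how often a residue is taken -/
def c1 (m F : ℕ → ℕ) (l a : ℕ) : ℕ := ∑ z ∈ Finset.range (m l), if F z % m l = a then 1 else 0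

/-- how often a pair of residues is taken -/
def c2 (m F G : ℕ → ℕ) (l a b : ℕ) : ℕ :=
  ∑ z ∈ Finset.range (m l), if F z % m l = a ∧ G z % m l = b then 1 else 0

/-- how often a residue is continued by a digit -/
def n1 (m F : ℕ → ℕ) (l a u : ℕ) : ℕ :=
  ∑ z ∈ Finset.range (m (l + 1)), if F z % m l = a ∧ dg m l (F z) = u then 1 else 0

/-- how often a pair of residues is continued by a pair of digits -/
def n2 (m F G : ℕ → ℕ) (l a b u v : ℕ) : ℕ :=
  ∑ z ∈ Finset.range (m (l + 1)), if (F z % m l = a ∧ G z % m l = b) ∧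
    (dg m l (F z) = u ∧ dg m l (G z) = v) then 1 else 0

lemma mod_lift (_ : Rad m fun _ => g) (hF : Act m F) (l : ℕ) {k : ℕ} (hk : k < m l) (d : ℕ) :
    F (k + d * m l) % m l = F k % m l := by
  rw [hF l (k + d * m l), Nat.add_mul_mod_self_right, Nat.mod_eq_of_lt hk]

lemma n1_sum (h : Rad m fun _ => g) (hF : Act m F) (l a : ℕ) :
    ∑ u ∈ Finset.range g, n1 m F l a u = g * c1 m F l a := by
  unfold n1 c1
  rw [Finset.sum_comm, Finset.mul_sum]
  have h1 : ∀ z ∈ Finset.range (m (l + 1)),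
      (∑ u ∈ Finset.range g, if F z % m l = a ∧ dg m l (F z) = u then 1 else 0) =
      if F z % m l = a then 1 else 0 := by
    intro z _
    by_cases e : F z % m l = a
    · rw [if_pos e, Finset.sum_eq_single (dg m l (F z))]
      · rw [if_pos ⟨e, rfl⟩]
      · intro u _ hu
        rw [if_neg fun hh => hu hh.2.symm]
      · intro hu
        exact absurd (Finset.mem_range.2 (dg_lt h l (F z))) hu
    · rw [if_neg e]
      exact Finset.sum_eq_zero fun u _ => if_neg fun hh => e hh.1
  rw [Finset.sum_congr rfl h1, h.succ, sum_split]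
  refine Finset.sum_congr rfl fun k hk => ?_
  rw [Finset.mem_range] at hk
  rw [Finset.sum_congr rfl (g := fun _ => if F k % m l = a then 1 else 0) fun d _ => by
    rw [mod_lift h hF l hk d]]
  rw [Finset.sum_const, Finset.card_range, smul_eq_mul]

lemma n2_sum (h : Rad m fun _ => g) (hF : Act m F) (hG : Act m G) (l a b : ℕ) :
    ∑ u ∈ Finset.range g, ∑ v ∈ Finset.range g, n2 m F G l a b u v = g * c2 m F G l a b := by
  unfold n2 c2
  rw [Finset.sum_congr rfl fun u _ => Finset.sum_comm]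
  rw [Finset.sum_comm, Finset.mul_sum]
  have h1 : ∀ z ∈ Finset.range (m (l + 1)),
      (∑ u ∈ Finset.range g, ∑ v ∈ Finset.range g, if (F z % m l = a ∧ G z % m l = b) ∧
        (dg m l (F z) = u ∧ dg m l (G z) = v) then 1 else 0) =
      if F z % m l = a ∧ G z % m l = b then 1 else 0 := by
    intro z _
    by_cases e : F z % m l = a ∧ G z % m l = b
    · rw [if_pos e, Finset.sum_eq_single (dg m l (F z))]
      · rw [Finset.sum_eq_single (dg m l (G z))]
        · rw [if_pos ⟨e, rfl, rfl⟩]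
        · intro v _ hv
          rw [if_neg fun hh => hv hh.2.2.symm]
        · intro hv
          exact absurd (Finset.mem_range.2 (dg_lt h l (G z))) hv
      · intro u _ hu
        exact Finset.sum_eq_zero fun v _ => if_neg fun hh => hu hh.2.1.symm
      · intro hu
        exact absurd (Finset.mem_range.2 (dg_lt h l (F z))) hu
    · rw [if_neg e]
      exact Finset.sum_eq_zero fun u _ => Finset.sum_eq_zero fun v _ => if_neg fun hh => e hh.1
  rw [Finset.sum_congr rfl h1, h.succ, sum_split]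
  refine Finset.sum_congr rfl fun k hk => ?_
  rw [Finset.mem_range] at hk
  rw [Finset.sum_congr rfl (g := fun _ => if F k % m l = a ∧ G k % m l = b then 1 else 0)
    fun d _ => by rw [mod_lift h hF l hk d, mod_lift h hG l hk d]]
  rw [Finset.sum_const, Finset.card_range, smul_eq_mul]

lemma mod_eq_iff (h : Rad m fun _ => g) (l x y : ℕ) :
    x % m (l + 1) = y % m (l + 1) ↔ x % m l = y % m l ∧ dg m l x = dg m l y := by
  constructor
  · intro e
    constructor
    · rw [← Nat.mod_mod_of_dvd x (h.dvd l), e, Nat.mod_mod_of_dvd y (h.dvd l)]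
    · unfold dg
      rw [e]
  · rintro ⟨e1, e2⟩
    rw [mod_succ h l x, mod_succ h l y, e1, e2]

lemma ite_one {p q : Prop} [Decidable p] [Decidable q] (h : p ↔ q) :
    (if p then 1 else 0 : ℕ) = if q then 1 else 0 := by
  by_cases hp : p
  · rw [if_pos hp, if_pos (h.1 hp)]
  · rw [if_neg hp, if_neg fun hq => hp (h.2 hq)]

lemma c1_succ (h : Rad m fun _ => g) (l z : ℕ) :
    c1 m F (l + 1) (F z % m (l + 1)) = n1 m F l (F z % m l) (dg m l (F z)) := by
  unfold c1 n1
  refine Finset.sum_congr rfl fun y _ => ?_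
  exact ite_one (mod_eq_iff h l _ _)

lemma c2_succ (h : Rad m fun _ => g) (l z : ℕ) :
    c2 m F G (l + 1) (F z % m (l + 1)) (G z % m (l + 1)) =
      n2 m F G l (F z % m l) (G z % m l) (dg m l (F z)) (dg m l (G z)) := by
  unfold c2 n2
  refine Finset.sum_congr rfl fun y _ => ite_one ?_
  rw [mod_eq_iff h, mod_eq_iff h]
  exact ⟨fun hh => ⟨⟨hh.1.1, hh.2.1⟩, hh.1.2, hh.2.2⟩,
    fun hh => ⟨⟨hh.1.1, hh.2.1⟩, hh.1.2, hh.2.2⟩⟩

lemma c1_pos (F : ℕ → ℕ) {l z : ℕ} (hz : z < m l) : 0 < c1 m F l (F z % m l) := by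
  unfold c1
  refine Finset.sum_pos' (fun _ _ => Nat.zero_le _) ⟨z, Finset.mem_range.2 hz, ?_⟩
  rw [if_pos rfl]
  norm_num

lemma c2_pos (F G : ℕ → ℕ) {l z : ℕ} (hz : z < m l) :
    0 < c2 m F G l (F z % m l) (G z % m l) := by
  unfold c2
  refine Finset.sum_pos' (fun _ _ => Nat.zero_le _) ⟨z, Finset.mem_range.2 hz, ?_⟩
  rw [if_pos ⟨rfl, rfl⟩]
  norm_num

/-- conditional distribution of the next digit -/
noncomputable def nu (m : ℕ → ℕ) (g : ℕ) (F : ℕ → ℕ) (l a u : ℕ) : ℝ :=
  (n1 m F l a u : ℝ) / (g * c1 m F l a)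

lemma nu_nonneg (m : ℕ → ℕ) (g : ℕ) (F : ℕ → ℕ) (l a u : ℕ) : 0 ≤ nu m g F l a u := by
  unfold nu
  positivity

lemma nu_sum (h : Rad m fun _ => g) (hF : Act m F) {l a : ℕ} (ha : 0 < c1 m F l a) :
    ∑ u ∈ Finset.range g, nu m g F l a u = 1 := by
  have h1 := n1_sum h hF l a
  have h3 : (0 : ℝ) < g := by
    have := h.two l
    exact_mod_cast (by omega : 0 < g)
  have h4 : (0 : ℝ) < c1 m F l a := by exact_mod_cast ha
  unfold nu
  rw [← Finset.sum_div, ← Nat.cast_sum, h1, Nat.cast_mul]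
  exact div_self (mul_pos h3 h4).ne'

lemma n2_le_n1 (m F G : ℕ → ℕ) (l a b u v : ℕ) : n2 m F G l a b u v ≤ n1 m F l a u := by
  unfold n2 n1
  refine Finset.sum_le_sum fun z _ => ?_
  split_ifs with h1 h2 h2
  · exact le_rfl
  · exact absurd ⟨h1.1.1, h1.2.1⟩ h2
  · exact Nat.zero_le _
  · exact le_rfl

lemma n2_le_n1' (m F G : ℕ → ℕ) (l a b u v : ℕ) : n2 m F G l a b u v ≤ n1 m G l b v := by
  unfold n2 n1
  refine Finset.sum_le_sum fun z _ => ?_
  split_ifs with h1 h2 h2
  · exact le_rfl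
  · exact absurd ⟨h1.1.2, h1.2.2⟩ h2
  · exact Nat.zero_le _
  · exact le_rfl

lemma c2_le_c1 (m F G : ℕ → ℕ) (l a b : ℕ) : c2 m F G l a b ≤ c1 m F l a := by
  unfold c2 c1
  refine Finset.sum_le_sum fun z _ => ?_
  split_ifs with h1 h2 h2
  · exact le_rfl
  · exact absurd h1.1 h2
  · exact Nat.zero_le _
  · exact le_rfl

lemma c2_le_c1' (m F G : ℕ → ℕ) (l a b : ℕ) : c2 m F G l a b ≤ c1 m G l b := by
  unfold c2 c1
  refine Finset.sum_le_sum fun z _ => ?_
  split_ifs with h1 h2 h2
  · exact le_rfl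
  · exact absurd h1.2 h2
  · exact Nat.zero_le _
  · exact le_rfl

/-- pointwise mutual information -/
noncomputable def phi2 (m F G : ℕ → ℕ) (l z : ℕ) : ℝ :=
  Real.log (m l) + Real.log (c2 m F G l (F z % m l) (G z % m l)) -
    Real.log (c1 m F l (F z % m l)) - Real.log (c1 m G l (G z % m l))

/-- the increment -/
noncomputable def inc (m : ℕ → ℕ) (g : ℕ) (F G : ℕ → ℕ) (l a b u v : ℕ) : ℝ :=
  Real.log ((n2 m F G l a b u v : ℝ) / ((g * c2 m F G l a b : ℕ) : ℝ) /
    (nu m g F l a u * nu m g G l b v))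

lemma phi2_step (h : Rad m fun _ => g) (hF : Act m F) (hG : Act m G) (l : ℕ) {z : ℕ}
    (hz : z < m (l + 1)) :
    phi2 m F G (l + 1) z = phi2 m F G l (z % m l) +
      inc m g F G l (F z % m l) (G z % m l) (dg m l (F z)) (dg m l (G z)) := by
  have hg : (0 : ℝ) < g := by
    have := h.two l
    exact_mod_cast (by omega : 0 < g)
  have hm : (0 : ℝ) < m l := by exact_mod_cast h.pos l
  have hk : z % m l < m l := Nat.mod_lt _ (h.pos l)
  have q2 := c2_pos F G hz
  have q1 := c1_pos F hz
  have q1' := c1_pos G hz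
  rw [c2_succ h] at q2
  rw [c1_succ h] at q1 q1'
  have r2 := c2_pos F G hk
  have r1 := c1_pos F hk
  have r1' := c1_pos G hk
  rw [← hF l z, ← hG l z] at r2
  rw [← hF l z] at r1
  rw [← hG l z] at r1'
  unfold phi2 inc nu
  rw [c2_succ h, c1_succ h, c1_succ h, ← hF l z, ← hG l z, h.succ]
  set A2 := n2 m F G l (F z % m l) (G z % m l) (dg m l (F z)) (dg m l (G z))
  set A1 := n1 m F l (F z % m l) (dg m l (F z))
  set A1' := n1 m G l (G z % m l) (dg m l (G z))
  set B2 := c2 m F G l (F z % m l) (G z % m l)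
  set B1 := c1 m F l (F z % m l)
  set B1' := c1 m G l (G z % m l)
  have a2 : (0 : ℝ) < A2 := by exact_mod_cast q2
  have a1 : (0 : ℝ) < A1 := by exact_mod_cast q1
  have a1' : (0 : ℝ) < A1' := by exact_mod_cast q1'
  have b2 : (0 : ℝ) < B2 := by exact_mod_cast r2
  have b1 : (0 : ℝ) < B1 := by exact_mod_cast r1
  have b1' : (0 : ℝ) < B1' := by exact_mod_cast r1'
  rw [Nat.cast_mul, Nat.cast_mul, Real.log_mul hg.ne' hm.ne', Real.log_div (by positivity)
    (by positivity), Real.log_div a2.ne' (by positivity), Real.log_mul hg.ne' b2.ne',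
    Real.log_mul (by positivity) (by positivity), Real.log_div a1.ne' (by positivity),
    Real.log_div a1'.ne' (by positivity), Real.log_mul hg.ne' b1.ne',
    Real.log_mul hg.ne' b1'.ne']
  ring

/-- the sum of the increments over a node -/
lemma sum_nodes (h : Rad m fun _ => g) (l : ℕ) (H : ℕ → ℕ → ℕ → ℕ → ℝ) :
    ∑ z ∈ Finset.range (m (l + 1)), H (F z % m l) (G z % m l) (dg m l (F z)) (dg m l (G z)) =
      ∑ a ∈ Finset.range (m l), ∑ b ∈ Finset.range (m l), ∑ u ∈ Finset.range g,
        ∑ v ∈ Finset.range g, (n2 m F G l a b u v : ℝ) * H a b u v := by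
  classical
  set S : Finset (ℕ × ℕ × ℕ × ℕ) := Finset.range (m l) ×ˢ Finset.range (m l) ×ˢ
    Finset.range g ×ˢ Finset.range g with hS
  have h1 : ∑ z ∈ Finset.range (m (l + 1)),
      H (F z % m l) (G z % m l) (dg m l (F z)) (dg m l (G z)) =
      ∑ q ∈ S, (((Finset.range (m (l + 1))).filter fun z =>
        (F z % m l, G z % m l, dg m l (F z), dg m l (G z)) = q).card : ℝ) *
        H q.1 q.2.1 q.2.2.1 q.2.2.2 := by
    rw [← Finset.sum_fiberwise_of_maps_to (t := S)
      (g := fun z => (F z % m l, G z % m l, dg m l (F z), dg m l (G z)))]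
    · refine Finset.sum_congr rfl fun q _ => ?_
      rw [Finset.sum_congr rfl (g := fun _ => H q.1 q.2.1 q.2.2.1 q.2.2.2) fun z hz => by
        rw [← (Finset.mem_filter.1 hz).2]]
      rw [Finset.sum_const, nsmul_eq_mul]
    · intro z _
      simp only [hS, Finset.mem_product, Finset.mem_range]
      exact ⟨Nat.mod_lt _ (h.pos l), Nat.mod_lt _ (h.pos l), dg_lt h l _, dg_lt h l _⟩
  rw [h1, hS, Finset.sum_product]
  refine Finset.sum_congr rfl fun a _ => ?_
  rw [Finset.sum_product]
  refine Finset.sum_congr rfl fun b _ => ?_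
  rw [Finset.sum_product]
  refine Finset.sum_congr rfl fun u _ => ?_
  refine Finset.sum_congr rfl fun v _ => ?_
  congr 2
  unfold n2
  rw [Finset.card_filter]
  refine Finset.sum_congr rfl fun z _ => ?_
  simp only [Prod.mk.injEq]
  exact ite_one ⟨fun hh => ⟨⟨hh.1, hh.2.1⟩, hh.2.2⟩, fun hh => ⟨hh.1.1, hh.1.2, hh.2⟩⟩

/-- the next digits are exactly independent -/
def Good2 (B : ℕ) (m : ℕ → ℕ) (g : ℕ) (F G : ℕ → ℕ) (l a b : ℕ) : Prop :=
  (∀ u < g, ∀ v < g, ∀ u' < g, ∀ v' < g, n2 m F G l a b u v * n2 m F G l a b u' v' =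
    n2 m F G l a b u v' * n2 m F G l a b u' v) ∧
  ∀ u < g, ∀ v < g, 0 < n2 m F G l a b u v ↔
    u ∈ bigB B g (nu m g F l a) ∧ v ∈ bigB B g (nu m g G l b)

open Classical in
/-- the indicator of the nodes which are not good -/
noncomputable def bad2 (B : ℕ) (m : ℕ → ℕ) (g : ℕ) (F G : ℕ → ℕ) (l a b : ℕ) : ℝ :=
  if Good2 B m g F G l a b then 0 else 1

lemma bad2_nonneg (B : ℕ) (m : ℕ → ℕ) (g : ℕ) (F G : ℕ → ℕ) (l a b : ℕ) :
    0 ≤ bad2 B m g F G l a b := by
  unfold bad2
  split_ifs
  · exact le_rfl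
  · exact zero_le_one

lemma node_gap (h : Rad m fun _ => g) (hF : Act m F) (hG : Act m G) {B : ℕ}
    (hB : ∀ l a b, g * c2 m F G l a b ≤ B) (l a b : ℕ) :
    1 / (100 * (B : ℝ) ^ 4) * ∑ u ∈ Finset.range g, ∑ v ∈ Finset.range g,
      (n2 m F G l a b u v : ℝ) * bad2 B m g F G l a b ≤
    ∑ u ∈ Finset.range g, ∑ v ∈ Finset.range g,
      (n2 m F G l a b u v : ℝ) * inc m g F G l a b u v := by
  have hg : 0 < g := by have := h.two l; omega
  have hsum := n2_sum h hF hG l a b
  rcases Nat.eq_zero_or_pos (c2 m F G l a b) with h0 | h0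
  · rw [h0, mul_zero] at hsum
    have hz : ∀ u ∈ Finset.range g, ∀ v ∈ Finset.range g, n2 m F G l a b u v = 0 := by
      intro u hu v hv
      exact (Finset.sum_eq_zero_iff.1 (Finset.sum_eq_zero_iff.1 hsum u hu)) v hv
    rw [Finset.sum_eq_zero fun u hu => Finset.sum_eq_zero fun v hv => by
      rw [hz u hu v hv, Nat.cast_zero, zero_mul]]
    rw [Finset.sum_eq_zero fun u hu => Finset.sum_eq_zero fun v hv => by
      rw [hz u hu v hv, Nat.cast_zero, zero_mul]]
    rw [mul_zero]
  · have hT : 0 < g * c2 m F G l a b := Nat.mul_pos hg h0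
    have hc1 : 0 < c1 m F l a := h0.trans_le (c2_le_c1 m F G l a b)
    have hc1' : 0 < c1 m G l b := h0.trans_le (c2_le_c1' m F G l a b)
    have hgr : (0 : ℝ) < g := by exact_mod_cast hg
    have hG2 := gap2 (n2 m F G l a b) hT (hB l a b) hsum (nu m g F l a) (nu m g G l b)
      (nu_nonneg m g F l a) (nu_nonneg m g G l b) (nu_sum h hF hc1) (nu_sum h hG hc1')
      (fun u _ v _ hN => by
        have e1 : 0 < n1 m F l a u := hN.trans_le (n2_le_n1 m F G l a b u v)
        have e2 : 0 < n1 m G l b v := hN.trans_le (n2_le_n1' m F G l a b u v)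
        have e3 : (0 : ℝ) < n1 m F l a u := by exact_mod_cast e1
        have e4 : (0 : ℝ) < n1 m G l b v := by exact_mod_cast e2
        have e5 : (0 : ℝ) < c1 m F l a := by exact_mod_cast hc1
        have e6 : (0 : ℝ) < c1 m G l b := by exact_mod_cast hc1'
        unfold nu
        exact ⟨by positivity, by positivity⟩)
    by_cases hgood : Good2 B m g F G l a b
    · have e0 : bad2 B m g F G l a b = 0 := by unfold bad2; rw [if_pos hgood]
      rw [e0]
      simp only [mul_zero, Finset.sum_const_zero]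
      exact hG2.1
    · have e0 : bad2 B m g F G l a b = 1 := by unfold bad2; rw [if_neg hgood]
      rw [e0]
      simp only [mul_one]
      have e1 : ∑ u ∈ Finset.range g, ∑ v ∈ Finset.range g, (n2 m F G l a b u v : ℝ) =
          ((g * c2 m F G l a b : ℕ) : ℝ) := by
        rw [← hsum]
        push_cast
        rfl
      rw [e1, mul_comm]
      by_contra hcon
      rw [not_le] at hcon
      exact hgood (hG2.2 hcon)

/-- the number of bad places -/
noncomputable def NN2 (B : ℕ) (m : ℕ → ℕ) (g : ℕ) (F G : ℕ → ℕ) (L z : ℕ) : ℝ :=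
  ∑ l ∈ Finset.range L, bad2 B m g F G l (F z % m l) (G z % m l)

/-- Many bad places make the mutual information large. -/
theorem energy2 (h : Rad m fun _ => g) (hF : Act m F) (hG : Act m G) {B : ℕ}
    (hB : ∀ l a b, g * c2 m F G l a b ≤ B) (L : ℕ) :
    1 / (100 * (B : ℝ) ^ 4) * ∑ z ∈ Finset.range (m L), NN2 B m g F G L z ≤
      ∑ z ∈ Finset.range (m L), phi2 m F G L z := by
  induction L with
  | zero =>
    rw [h.one, Finset.sum_range_one, Finset.sum_range_one]
    have e1 : NN2 B m g F G 0 0 = 0 := by unfold NN2; rw [Finset.sum_range_zero]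
    have e2 : phi2 m F G 0 0 = 0 := by
      unfold phi2 c1 c2
      rw [h.one]
      simp [Nat.mod_one]
    rw [e1, e2, mul_zero]
  | succ L ih =>
    have hlift : ∀ k < m L, ∀ d, NN2 B m g F G L (k + d * m L) = NN2 B m g F G L k := by
      intro k hk d
      unfold NN2
      refine Finset.sum_congr rfl fun l hl => ?_
      rw [Finset.mem_range] at hl
      obtain ⟨c, hc⟩ := h.dvd_le hl.le
      have e1 : (k + d * m L) % m l = k % m l := by
        rw [hc, show k + d * (m l * c) = k + d * c * m l by ring, Nat.add_mul_mod_self_right]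
      rw [hF l (k + d * m L), hG l (k + d * m L), e1, ← hF l k, ← hG l k]
    have hL : ∑ z ∈ Finset.range (m (L + 1)), NN2 B m g F G (L + 1) z =
        g * (∑ z ∈ Finset.range (m L), NN2 B m g F G L z) +
        ∑ z ∈ Finset.range (m (L + 1)), bad2 B m g F G L (F z % m L) (G z % m L) := by
      have e1 : ∑ z ∈ Finset.range (m (L + 1)), NN2 B m g F G L z =
          g * (∑ z ∈ Finset.range (m L), NN2 B m g F G L z) := by
        rw [h.succ, sum_split, Finset.mul_sum]
        refine Finset.sum_congr rfl fun k hk => ?_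
        rw [Finset.mem_range] at hk
        rw [Finset.sum_congr rfl fun d _ => hlift k hk d, Finset.sum_const, Finset.card_range,
          nsmul_eq_mul]
      rw [← e1, ← Finset.sum_add_distrib]
      refine Finset.sum_congr rfl fun z _ => ?_
      unfold NN2
      rw [Finset.sum_range_succ]
    have hP : ∑ z ∈ Finset.range (m (L + 1)), phi2 m F G (L + 1) z =
        g * (∑ z ∈ Finset.range (m L), phi2 m F G L z) +
        ∑ z ∈ Finset.range (m (L + 1)),
          inc m g F G L (F z % m L) (G z % m L) (dg m L (F z)) (dg m L (G z)) := by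
      have e1 : ∑ z ∈ Finset.range (m (L + 1)), phi2 m F G L (z % m L) =
          g * (∑ z ∈ Finset.range (m L), phi2 m F G L z) := by
        rw [h.succ, sum_split, Finset.mul_sum]
        refine Finset.sum_congr rfl fun k hk => ?_
        rw [Finset.mem_range] at hk
        rw [Finset.sum_congr rfl (g := fun _ => phi2 m F G L k) fun d _ => by
          rw [Nat.add_mul_mod_self_right, Nat.mod_eq_of_lt hk]]
        rw [Finset.sum_const, Finset.card_range, nsmul_eq_mul]
      rw [← e1, ← Finset.sum_add_distrib]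
      exact Finset.sum_congr rfl fun z hz => phi2_step h hF hG L (Finset.mem_range.1 hz)
    have hI : 1 / (100 * (B : ℝ) ^ 4) *
        ∑ z ∈ Finset.range (m (L + 1)), bad2 B m g F G L (F z % m L) (G z % m L) ≤
        ∑ z ∈ Finset.range (m (L + 1)),
          inc m g F G L (F z % m L) (G z % m L) (dg m L (F z)) (dg m L (G z)) := by
      rw [sum_nodes h L (fun a b u v => inc m g F G L a b u v),
        sum_nodes (F := F) (G := G) h L (fun a b _ _ => bad2 B m g F G L a b), Finset.mul_sum]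
      refine Finset.sum_le_sum fun a _ => ?_
      rw [Finset.mul_sum]
      exact Finset.sum_le_sum fun b _ => node_gap h hF hG hB L a b
    rw [hL, hP]
    have hg : (0 : ℝ) ≤ g := Nat.cast_nonneg _
    have h1 := mul_le_mul_of_nonneg_left ih hg
    linarith

end Pool.Agent.Helper72.PL
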