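import Pool.Agent.Helper72.PL.Upper2

/-! Exponential growth along the windows. -/

namespace Pool.Agent.Helper72.PL

open Finset Pool.Agent.Helper72.PW

/-- The number of representations grows exponentially with the number of windows. -/
theorem levels2 {p : ℕ} (hp : p.Prime) (h : ℕ) : ∃ W : ℕ, 1 ≤ W ∧ ∃ c : ℝ, 0 < c ∧
    ∀ (F G : ℕ → ℕ), Sys p h F G → ∀ (L : ℕ) (R : ℝ), 1 ≤ R →
    (∀ s, (((red (mm p W L) F ×ˢ red (mm p W L) F).filter
      fun q => q.1 + q.2 = s).card : ℝ) ≤ R) →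
    (∀ s, (((red (mm p W L) G ×ˢ red (mm p W L) G).filter
      fun q => q.1 + q.2 = s).card : ℝ) ≤ R) →
    c * L ≤ h * Real.log p + Real.log (2 * R) := by
  obtain ⟨W, hW1, hbig⟩ := exists_window p h hp.two_le
  have hW : 1 ≤ W := by omega
  have hhW : h ≤ W := by omega
  have hp2 := hp.two_le
  refine ⟨W, hW, ?_⟩
  set Q := p ^ W with hQdef
  have hQ2 : 2 ≤ Q := (rad_mm hp2 hW).two 0
  have hrel : GoodRel Q (rel p h W) :=
    ⟨fun hr => rel_symm hr, fun h1 h2 => rel_unique hp2 h1 h2,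
      fun hr => rel_sums hp2 (by omega) hbig hr⟩
  have hQr : (2 : ℝ) ≤ Q := by exact_mod_cast hQ2
  have hQ0 : (0 : ℝ) < Q := by linarith
  set w : ℝ := 1 / (32 * (Q : ℝ) ^ 2 * 2 ^ Q) with hwdef
  have hw : 0 < w := by rw [hwdef]; positivity
  have hwQ : w * (32 * (Q : ℝ) ^ 2) * 2 ^ Q ≤ 1 := by
    rw [hwdef]
    refine le_of_eq ?_
    field_simp
  have hw1 : w ≤ 1 := by
    rw [hwdef, div_le_one (by positivity)]
    have e1 : (1 : ℝ) ≤ 2 ^ Q := one_le_pow₀ (by norm_num)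
    have e2 : (1 : ℝ) ≤ (Q : ℝ) ^ 2 := one_le_pow₀ (by linarith)
    nlinarith
  set θ : ℝ := 1 - 1 / (16 * (Q : ℝ) ^ 2) with hθ
  have hθ0 : 0 < θ := by
    have e2 : (1 : ℝ) ≤ (Q : ℝ) ^ 2 := one_le_pow₀ (by linarith)
    have : 1 / (16 * (Q : ℝ) ^ 2) ≤ 1 / 16 := one_div_le_one_div_of_le (by norm_num) (by linarith)
    rw [hθ]
    linarith
  have hθ1 : θ < 1 := by
    have : 0 < 1 / (16 * (Q : ℝ) ^ 2) := by positivity
    rw [hθ]
    linarith
  set B := Q * p ^ h with hB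
  have hB0 : 0 < B := Nat.mul_pos (by omega) (Nat.pow_pos hp.pos)
  have hBr : (0 : ℝ) < B := by exact_mod_cast hB0
  have hl : 0 ≤ -(3 * Real.log w) := by
    have := Real.log_nonpos hw.le hw1
    linarith
  set l := -(3 * Real.log w) with hldef
  set C := l * (100 * (B : ℝ) ^ 4) with hC
  have hC0 : 0 ≤ C := by positivity
  have hlogθ : 0 < -Real.log θ := by
    have := Real.log_neg hθ0 hθ1
    linarith
  refine ⟨-Real.log θ / (1 + C), by positivity, ?_⟩
  intro F G hs L R hR1 hRF hRG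
  have hRad := rad_mm hp2 hW
  have hF := act_mm (W := W) hs
  have hG := act_mm (W := W) hs.symm
  have hR0 : 0 < R := by linarith
  set M := mm p W L with hMdef
  have hM : 0 < M := hRad.pos L
  have hMr : (0 : ℝ) < M := by exact_mod_cast hM
  have hpr : (1 : ℝ) ≤ p := by exact_mod_cast hp.one_lt.le
  have hlt : ∀ F : ℕ → ℕ, ∀ a ∈ red M F, a < M := by
    intro F a ha
    unfold red at ha
    rw [Finset.mem_image] at ha
    obtain ⟨z, _, rfl⟩ := ha
    exact Nat.mod_lt _ hM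
  have hF2 := sq_card_le (red M F) M (hlt F) R hRF
  have hG2 := sq_card_le (red M G) M (hlt G) R hRG
  have hpos : ∀ F : ℕ → ℕ, (0 : ℝ) < (red M F).card := by
    intro F
    have : 0 < (red M F).card := Finset.card_pos.2 ⟨_, mem_red (F := F) hM⟩
    exact_mod_cast this
  have hYF : ((red M F).card : ℝ) ≤ √(2 * M * R) := Real.le_sqrt_of_sq_le hF2
  have hYG : ((red M G).card : ℝ) ≤ √(2 * M * R) := Real.le_sqrt_of_sq_le hG2
  set Λ := h * Real.log p + Real.log (2 * R) with hΛ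
  have hphi : ∑ z ∈ Finset.range M, phi2 (mm p W) F G L z ≤ M * Λ := by
    refine (phi2_sum_le hp2 hhW hW hs L).trans ?_
    refine mul_le_mul_of_nonneg_left ?_ hMr.le
    have e1 : 2 * Real.log ((red M F).card : ℝ) ≤ Real.log (2 * M * R) := by
      have h0 := hpos F
      have := Real.log_le_log (by positivity) hF2
      rw [Real.log_pow] at this
      exact_mod_cast this
    have e2 : 2 * Real.log ((red M G).card : ℝ) ≤ Real.log (2 * M * R) := by
      have h0 := hpos G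
      have := Real.log_le_log (by positivity) hG2
      rw [Real.log_pow] at this
      exact_mod_cast this
    have e3 : Real.log (2 * M * R) = Real.log (2 * R) + Real.log M := by
      rw [show 2 * (M : ℝ) * R = 2 * R * M by ring, Real.log_mul (by positivity) hMr.ne']
    rw [hΛ]
    linarith
  have hcB : ∀ l a b, Q * c2 (mm p W) F G l a b ≤ B := fun l a b =>
    Nat.mul_le_mul_left _ (c2_le hp2 hhW hs l a b)
  have hen := energy2 hRad hF hG hcB L
  have hN : (∑ z ∈ Finset.range M, NN2 B (mm p W) Q F G L z) / M ≤ 100 * (B : ℝ) ^ 4 * Λ := by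
    rw [div_le_iff₀ hMr]
    have h1 := hen.trans hphi
    rw [one_div, inv_mul_le_iff₀ (by positivity)] at h1
    linarith
  have hlow : M * Real.exp (-(C * Λ)) ≤
      ∑ z ∈ Finset.range M, Real.exp (-(l * NN2 B (mm p W) Q F G L z)) := by
    refine le_trans ?_ (exp_sum_ge (fun z => NN2 B (mm p W) Q F G L z) hM l)
    refine mul_le_mul_of_nonneg_left ?_ hMr.le
    rw [Real.exp_le_exp]
    have := mul_le_mul_of_nonneg_left hN hl
    rw [hC]
    linarith
  have hprod : ∏ _j : Fin L, (√(Q : ℝ) * (1 - 1 / (16 * (Q : ℝ) ^ 2))) = √(M : ℝ) * θ ^ L := by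
    have := prod_sqrt hRad θ L
    exact this
  have hup : ∑ z ∈ Finset.range M, Real.exp (-(l * NN2 B (mm p W) Q F G L z)) ≤
      (p : ℝ) ^ h * (√R * (√(M : ℝ) * θ ^ L) * √(2 * M * R)) := by
    calc ∑ z ∈ Finset.range M, Real.exp (-(l * NN2 B (mm p W) Q F G L z))
        ≤ ∑ z ∈ Finset.range M, pw2 w B p h W F G L (F z % M) (G z % M) :=
          Finset.sum_le_sum fun z _ => exp_NN2_le hp hW hs hw hw1 L z
      _ ≤ (p : ℝ) ^ h * ∑ a ∈ red M F, ∑ b ∈ red M G, pw2 w B p h W F G L a b :=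
          pair_sum2_le hp2 hhW hs L (fun a b => pw2 w B p h W F G L a b)
            fun a b => pw2_nonneg hw.le _ _ _ _ _ _ _ _ _
      _ = (p : ℝ) ^ h * ∑ S ∈ seqs (fun _ => Q) L, ∑ T ∈ seqs (fun _ => Q) L,
          (∏ j : Fin L, rh w (rel p h W) (S j) (T j)) *
          (rr2 w B p h W F L S * rr2 w B p h W G L T) := by rw [← group2 w L]
      _ ≤ (p : ℝ) ^ h * (√R * (∏ _j : Fin L, (√(Q : ℝ) * (1 - 1 / (16 * (Q : ℝ) ^ 2)))) *
          √(2 * M * R)) := by
          refine mul_le_mul_of_nonneg_left ?_ (by positivity)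
          exact schur2 Q hrel ⟨hQ2, le_rfl⟩ hw hwQ L (rr2 w B p h W F L) (rr2 w B p h W G L) R
            (√(2 * M * R)) hR0.le (rr2_nonneg hw.le _ _ _ _ _ _) (rr2_nonneg hw.le _ _ _ _ _ _)
            (fun S _ => rr2_sq hp2 hW hw.le hw1 L R hR0.le hRF S)
            (fun S _ => rr2_sq hp2 hW hw.le hw1 L R hR0.le hRG S)
            ((rr2_sum hw.le hw1 B p h W F L).trans hYF) ((rr2_sum hw.le hw1 B p h W G L).trans hYG)
      _ = _ := by rw [hprod]
  have hcomb : √R * (√(M : ℝ) * θ ^ L) * √(2 * M * R) ≤ M * (2 * R * θ ^ L) := by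
    have e1 : √R * √(M : ℝ) * √(2 * M * R) ≤ M * (2 * R) := by
      rw [← Real.sqrt_mul hR0.le, ← Real.sqrt_mul (by positivity)]
      rw [Real.sqrt_le_left (by positivity)]
      have : 0 ≤ (R * M) ^ 2 := sq_nonneg _
      nlinarith
    have e2 : 0 ≤ θ ^ L := by positivity
    have := mul_le_mul_of_nonneg_right e1 e2
    linarith
  have hph : (0 : ℝ) < (p : ℝ) ^ h := by positivity
  have hfin : Real.exp (-(C * Λ)) ≤ (p : ℝ) ^ h * (2 * R) * θ ^ L := by
    have h1 := (hlow.trans hup).trans (mul_le_mul_of_nonneg_left hcomb hph.le)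
    have h2 : (p : ℝ) ^ h * (M * (2 * R * θ ^ L)) = M * ((p : ℝ) ^ h * (2 * R) * θ ^ L) := by ring
    rw [h2] at h1
    exact le_of_mul_le_mul_left h1 hMr
  have hlog := Real.log_le_log (Real.exp_pos _) hfin
  rw [Real.log_exp, Real.log_mul (mul_pos hph (mul_pos two_pos hR0)).ne' (pow_pos hθ0 L).ne',
    Real.log_mul hph.ne' (mul_pos two_pos hR0).ne', Real.log_pow, Real.log_pow] at hlog
  rw [div_mul_eq_mul_div, div_le_iff₀ (by positivity)]
  linarith

end Pool.Agent.Helper72.PL
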