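import Pool.Agent.Helper72.PL.Schur2

/-! The Schur test with fourth powers. -/

namespace Pool.Agent.Helper72.PL

open Finset Pool.Agent.Helper72.PW

/-- the eighth root of `EE` -/
noncomputable def e8 (w : ℝ) (g : ℕ) (X : Finset ℕ) : ℝ := √(ee w g X)

lemma e8_nonneg (w : ℝ) (g : ℕ) (X : Finset ℕ) : 0 ≤ e8 w g X := Real.sqrt_nonneg _

lemma e8_mul (w : ℝ) (g : ℕ) (X Y : Finset ℕ) :
    e8 w g X * e8 w g Y = √(ee w g X * ee w g Y) := by
  unfold e8
  rw [Real.sqrt_mul (ee_nonneg _ _ _)]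

/-- the fourth root -/
noncomputable def r4 (x : ℝ) : ℝ := √(√x)

lemma r4_nonneg (x : ℝ) : 0 ≤ r4 x := Real.sqrt_nonneg _

/-- the local test -/
lemma local4 {Q g : ℕ} {rl : Finset ℕ → Finset ℕ → Prop} (hr : GoodRel g rl) (hg : 2 ≤ g)
    (hgQ : g ≤ Q) {w : ℝ} (hw : 0 < w) (hw1 : w * (32 * (Q : ℝ) ^ 2) * 2 ^ Q ≤ 1)
    {X : Finset ℕ} (hX : X ⊆ Finset.range g) :
    ∑ Y ∈ (Finset.range g).powerset, rh w rl X Y * (e8 w g X * e8 w g Y) ≤
      r4 (g : ℝ) * (1 - 1 / (128 * (Q : ℝ) ^ 2)) := by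
  classical
  have hgr : (2 : ℝ) ≤ g := by exact_mod_cast hg
  have hQr : (g : ℝ) ≤ Q := by exact_mod_cast hgQ
  have hQ0 : (0 : ℝ) < Q := by linarith
  have h2Q : (1 : ℝ) ≤ 2 ^ Q := one_le_pow₀ (by norm_num)
  have hwQ : w * (32 * (Q : ℝ) ^ 2) ≤ 1 := by
    calc w * (32 * (Q : ℝ) ^ 2) ≤ w * (32 * (Q : ℝ) ^ 2) * 2 ^ Q :=
          le_mul_of_one_le_right (by positivity) h2Q
      _ ≤ 1 := hw1
  have hw2 : w ≤ 1 / 2 := by
    have : (4 : ℝ) ≤ (Q : ℝ) ^ 2 := by nlinarith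
    nlinarith
  have hr40 := r4_nonneg (g : ℝ)
  set x : ℝ := 1 / (8 * (Q : ℝ) ^ 2) with hx
  have hx0 : 0 < x := by positivity
  have hx1 : x ≤ 1 := by
    rw [hx, div_le_one (by positivity)]
    nlinarith
  have hone : √(1 - x) ≤ 1 - x / 2 := by
    rw [Real.sqrt_le_left (by linarith)]
    nlinarith [sq_nonneg x]
  have hsev : √(7 / 4 : ℝ) ≤ 7 / 4 := by
    rw [Real.sqrt_le_left (by norm_num)]
    norm_num
  rw [← Finset.sum_filter_add_sum_filter_not _ (fun Y => rl X Y)]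
  have hA : ∑ Y ∈ (Finset.range g).powerset.filter (fun Y => rl X Y),
      rh w rl X Y * (e8 w g X * e8 w g Y) ≤ r4 (g : ℝ) * (1 - x / 2) := by
    have h0 : 0 ≤ r4 (g : ℝ) * (1 - x / 2) := mul_nonneg hr40 (by linarith)
    rcases ((Finset.range g).powerset.filter (fun Y => rl X Y)).eq_empty_or_nonempty with
      he | ⟨Z, hZ⟩
    · rw [he, Finset.sum_empty]
      exact h0
    · rw [Finset.mem_filter, Finset.mem_powerset] at hZ
      have h1 : (Finset.range g).powerset.filter (fun Y => rl X Y) = {Z} := by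
        ext Y
        rw [Finset.mem_filter, Finset.mem_powerset, Finset.mem_singleton]
        constructor
        · rintro ⟨-, hY⟩
          exact hr.uniq hY hZ.2
        · rintro rfl
          exact hZ
      rw [h1, Finset.sum_singleton]
      unfold rh
      rw [if_pos hZ.2, one_mul, e8_mul]
      have h2 := ee_rel hr hg hgQ hw hw1 hX hZ.1 hZ.2
      calc √(ee w g X * ee w g Z) ≤ √(√(g : ℝ) * (1 - x)) := Real.sqrt_le_sqrt h2
        _ = r4 (g : ℝ) * √(1 - x) := by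
            rw [Real.sqrt_mul (Real.sqrt_nonneg _)]
            rfl
        _ ≤ _ := mul_le_mul_of_nonneg_left hone hr40
  have hB : ∑ Y ∈ (Finset.range g).powerset.filter (fun Y => ¬ rl X Y),
      rh w rl X Y * (e8 w g X * e8 w g Y) ≤ 2 ^ Q * (w * (r4 (g : ℝ) * (7 / 4))) := by
    calc ∑ Y ∈ (Finset.range g).powerset.filter (fun Y => ¬ rl X Y),
          rh w rl X Y * (e8 w g X * e8 w g Y)
        ≤ ∑ Y ∈ (Finset.range g).powerset.filter (fun Y => ¬ rl X Y),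
          w * (r4 (g : ℝ) * (7 / 4)) := by
          refine Finset.sum_le_sum fun Y hY => ?_
          rw [Finset.mem_filter, Finset.mem_powerset] at hY
          unfold rh
          rw [if_neg hY.2, e8_mul]
          have h2 := ee_any hw hw2 hX hY.1
          refine mul_le_mul_of_nonneg_left ?_ hw.le
          calc √(ee w g X * ee w g Y) ≤ √(√(g : ℝ) * (7 / 4)) := Real.sqrt_le_sqrt h2
            _ = r4 (g : ℝ) * √(7 / 4) := by
                rw [Real.sqrt_mul (Real.sqrt_nonneg _)]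
                rfl
            _ ≤ _ := mul_le_mul_of_nonneg_left hsev hr40
      _ = (((Finset.range g).powerset.filter (fun Y => ¬ rl X Y)).card : ℝ) *
          (w * (r4 (g : ℝ) * (7 / 4))) := by
          rw [Finset.sum_const, nsmul_eq_mul]
      _ ≤ 2 ^ Q * (w * (r4 (g : ℝ) * (7 / 4))) := by
          have h1 : ((Finset.range g).powerset.filter (fun Y => ¬ rl X Y)).card ≤ 2 ^ Q := by
            refine (Finset.card_filter_le _ _).trans ?_
            rw [Finset.card_powerset, Finset.card_range]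
            exact Nat.pow_le_pow_right (by norm_num) hgQ
          have h2 : ((((Finset.range g).powerset.filter
              (fun Y => ¬ rl X Y)).card : ℕ) : ℝ) ≤ 2 ^ Q := by exact_mod_cast h1
          have h3 : 0 ≤ w * (r4 (g : ℝ) * (7 / 4)) := by positivity
          exact mul_le_mul_of_nonneg_right h2 h3
  have hC : 2 ^ Q * (w * (r4 (g : ℝ) * (7 / 4))) ≤
      r4 (g : ℝ) * (7 / (128 * (Q : ℝ) ^ 2)) := by
    have h1 : w * 2 ^ Q ≤ 1 / (32 * (Q : ℝ) ^ 2) := by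
      rw [le_div_iff₀ (by positivity)]
      calc w * 2 ^ Q * (32 * (Q : ℝ) ^ 2) = w * (32 * (Q : ℝ) ^ 2) * 2 ^ Q := by ring
        _ ≤ 1 := hw1
    calc 2 ^ Q * (w * (r4 (g : ℝ) * (7 / 4))) = r4 (g : ℝ) * ((w * 2 ^ Q) * (7 / 4)) := by ring
      _ ≤ r4 (g : ℝ) * (1 / (32 * (Q : ℝ) ^ 2) * (7 / 4)) := by gcongr
      _ = _ := by
          congr 1
          field_simp
          norm_num
  have hD : r4 (g : ℝ) * (1 - x / 2) + r4 (g : ℝ) * (7 / (128 * (Q : ℝ) ^ 2)) =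
      r4 (g : ℝ) * (1 - 1 / (128 * (Q : ℝ) ^ 2)) := by
    rw [hx, ← mul_add]
    congr 1
    field_simp
    ring
  linarith

/-- the kernel -/
lemma kernel4 {Q : ℕ} (g : ℕ → ℕ) (rl : ℕ → Finset ℕ → Finset ℕ → Prop)
    (hr : ∀ j, GoodRel (g j) (rl j)) (hg : ∀ j, 2 ≤ g j ∧ g j ≤ Q) {w : ℝ} (hw : 0 < w)
    (hw1 : w * (32 * (Q : ℝ) ^ 2) * 2 ^ Q ≤ 1) (J : ℕ) {G : Fin J → Finset ℕ}
    (hG : G ∈ seqs g J) :
    ∑ H ∈ seqs g J, ∏ j : Fin J, (rh w (rl j) (G j) (H j) *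
        (e8 w (g j) (G j) * e8 w (g j) (H j)))
      ≤ ∏ j : Fin J, (r4 (g j : ℝ) * (1 - 1 / (128 * (Q : ℝ) ^ 2))) := by
  unfold seqs
  rw [← Finset.prod_univ_sum (fun j : Fin J => (Finset.range (g j)).powerset)
    (fun j Y => rh w (rl j) (G j) Y * (e8 w (g j) (G j) * e8 w (g j) Y))]
  refine Finset.prod_le_prod (fun j _ => Finset.sum_nonneg fun Y _ => ?_) fun j _ => ?_
  · exact mul_nonneg (rh_nonneg hw.le _ _ _) (mul_nonneg (e8_nonneg _ _ _) (e8_nonneg _ _ _))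
  · exact local4 (hr j) (hg j).1 (hg j).2 hw hw1 (mem_seqs.1 hG j)

/-- The Schur test. -/
theorem schur4 {Q : ℕ} (g : ℕ → ℕ) (rl : ℕ → Finset ℕ → Finset ℕ → Prop)
    (hr : ∀ j, GoodRel (g j) (rl j)) (hg : ∀ j, 2 ≤ g j ∧ g j ≤ Q) {w : ℝ} (hw : 0 < w)
    (hw1 : w * (32 * (Q : ℝ) ^ 2) * 2 ^ Q ≤ 1) (J : ℕ) (r b : (Fin J → Finset ℕ) → ℝ) (R Y : ℝ)
    (hR : 0 ≤ R) (hr0 : ∀ G, 0 ≤ r G) (hb0 : ∀ G, 0 ≤ b G)
    (hrr : ∀ G ∈ seqs g J, r G ^ 4 ≤ R * ∏ j : Fin J, EE w (g j) (G j))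
    (hb : ∀ G ∈ seqs g J, b G ^ 4 ≤ R * ∏ j : Fin J, EE w (g j) (G j))
    (hrY : ∑ G ∈ seqs g J, r G ≤ Y) (hbY : ∑ G ∈ seqs g J, b G ≤ Y) :
    ∑ G ∈ seqs g J, ∑ H ∈ seqs g J, (∏ j : Fin J, rh w (rl j) (G j) (H j)) * (r G * b H) ≤
      r4 R * (∏ j : Fin J, (r4 (g j : ℝ) * (1 - 1 / (128 * (Q : ℝ) ^ 2)))) * Y := by
  set κ := ∏ j : Fin J, (r4 (g j : ℝ) * (1 - 1 / (128 * (Q : ℝ) ^ 2))) with hκ
  have hroot : ∀ c : (Fin J → Finset ℕ) → ℝ, (∀ G, 0 ≤ c G) →
      (∀ G ∈ seqs g J, c G ^ 4 ≤ R * ∏ j : Fin J, EE w (g j) (G j)) →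
      ∀ G ∈ seqs g J, √(c G) ≤ √(r4 R) * ∏ j : Fin J, e8 w (g j) (G j) := by
    intro c hc0 hc G hG
    have h1 : c G ^ 2 ≤ √R * ∏ j : Fin J, √(EE w (g j) (G j)) := by
      have h2 : √R * ∏ j : Fin J, √(EE w (g j) (G j)) =
          √(R * ∏ j : Fin J, EE w (g j) (G j)) := by
        rw [Real.sqrt_mul hR, Real.sqrt_prod _ fun j _ => EE_nonneg hw.le _ _]
      rw [h2]
      refine Real.le_sqrt_of_sq_le ?_
      calc (c G ^ 2) ^ 2 = c G ^ 4 := by ring
        _ ≤ _ := hc G hG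
    have h2 : c G ≤ r4 R * ∏ j : Fin J, ee w (g j) (G j) := by
      have h3 : r4 R * ∏ j : Fin J, ee w (g j) (G j) =
          √(√R * ∏ j : Fin J, √(EE w (g j) (G j))) := by
        rw [Real.sqrt_mul (Real.sqrt_nonneg _), Real.sqrt_prod _ fun j _ => Real.sqrt_nonneg _]
        rfl
      rw [h3]
      exact Real.le_sqrt_of_sq_le h1
    have h3 : √(r4 R) * ∏ j : Fin J, e8 w (g j) (G j) =
        √(r4 R * ∏ j : Fin J, ee w (g j) (G j)) := by
      rw [Real.sqrt_mul (r4_nonneg _), Real.sqrt_prod _ fun j _ => ee_nonneg _ _ _]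
      rfl
    rw [h3]
    exact Real.sqrt_le_sqrt h2
  have hterm : ∀ G ∈ seqs g J, ∀ H ∈ seqs g J,
      (∏ j : Fin J, rh w (rl j) (G j) (H j)) * (r G * b H) ≤
        r4 R * (∏ j : Fin J, (rh w (rl j) (G j) (H j) *
          (e8 w (g j) (G j) * e8 w (g j) (H j)))) * ((r G + b H) / 2) := by
    intro G hG H hH
    have h1 := hroot r hr0 hrr G hG
    have h2 := hroot b hb0 hb H hH
    have h3 : r G * b H = (√(r G) * √(b H)) * (√(r G) * √(b H)) := by
      have e1 := Real.mul_self_sqrt (hr0 G)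
      have e2 := Real.mul_self_sqrt (hb0 H)
      calc r G * b H = (√(r G) * √(r G)) * (√(b H) * √(b H)) := by rw [e1, e2]
        _ = _ := by ring
    have h4 : √(r G) * √(b H) ≤ (r G + b H) / 2 := by
      have e1 := Real.sq_sqrt (hr0 G)
      have e2 := Real.sq_sqrt (hb0 H)
      nlinarith [sq_nonneg (√(r G) - √(b H))]
    have h5 : √(r G) * √(b H) ≤
        r4 R * ∏ j : Fin J, (e8 w (g j) (G j) * e8 w (g j) (H j)) := by
      rw [Finset.prod_mul_distrib]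
      have e1 : √(r4 R) * √(r4 R) = r4 R := Real.mul_self_sqrt (r4_nonneg _)
      have e2 : 0 ≤ ∏ j : Fin J, e8 w (g j) (G j) :=
        Finset.prod_nonneg fun j _ => e8_nonneg _ _ _
      calc √(r G) * √(b H) ≤ (√(r4 R) * ∏ j : Fin J, e8 w (g j) (G j)) *
            (√(r4 R) * ∏ j : Fin J, e8 w (g j) (H j)) :=
            mul_le_mul h1 h2 (Real.sqrt_nonneg _) (mul_nonneg (Real.sqrt_nonneg _) e2)
        _ = (√(r4 R) * √(r4 R)) * ((∏ j : Fin J, e8 w (g j) (G j)) *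
            ∏ j : Fin J, e8 w (g j) (H j)) := by ring
        _ = _ := by rw [e1]
    have h6 : 0 ≤ ∏ j : Fin J, rh w (rl j) (G j) (H j) :=
      Finset.prod_nonneg fun j _ => rh_nonneg hw.le _ _ _
    have h7 : 0 ≤ ∏ j : Fin J, (e8 w (g j) (G j) * e8 w (g j) (H j)) :=
      Finset.prod_nonneg fun j _ => mul_nonneg (e8_nonneg _ _ _) (e8_nonneg _ _ _)
    rw [h3]
    calc (∏ j : Fin J, rh w (rl j) (G j) (H j)) * ((√(r G) * √(b H)) * (√(r G) * √(b H)))
        ≤ (∏ j : Fin J, rh w (rl j) (G j) (H j)) *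
          ((r4 R * ∏ j : Fin J, (e8 w (g j) (G j) * e8 w (g j) (H j))) * ((r G + b H) / 2)) := by
          refine mul_le_mul_of_nonneg_left ?_ h6
          exact mul_le_mul h5 h4 (mul_nonneg (Real.sqrt_nonneg _) (Real.sqrt_nonneg _))
            (mul_nonneg (r4_nonneg _) h7)
      _ = r4 R * ((∏ j : Fin J, rh w (rl j) (G j) (H j)) *
          ∏ j : Fin J, (e8 w (g j) (G j) * e8 w (g j) (H j))) * ((r G + b H) / 2) := by ring
      _ = _ := by rw [← Finset.prod_mul_distrib]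
  set K : (Fin J → Finset ℕ) → (Fin J → Finset ℕ) → ℝ := fun G H =>
    ∏ j : Fin J, (rh w (rl j) (G j) (H j) * (e8 w (g j) (G j) * e8 w (g j) (H j))) with hK
  have hKsymm : ∀ G H, K G H = K H G := by
    intro G H
    rw [hK]
    simp only
    refine Finset.prod_congr rfl fun j _ => ?_
    rw [rh_comm (hr j), mul_comm (e8 w (g j) (G j))]
  have hKsum : ∀ G ∈ seqs g J, ∑ H ∈ seqs g J, K G H ≤ κ := fun G hG =>
    kernel4 g rl hr hg hw hw1 J hG
  calc ∑ G ∈ seqs g J, ∑ H ∈ seqs g J, (∏ j : Fin J, rh w (rl j) (G j) (H j)) * (r G * b H)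
      ≤ ∑ G ∈ seqs g J, ∑ H ∈ seqs g J, r4 R * K G H * ((r G + b H) / 2) :=
        Finset.sum_le_sum fun G hG => Finset.sum_le_sum fun H hH => hterm G hG H hH
    _ = r4 R / 2 * (∑ G ∈ seqs g J, r G * ∑ H ∈ seqs g J, K G H) +
        r4 R / 2 * (∑ H ∈ seqs g J, b H * ∑ G ∈ seqs g J, K H G) := by
        have e1 : ∑ G ∈ seqs g J, ∑ H ∈ seqs g J, r4 R * K G H * ((r G + b H) / 2) =
            ∑ G ∈ seqs g J, ∑ H ∈ seqs g J, (r4 R / 2 * (r G * K G H)) +
            ∑ G ∈ seqs g J, ∑ H ∈ seqs g J, (r4 R / 2 * (b H * K H G)) := by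
          rw [← Finset.sum_add_distrib]
          refine Finset.sum_congr rfl fun G _ => ?_
          rw [← Finset.sum_add_distrib]
          refine Finset.sum_congr rfl fun H _ => ?_
          rw [hKsymm H G]
          ring
        rw [e1]
        congr 1
        · rw [Finset.mul_sum]
          refine Finset.sum_congr rfl fun G _ => ?_
          rw [Finset.mul_sum, Finset.mul_sum]
        · rw [Finset.sum_comm, Finset.mul_sum]
          refine Finset.sum_congr rfl fun H _ => ?_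
          rw [Finset.mul_sum, Finset.mul_sum]
    _ ≤ r4 R / 2 * (∑ G ∈ seqs g J, r G * κ) + r4 R / 2 * (∑ H ∈ seqs g J, b H * κ) := by
        have e0 : 0 ≤ r4 R / 2 := by have := r4_nonneg R; positivity
        refine add_le_add (mul_le_mul_of_nonneg_left ?_ e0) (mul_le_mul_of_nonneg_left ?_ e0)
        · exact Finset.sum_le_sum fun G hG => mul_le_mul_of_nonneg_left (hKsum G hG) (hr0 G)
        · exact Finset.sum_le_sum fun H hH => mul_le_mul_of_nonneg_left (hKsum H hH) (hb0 H)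
    _ = r4 R / 2 * κ * (∑ G ∈ seqs g J, r G) + r4 R / 2 * κ * (∑ H ∈ seqs g J, b H) := by
        rw [← Finset.sum_mul, ← Finset.sum_mul]
        ring
    _ ≤ r4 R / 2 * κ * Y + r4 R / 2 * κ * Y := by
        have hκ0 : 0 ≤ κ := by
          have hmem : (fun _ : Fin J => (∅ : Finset ℕ)) ∈ seqs g J :=
            mem_seqs.2 fun j => Finset.empty_subset _
          refine le_trans (Finset.sum_nonneg fun H _ => Finset.prod_nonneg fun j _ => ?_)
            (hKsum _ hmem)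
          exact mul_nonneg (rh_nonneg hw.le _ _ _)
            (mul_nonneg (e8_nonneg _ _ _) (e8_nonneg _ _ _))
        have e0 : 0 ≤ r4 R / 2 * κ := by have := r4_nonneg R; positivity
        exact add_le_add (mul_le_mul_of_nonneg_left hrY e0) (mul_le_mul_of_nonneg_left hbY e0)
    _ = _ := by ring

end Pool.Agent.Helper72.PL
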