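import Pool.Agent.Helper72.PL.Upper2
import Pool.Agent.Helper72.PL.Schur4
import Pool.Agent.Helper72.PL.Class4

/-! Exponential growth of the additive energy. -/

namespace Pool.Agent.Helper72.PL

open Finset Pool.Agent.Helper72.PW

lemma r4_mul {a : ℝ} (ha : 0 ≤ a) (b : ℝ) : r4 a * r4 b = r4 (a * b) := by
  unfold r4
  rw [Real.sqrt_mul ha, Real.sqrt_mul (Real.sqrt_nonneg _)]

lemma le_r4 {x y : ℝ} (h : x ^ 4 ≤ y) : x ≤ r4 y := by
  unfold r4
  refine Real.le_sqrt_of_sq_le (Real.le_sqrt_of_sq_le ?_)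
  calc (x ^ 2) ^ 2 = x ^ 4 := by ring
    _ ≤ y := h

lemma r4_le {x y : ℝ} (hy : 0 ≤ y) (h : x ≤ y ^ 4) : r4 x ≤ y := by
  unfold r4
  rw [Real.sqrt_le_left hy, Real.sqrt_le_left (by positivity)]
  calc x ≤ y ^ 4 := h
    _ = (y ^ 2) ^ 2 := by ring

lemma prod_r4 {m g : ℕ → ℕ} (h : Rad m g) (θ : ℝ) (J : ℕ) :
    ∏ j : Fin J, (r4 (g j : ℝ) * θ) = r4 (m J : ℝ) * θ ^ J := by
  rw [Finset.prod_mul_distrib, Finset.prod_const, Finset.card_univ, Fintype.card_fin]
  congr 1
  rw [← Finset.prod_range (f := fun j => r4 (g j : ℝ))]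
  induction J with
  | zero =>
    rw [Finset.prod_range_zero, h.one]
    unfold r4
    simp
  | succ J ih =>
    rw [Finset.prod_range_succ, ih, h.succ, r4_mul (Nat.cast_nonneg _), Nat.cast_mul, mul_comm
      (g J : ℝ)]

lemma log_four {c M K : ℝ} (hc : 0 < c) (hM : 0 < M) (hK : 0 < K) (h : c ^ 4 ≤ 2 * M * (K * M)) :
    4 * Real.log c ≤ Real.log (2 * K) + 2 * Real.log M := by
  have h1 := Real.log_le_log (by positivity) h
  rw [Real.log_pow] at h1
  have h2 : Real.log (2 * M * (K * M)) = Real.log (2 * K) + 2 * Real.log M := by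
    rw [show 2 * M * (K * M) = 2 * K * M ^ 2 by ring, Real.log_mul (by positivity) (by positivity),
      Real.log_pow]
    push_cast
    ring
  rw [h2] at h1
  exact_mod_cast h1

lemma combine {M K θ : ℝ} (hM : 0 < M) (hK : 1 ≤ K) (hθ : 0 ≤ θ) :
    r4 (K * M) * (r4 M * θ) * r4 (2 * M * (K * M)) ≤ M * (2 * K * θ) := by
  have h1 : r4 (K * M) * r4 M * r4 (2 * M * (K * M)) ≤ M * (2 * K) := by
    rw [r4_mul (by positivity), r4_mul (by positivity)]
    refine r4_le (by positivity) ?_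
    have h2 : (1 : ℝ) ≤ K ^ 2 := one_le_pow₀ hK
    have h3 : K * M * M * (2 * M * (K * M)) = 2 * K ^ 2 * M ^ 4 := by ring
    have h4 : (M * (2 * K)) ^ 4 = 16 * K ^ 2 * K ^ 2 * M ^ 4 := by ring
    rw [h3, h4]
    refine mul_le_mul_of_nonneg_right ?_ (by positivity)
    nlinarith
  have h2 := mul_le_mul_of_nonneg_right h1 hθ
  linarith

/-- The energy grows exponentially with the number of levels. -/
theorem levelsA {Q : ℕ} (hQ2 : 2 ≤ Q) : ∃ c : ℝ, 0 < c ∧ ∀ (m g f f' : ℕ → ℕ), Rad m g →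
    (∀ j, g j ≤ Q) → Split m f f' → ∀ (J : ℕ) (K : ℝ), 1 ≤ K →
    (en ((Finset.range (m J)).image f) : ℝ) ≤ K * m J →
    (en ((Finset.range (m J)).image f') : ℝ) ≤ K * m J →
    c * J ≤ Real.log (2 * K) := by
  have hQr : (2 : ℝ) ≤ Q := by exact_mod_cast hQ2
  have hQ0 : (0 : ℝ) < Q := by linarith
  set w : ℝ := 1 / (32 * (Q : ℝ) ^ 2 * 2 ^ Q) with hwdef
  have hw : 0 < w := by rw [hwdef]; positivity
  have hwQ : w * (32 * (Q : ℝ) ^ 2) * 2 ^ Q ≤ 1 := by
    rw [hwdef]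
    refine le_of_eq ?_
    field_simp
  have hw1 : w ≤ 1 := by
    rw [hwdef, div_le_one (by positivity)]
    have e1 : (1 : ℝ) ≤ 2 ^ Q := one_le_pow₀ (by norm_num)
    have e2 : (1 : ℝ) ≤ (Q : ℝ) ^ 2 := one_le_pow₀ (by linarith)
    nlinarith
  set θ : ℝ := 1 - 1 / (128 * (Q : ℝ) ^ 2) with hθ
  have hθ0 : 0 < θ := by
    have e2 : (1 : ℝ) ≤ (Q : ℝ) ^ 2 := one_le_pow₀ (by linarith)
    have : 1 / (128 * (Q : ℝ) ^ 2) ≤ 1 / 128 :=
      one_div_le_one_div_of_le (by norm_num) (by linarith)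
    rw [hθ]
    linarith
  have hθ1 : θ < 1 := by
    have : 0 < 1 / (128 * (Q : ℝ) ^ 2) := by positivity
    rw [hθ]
    linarith
  have hl : 0 ≤ -(3 * Real.log w) := by
    have := Real.log_nonpos hw.le hw1
    linarith
  set l := -(3 * Real.log w) with hldef
  set C := l * (32 * (Q : ℝ) ^ 4) with hC
  have hC0 : 0 ≤ C := by positivity
  have hlogθ : 0 < -Real.log θ := by
    have := Real.log_neg hθ0 hθ1
    linarith
  refine ⟨-Real.log θ / (1 + C), by positivity, ?_⟩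
  intro m g f f' h hQ hs J K hK1 hKf hKf'
  have hK0 : 0 < K := by linarith
  have hM : 0 < m J := h.pos J
  have hMr : (0 : ℝ) < m J := by exact_mod_cast hM
  have hlt : ∀ f : ℕ → ℕ, (∀ n, f n ≤ n) → ∀ a ∈ (Finset.range (m J)).image f, a < m J := by
    intro f hf a ha
    rw [Finset.mem_image] at ha
    obtain ⟨n, hn, rfl⟩ := ha
    exact (hf n).trans_lt (Finset.mem_range.1 hn)
  have hpos : ∀ f : ℕ → ℕ, (0 : ℝ) < ((Finset.range (m J)).image f).card := by
    intro f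
    have : 0 < ((Finset.range (m J)).image f).card :=
      Finset.card_pos.2 ⟨f 0, Finset.mem_image.2 ⟨0, Finset.mem_range.2 hM, rfl⟩⟩
    exact_mod_cast this
  have hfour : ∀ f : ℕ → ℕ, (∀ n, f n ≤ n) →
      (en ((Finset.range (m J)).image f) : ℝ) ≤ K * m J →
      (((Finset.range (m J)).image f).card : ℝ) ^ 4 ≤ 2 * m J * (K * m J) := by
    intro f hf hKf
    refine (card_four_le _ (m J) (hlt f hf)).trans ?_
    exact mul_le_mul_of_nonneg_left hKf (by positivity)
  have hF4 := hfour f hs.left.le hKf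
  have hG4 := hfour f' hs.right.le hKf'
  set Λ := Real.log (2 * K) with hΛ
  have hΛ0 : 0 ≤ Λ := Real.log_nonneg (by linarith)
  have hphi : ∑ n ∈ Finset.range (m J), phi m f f' J n ≤ m J * Λ := by
    refine (phi_sum_le f f' J hM).trans ?_
    refine mul_le_mul_of_nonneg_left ?_ hMr.le
    have e1 := log_four (hpos f) hMr hK0 hF4
    have e2 := log_four (hpos f') hMr hK0 hG4
    rw [← hΛ] at e1 e2
    linarith
  have htot := energy h hs hQ J
  have hN : (∑ n ∈ Finset.range (m J), NN m g f f' J n) / m J ≤ 32 * (Q : ℝ) ^ 4 * Λ := by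
    rw [div_le_iff₀ hMr]
    refine htot.trans ?_
    have := mul_le_mul_of_nonneg_left hphi (by positivity : (0 : ℝ) ≤ 32 * (Q : ℝ) ^ 4)
    linarith
  have hlow : m J * Real.exp (-(C * Λ)) ≤
      ∑ n ∈ Finset.range (m J), Real.exp (-(l * NN m g f f' J n)) := by
    refine le_trans ?_ (exp_sum_ge (fun n => NN m g f f' J n) hM l)
    refine mul_le_mul_of_nonneg_left ?_ hMr.le
    rw [Real.exp_le_exp]
    have := mul_le_mul_of_nonneg_left hN hl
    rw [hC]
    linarith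
  have hrel : ∀ j, GoodRel (g j) (Tile (g j)) := fun j =>
    ⟨fun hr => hr.symm, fun h1 h2 => h1.unique (by have := h.two j; omega) h2,
      fun hr => hr.sums_mul (h.two j)⟩
  have hcl : ∀ f : ℕ → ℕ, (∀ n, f n ≤ n) →
      (en ((Finset.range (m J)).image f) : ℝ) ≤ K * m J → ∀ G ∈ seqs g J,
      rr w m g f J G ^ 4 ≤ K * m J * ∏ j : Fin J, EE w (g j) (G j) := by
    intro f hf hKf G _
    classical
    unfold rr
    refine (class_four h hw.le hw1 J G _ fun a ha => ?_).trans ?_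
    · exact hlt f hf a (Finset.mem_filter.1 ha).1
    · refine mul_le_mul_of_nonneg_right ?_ (Finset.prod_nonneg fun j _ => EE_nonneg hw.le _ _)
      refine le_trans ?_ hKf
      exact_mod_cast en_mono (Finset.filter_subset _ _)
  have hup : ∑ n ∈ Finset.range (m J), Real.exp (-(l * NN m g f f' J n)) ≤
      r4 (K * m J) * (r4 (m J) * θ ^ J) * r4 (2 * m J * (K * m J)) := by
    calc ∑ n ∈ Finset.range (m J), Real.exp (-(l * NN m g f f' J n))
        ≤ ∑ n ∈ Finset.range (m J), pw w m g f f' J (f n) (f' n) :=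
          Finset.sum_le_sum fun n _ => exp_NN_le h hs hw hw1 J n
      _ ≤ _ := pair_sum_le hs hw.le J
      _ = _ := group w J
      _ ≤ r4 (K * m J) * (∏ j : Fin J, (r4 (g j : ℝ) * (1 - 1 / (128 * (Q : ℝ) ^ 2)))) *
          r4 (2 * m J * (K * m J)) :=
          schur4 g (fun j => Tile (g j)) hrel (fun j => ⟨h.two j, hQ j⟩) hw hwQ J (rr w m g f J)
            (rr w m g f' J) (K * m J) (r4 (2 * m J * (K * m J))) (by positivity)
            (rr_nonneg hw.le _ _ _ _) (rr_nonneg hw.le _ _ _ _)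
            (hcl f hs.left.le hKf) (hcl f' hs.right.le hKf')
            ((rr_sum hw.le hw1 m g f J).trans (le_r4 hF4))
            ((rr_sum hw.le hw1 m g f' J).trans (le_r4 hG4))
      _ = _ := by rw [prod_r4 h]
  have hfin : Real.exp (-(C * Λ)) ≤ 2 * K * θ ^ J := by
    have := (hlow.trans hup).trans (combine hMr hK1 (by positivity))
    exact le_of_mul_le_mul_left this hMr
  have hlog := Real.log_le_log (Real.exp_pos _) hfin
  rw [Real.log_exp, Real.log_mul (mul_pos two_pos hK0).ne' (pow_pos hθ0 J).ne', Real.log_pow,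
    ← hΛ] at hlog
  rw [div_mul_eq_mul_div, div_le_iff₀ (by positivity)]
  linarith

/-- The energy grows exponentially with the number of windows. -/
theorem levelsB {p : ℕ} (hp : p.Prime) (h : ℕ) : ∃ W : ℕ, 1 ≤ W ∧ ∃ c : ℝ, 0 < c ∧
    ∀ (F G : ℕ → ℕ), Sys p h F G → ∀ (L : ℕ) (K : ℝ), 1 ≤ K →
    (en (red (mm p W L) F) : ℝ) ≤ K * mm p W L →
    (en (red (mm p W L) G) : ℝ) ≤ K * mm p W L →
    c * L ≤ h * Real.log p + Real.log (2 * K) := by
  obtain ⟨W, hW1, hbig⟩ := exists_window p h hp.two_le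
  have hW : 1 ≤ W := by omega
  have hhW : h ≤ W := by omega
  have hp2 := hp.two_le
  refine ⟨W, hW, ?_⟩
  set Q := p ^ W with hQdef
  have hQ2 : 2 ≤ Q := (rad_mm hp2 hW).two 0
  have hrel : GoodRel Q (rel p h W) :=
    ⟨fun hr => rel_symm hr, fun h1 h2 => rel_unique hp2 h1 h2,
      fun hr => rel_sums hp2 (by omega) hbig hr⟩
  have hQr : (2 : ℝ) ≤ Q := by exact_mod_cast hQ2
  have hQ0 : (0 : ℝ) < Q := by linarith
  set w : ℝ := 1 / (32 * (Q : ℝ) ^ 2 * 2 ^ Q) with hwdef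
  have hw : 0 < w := by rw [hwdef]; positivity
  have hwQ : w * (32 * (Q : ℝ) ^ 2) * 2 ^ Q ≤ 1 := by
    rw [hwdef]
    refine le_of_eq ?_
    field_simp
  have hw1 : w ≤ 1 := by
    rw [hwdef, div_le_one (by positivity)]
    have e1 : (1 : ℝ) ≤ 2 ^ Q := one_le_pow₀ (by norm_num)
    have e2 : (1 : ℝ) ≤ (Q : ℝ) ^ 2 := one_le_pow₀ (by linarith)
    nlinarith
  set θ : ℝ := 1 - 1 / (128 * (Q : ℝ) ^ 2) with hθ
  have hθ0 : 0 < θ := by
    have e2 : (1 : ℝ) ≤ (Q : ℝ) ^ 2 := one_le_pow₀ (by linarith)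
    have : 1 / (128 * (Q : ℝ) ^ 2) ≤ 1 / 128 :=
      one_div_le_one_div_of_le (by norm_num) (by linarith)
    rw [hθ]
    linarith
  have hθ1 : θ < 1 := by
    have : 0 < 1 / (128 * (Q : ℝ) ^ 2) := by positivity
    rw [hθ]
    linarith
  set B := Q * p ^ h with hB
  have hB0 : 0 < B := Nat.mul_pos (by omega) (Nat.pow_pos hp.pos)
  have hBr : (0 : ℝ) < B := by exact_mod_cast hB0
  have hl : 0 ≤ -(3 * Real.log w) := by
    have := Real.log_nonpos hw.le hw1
    linarith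
  set l := -(3 * Real.log w) with hldef
  set C := l * (100 * (B : ℝ) ^ 4) with hC
  have hC0 : 0 ≤ C := by positivity
  have hlogθ : 0 < -Real.log θ := by
    have := Real.log_neg hθ0 hθ1
    linarith
  refine ⟨-Real.log θ / (1 + C), by positivity, ?_⟩
  intro F G hs L K hK1 hKF hKG
  have hRad := rad_mm hp2 hW
  have hF := act_mm (W := W) hs
  have hG := act_mm (W := W) hs.symm
  have hK0 : 0 < K := by linarith
  set M := mm p W L with hMdef
  have hM : 0 < M := hRad.pos L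
  have hMr : (0 : ℝ) < M := by exact_mod_cast hM
  have hpr : (1 : ℝ) ≤ p := by exact_mod_cast hp.one_lt.le
  have hlp : 0 ≤ Real.log p := Real.log_nonneg hpr
  have hlt : ∀ F : ℕ → ℕ, ∀ a ∈ red M F, a < M := by
    intro F a ha
    unfold red at ha
    rw [Finset.mem_image] at ha
    obtain ⟨z, _, rfl⟩ := ha
    exact Nat.mod_lt _ hM
  have hpos : ∀ F : ℕ → ℕ, (0 : ℝ) < (red M F).card := by
    intro F
    have : 0 < (red M F).card := Finset.card_pos.2 ⟨_, mem_red (F := F) hM⟩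
    exact_mod_cast this
  have hfour : ∀ F : ℕ → ℕ, (en (red M F) : ℝ) ≤ K * M →
      ((red M F).card : ℝ) ^ 4 ≤ 2 * M * (K * M) := by
    intro F hKF
    refine (card_four_le _ M (hlt F)).trans ?_
    exact mul_le_mul_of_nonneg_left hKF (by positivity)
  have hF4 := hfour F hKF
  have hG4 := hfour G hKG
  have hl2 : 0 ≤ Real.log (2 * K) := Real.log_nonneg (by linarith)
  set Λ := h * Real.log p + Real.log (2 * K) with hΛ
  have hphi : ∑ z ∈ Finset.range M, phi2 (mm p W) F G L z ≤ M * Λ := by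
    refine (phi2_sum_le hp2 hhW hW hs L).trans ?_
    refine mul_le_mul_of_nonneg_left ?_ hMr.le
    have e1 := log_four (hpos F) hMr hK0 hF4
    have e2 := log_four (hpos G) hMr hK0 hG4
    rw [hΛ]
    linarith
  have hcB : ∀ l a b, Q * c2 (mm p W) F G l a b ≤ B := fun l a b =>
    Nat.mul_le_mul_left _ (c2_le hp2 hhW hs l a b)
  have hen := energy2 hRad hF hG hcB L
  have hN : (∑ z ∈ Finset.range M, NN2 B (mm p W) Q F G L z) / M ≤ 100 * (B : ℝ) ^ 4 * Λ := by
    rw [div_le_iff₀ hMr]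
    have h1 := hen.trans hphi
    rw [one_div, inv_mul_le_iff₀ (by positivity)] at h1
    linarith
  have hlow : M * Real.exp (-(C * Λ)) ≤
      ∑ z ∈ Finset.range M, Real.exp (-(l * NN2 B (mm p W) Q F G L z)) := by
    refine le_trans ?_ (exp_sum_ge (fun z => NN2 B (mm p W) Q F G L z) hM l)
    refine mul_le_mul_of_nonneg_left ?_ hMr.le
    rw [Real.exp_le_exp]
    have := mul_le_mul_of_nonneg_left hN hl
    rw [hC]
    linarith
  have hcl : ∀ F : ℕ → ℕ, (en (red M F) : ℝ) ≤ K * M → ∀ T ∈ seqs (fun _ => Q) L,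
      rr2 w B p h W F L T ^ 4 ≤ K * M * ∏ j : Fin L, EE w Q (T j) := by
    intro F hKF T _
    classical
    unfold rr2
    refine (class_four hRad hw.le hw1 L T _ fun a ha => ?_).trans ?_
    · exact hlt F a (Finset.mem_filter.1 ha).1
    · refine mul_le_mul_of_nonneg_right ?_ (Finset.prod_nonneg fun j _ => EE_nonneg hw.le _ _)
      refine le_trans ?_ hKF
      exact_mod_cast en_mono (Finset.filter_subset _ _)
  have hprod : ∏ _j : Fin L, (r4 (Q : ℝ) * (1 - 1 / (128 * (Q : ℝ) ^ 2))) =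
      r4 (M : ℝ) * θ ^ L := by
    have := prod_r4 hRad θ L
    exact this
  have hup : ∑ z ∈ Finset.range M, Real.exp (-(l * NN2 B (mm p W) Q F G L z)) ≤
      (p : ℝ) ^ h * (r4 (K * M) * (r4 M * θ ^ L) * r4 (2 * M * (K * M))) := by
    calc ∑ z ∈ Finset.range M, Real.exp (-(l * NN2 B (mm p W) Q F G L z))
        ≤ ∑ z ∈ Finset.range M, pw2 w B p h W F G L (F z % M) (G z % M) :=
          Finset.sum_le_sum fun z _ => exp_NN2_le hp hW hs hw hw1 L z
      _ ≤ (p : ℝ) ^ h * ∑ a ∈ red M F, ∑ b ∈ red M G, pw2 w B p h W F G L a b :=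
          pair_sum2_le hp2 hhW hs L (fun a b => pw2 w B p h W F G L a b)
            fun a b => pw2_nonneg hw.le _ _ _ _ _ _ _ _ _
      _ = (p : ℝ) ^ h * ∑ S ∈ seqs (fun _ => Q) L, ∑ T ∈ seqs (fun _ => Q) L,
          (∏ j : Fin L, rh w (rel p h W) (S j) (T j)) *
          (rr2 w B p h W F L S * rr2 w B p h W G L T) := by rw [← group2 w L]
      _ ≤ (p : ℝ) ^ h * (r4 (K * M) *
          (∏ _j : Fin L, (r4 (Q : ℝ) * (1 - 1 / (128 * (Q : ℝ) ^ 2)))) *
          r4 (2 * M * (K * M))) := by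
          refine mul_le_mul_of_nonneg_left ?_ (by positivity)
          exact schur4 (fun _ => Q) (fun _ => rel p h W) (fun _ => hrel) (fun _ => ⟨hQ2, le_rfl⟩)
            hw hwQ L (rr2 w B p h W F L) (rr2 w B p h W G L) (K * M)
            (r4 (2 * M * (K * M))) (by positivity)
            (rr2_nonneg hw.le _ _ _ _ _ _) (rr2_nonneg hw.le _ _ _ _ _ _)
            (hcl F hKF) (hcl G hKG)
            ((rr2_sum hw.le hw1 B p h W F L).trans (le_r4 hF4))
            ((rr2_sum hw.le hw1 B p h W G L).trans (le_r4 hG4))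
      _ = _ := by rw [hprod]
  have hph : (0 : ℝ) < (p : ℝ) ^ h := by positivity
  have hfin : Real.exp (-(C * Λ)) ≤ (p : ℝ) ^ h * (2 * K) * θ ^ L := by
    have h1 := (hlow.trans hup).trans (mul_le_mul_of_nonneg_left
      (combine hMr hK1 (by positivity : 0 ≤ θ ^ L)) hph.le)
    have h2 : (p : ℝ) ^ h * (M * (2 * K * θ ^ L)) = M * ((p : ℝ) ^ h * (2 * K) * θ ^ L) := by ring
    rw [h2] at h1
    exact le_of_mul_le_mul_left h1 hMr
  have hlog := Real.log_le_log (Real.exp_pos _) hfin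
  rw [Real.log_exp, Real.log_mul (mul_pos hph (mul_pos two_pos hK0)).ne' (pow_pos hθ0 L).ne',
    Real.log_mul hph.ne' (mul_pos two_pos hK0).ne', Real.log_pow, Real.log_pow] at hlog
  rw [div_mul_eq_mul_div, div_le_iff₀ (by positivity)]
  linarith

end Pool.Agent.Helper72.PL
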