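import Pool.Agent.Helper72.PL.Levels2
import Pool.Agent.Helper72.PL.Branch
import Pool.Agent.Helper72.PL.Kill

/-! The structure of the good nodes. -/

namespace Pool.Agent.Helper72.PL

open Finset Pool.Agent.Helper72.PW

/-- two functions which act on the `p`-adic integers and have the sum `p ^ h * z` -/
structure Sys (p h : ℕ) (F G : ℕ → ℕ) : Prop where
  add : ∀ z, F z + G z = p ^ h * z
  lf : ∀ i z z', z ≡ z' [MOD p ^ i] → F z ≡ F z' [MOD p ^ i]
  lg : ∀ i z z', z ≡ z' [MOD p ^ i] → G z ≡ G z' [MOD p ^ i]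

lemma Sys.symm {p h : ℕ} {F G : ℕ → ℕ} (hs : Sys p h F G) : Sys p h G F :=
  ⟨fun z => by rw [add_comm]; exact hs.add z, hs.lg, hs.lf⟩

/-- the scales -/
def mm (p W l : ℕ) : ℕ := (p ^ W) ^ l

lemma mm_eq (p W l : ℕ) : mm p W l = p ^ (W * l) := by
  unfold mm
  rw [← pow_mul]

lemma rad_mm {p W : ℕ} (hp : 2 ≤ p) (hW : 1 ≤ W) : Rad (mm p W) fun _ => p ^ W := by
  refine ⟨pow_zero _, fun j => ?_, fun _ => ?_⟩
  · unfold mm
    rw [pow_succ']
  · calc 2 ≤ p := hp
      _ = p ^ 1 := (pow_one p).symm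
      _ ≤ p ^ W := Nat.pow_le_pow_right (by omega) hW

lemma act_mm {p h W : ℕ} {F G : ℕ → ℕ} (hs : Sys p h F G) : Act (mm p W) F := by
  intro l z
  rw [mm_eq]
  exact hs.lf _ _ _ (Nat.mod_modEq z _).symm

lemma mod_mul_lt {m P r S : ℕ} (hr : r < m) : (r + S * m) % (m * P) = r + S % P * m := by
  rcases Nat.eq_zero_or_pos P with h0 | hP
  · rw [h0, mul_zero, Nat.mod_zero, Nat.mod_zero]
  have h1 := Nat.div_add_mod S P
  have h2 : r + S * m = (r + S % P * m) + m * P * (S / P) := by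
    calc r + S * m = r + (P * (S / P) + S % P) * m := by rw [h1]
      _ = _ := by ring
  rw [h2, Nat.add_mul_mod_self_left]
  refine Nat.mod_eq_of_lt ?_
  have h3 := Nat.mod_lt S hP
  calc r + S % P * m < m + S % P * m := by omega
    _ = (S % P + 1) * m := by ring
    _ ≤ P * m := Nat.mul_le_mul_right _ h3
    _ = m * P := mul_comm _ _

/-- the relation between the digits of the two summands and the digits of the sum -/
lemma digit_rel {p h W : ℕ} (hp : 2 ≤ p) (hW : 1 ≤ W) {F G : ℕ → ℕ} (hs : Sys p h F G) (l z : ℕ) :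
    (F z % mm p W l + G z % mm p W l) % mm p W l +
      (dg (mm p W) l (F z) + dg (mm p W) l (G z) +
        (F z % mm p W l + G z % mm p W l) / mm p W l) * mm p W l ≡ p ^ h * z
      [MOD mm p W l * p ^ W] := by
  have hR := rad_mm hp hW
  have h1 := mod_succ hR l (F z)
  have h2 := mod_succ hR l (G z)
  have h3 : F z % mm p W (l + 1) + G z % mm p W (l + 1) ≡ F z + G z [MOD mm p W (l + 1)] :=
    Nat.ModEq.add (Nat.mod_modEq _ _) (Nat.mod_modEq _ _)
  rw [h1, h2, hs.add z] at h3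
  have h4 : mm p W (l + 1) = mm p W l * p ^ W := by
    unfold mm
    rw [pow_succ]
  rw [h4] at h3
  have h5 := Nat.div_add_mod (F z % mm p W l + G z % mm p W l) (mm p W l)
  have h6 : (F z % mm p W l + G z % mm p W l) % mm p W l +
      (dg (mm p W) l (F z) + dg (mm p W) l (G z) +
        (F z % mm p W l + G z % mm p W l) / mm p W l) * mm p W l =
      F z % mm p W l + dg (mm p W) l (F z) * mm p W l +
      (G z % mm p W l + dg (mm p W) l (G z) * mm p W l) := by
    calc (F z % mm p W l + G z % mm p W l) % mm p W l +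
      (dg (mm p W) l (F z) + dg (mm p W) l (G z) +
        (F z % mm p W l + G z % mm p W l) / mm p W l) * mm p W l
        = (mm p W l * ((F z % mm p W l + G z % mm p W l) / mm p W l) +
          (F z % mm p W l + G z % mm p W l) % mm p W l) +
          (dg (mm p W) l (F z) + dg (mm p W) l (G z)) * mm p W l := by ring
      _ = _ := by rw [h5]; ring
  rw [h6]
  exact h3

/-- zero runs -/
lemma zero_run {p h W : ℕ} (hp : 2 ≤ p) (hW : 1 ≤ W) {F G : ℕ → ℕ} (hs : Sys p h F G) (l z i : ℕ)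
    (hi : i + h + 1 ≤ W)
    (hlt : (dg (mm p W) l (F z) + dg (mm p W) l (G z) +
        (F z % mm p W l + G z % mm p W l) / mm p W l) % p ^ (i + h + 1) < p ^ i) :
    dg (mm p W) l (F z) % p ^ (i + 1) < p ^ i := by
  have hp0 : 0 < p := by omega
  have hR := rad_mm hp hW
  have hm : 0 < mm p W l := hR.pos l
  set S := dg (mm p W) l (F z) + dg (mm p W) l (G z) +
        (F z % mm p W l + G z % mm p W l) / mm p W l with hS
  set r := (F z % mm p W l + G z % mm p W l) % mm p W l with hr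
  have hrm : r < mm p W l := Nat.mod_lt _ hm
  have h1 := digit_rel hp hW hs l z
  rw [← hS, ← hr] at h1
  have hdvd : mm p W l * p ^ (i + h + 1) ∣ mm p W l * p ^ W :=
    Nat.mul_dvd_mul_left _ (pow_dvd_pow p hi)
  have h2 : (r + S * mm p W l) % (mm p W l * p ^ (i + h + 1)) =
      (p ^ h * z) % (mm p W l * p ^ (i + h + 1)) := h1.of_dvd hdvd
  rw [mod_mul_lt hrm] at h2
  have h3 : (p ^ h * z) % (mm p W l * p ^ (i + h + 1)) < mm p W l * p ^ i := by
    rw [← h2]
    calc r + S % p ^ (i + h + 1) * mm p W l < mm p W l + S % p ^ (i + h + 1) * mm p W l := by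
          omega
      _ = (S % p ^ (i + h + 1) + 1) * mm p W l := by ring
      _ ≤ p ^ i * mm p W l := Nat.mul_le_mul_right _ hlt
      _ = _ := mul_comm _ _
  have h4 : mm p W l * p ^ (i + h + 1) = p ^ h * (mm p W l * p ^ (i + 1)) := by
    rw [show i + h + 1 = h + (i + 1) by ring, pow_add]
    ring
  rw [h4, Nat.mul_mod_mul_left] at h3
  set k := z % (mm p W l * p ^ (i + 1)) with hk
  have h5 : F k < mm p W l * p ^ i := by
    have := hs.add k
    omega
  have h6 : F z % (mm p W l * p ^ (i + 1)) = F k := by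
    have e1 : mm p W l * p ^ (i + 1) = p ^ (W * l + (i + 1)) := by
      rw [mm_eq, ← pow_add]
    have e2 : F z ≡ F k [MOD mm p W l * p ^ (i + 1)] := by
      rw [e1]
      refine hs.lf _ _ _ ?_
      rw [← e1]
      exact (Nat.mod_modEq z _).symm
    have e3 : F k < mm p W l * p ^ (i + 1) := by
      refine h5.trans_le (Nat.mul_le_mul_left _ ?_)
      exact Nat.pow_le_pow_right hp0 (Nat.le_succ i)
    exact (show F z % (mm p W l * p ^ (i + 1)) = F k % (mm p W l * p ^ (i + 1)) from e2).trans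
      (Nat.mod_eq_of_lt e3)
  have h7 : F z % (mm p W l * p ^ (i + 1)) =
      F z % mm p W l + dg (mm p W) l (F z) % p ^ (i + 1) * mm p W l := by
    have e1 : mm p W l * p ^ (i + 1) ∣ mm p W (l + 1) := by
      have : mm p W (l + 1) = mm p W l * p ^ W := by unfold mm; rw [pow_succ]
      rw [this]
      exact Nat.mul_dvd_mul_left _ (pow_dvd_pow p (by omega))
    rw [← Nat.mod_mod_of_dvd (F z) e1, mod_succ hR l (F z),
      mod_mul_lt (Nat.mod_lt _ hm)]
  rw [h6] at h7
  by_contra hcon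
  rw [not_lt] at hcon
  have h8 : p ^ i * mm p W l ≤ dg (mm p W) l (F z) % p ^ (i + 1) * mm p W l :=
    Nat.mul_le_mul_right _ hcon
  rw [mul_comm (p ^ i)] at h8
  omega

lemma n2_pos {m F G : ℕ → ℕ} {l a b u v : ℕ} (h : 0 < n2 m F G l a b u v) :
    ∃ z < m (l + 1), F z % m l = a ∧ G z % m l = b ∧ dg m l (F z) = u ∧ dg m l (G z) = v := by
  unfold n2 at h
  obtain ⟨z, hz, h2⟩ := Finset.exists_ne_zero_of_sum_ne_zero h.ne'
  rw [Finset.mem_range] at hz
  by_cases h3 : (F z % m l = a ∧ G z % m l = b) ∧ (dg m l (F z) = u ∧ dg m l (G z) = v)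
  · exact ⟨z, hz, h3.1.1, h3.1.2, h3.2.1, h3.2.2⟩
  · rw [if_neg h3] at h2
    exact absurd rfl h2

/-- cancellation of the roots of unity -/
lemma node_cancel {p h W : ℕ} (hp : 2 ≤ p) (hW : 1 ≤ W) {F G : ℕ → ℕ} (hs : Sys p h F G)
    (l k i : ℕ) (hi : h ≤ i) (hiW : i < W) (hk : k < mm p W l) (ζ : ℂ)
    (hζ : IsPrimitiveRoot ζ (p ^ (i + 1))) :
    ∑ d ∈ Finset.range (p ^ W), ζ ^ (dg (mm p W) l (F (k + d * mm p W l)) +
      dg (mm p W) l (G (k + d * mm p W l))) = 0 := by
  have hp0 : 0 < p := by omega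
  have hR := rad_mm hp hW
  have hm : 0 < mm p W l := hR.pos l
  have hF := act_mm (W := W) hs
  have hG := act_mm (W := W) hs.symm
  have hζ1 : ζ ^ (p ^ (i + 1)) = 1 := hζ.pow_eq_one
  have hζW : ζ ^ (p ^ W) = 1 := by
    obtain ⟨c, hc⟩ := pow_dvd_pow p (by omega : i + 1 ≤ W)
    rw [hc, pow_mul, hζ1, one_pow]
  have hζ0 : ζ ≠ 0 := hζ.ne_zero (Nat.pow_pos hp0).ne'
  set X := (F k % mm p W l + G k % mm p W l) / mm p W l with hX
  set Y := p ^ h * k / mm p W l with hY
  have hterm : ∀ d ∈ Finset.range (p ^ W),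
      ζ ^ (dg (mm p W) l (F (k + d * mm p W l)) + dg (mm p W) l (G (k + d * mm p W l))) * ζ ^ X =
      ζ ^ Y * (ζ ^ p ^ h) ^ d := by
    intro d _
    have h1 := digit_rel hp hW hs l (k + d * mm p W l)
    rw [mod_lift hR hF l hk d, mod_lift hR hG l hk d, ← hX] at h1
    set r := (F k % mm p W l + G k % mm p W l) % mm p W l with hr
    have hrm : r < mm p W l := Nat.mod_lt _ hm
    have h2 : r = p ^ h * k % mm p W l := by
      rw [hr, ← Nat.add_mod, hs.add k]
    have h3 := Nat.div_add_mod (p ^ h * k) (mm p W l)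
    rw [← h2, ← hY] at h3
    have h4 : p ^ h * (k + d * mm p W l) = r + (Y + p ^ h * d) * mm p W l := by
      calc p ^ h * (k + d * mm p W l) = p ^ h * k + p ^ h * d * mm p W l := by ring
        _ = (mm p W l * Y + r) + p ^ h * d * mm p W l := by rw [h3]
        _ = _ := by ring
    rw [h4] at h1
    have h5 := Nat.ModEq.add_left_cancel' r h1
    rw [mul_comm (mm p W l) (p ^ W)] at h5
    have h6 := Nat.ModEq.mul_right_cancel' hm.ne' h5
    have h7 : ∀ s t : ℕ, s ≡ t [MOD p ^ W] → ζ ^ s = ζ ^ t := by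
      intro s t hst
      have e1 : ∀ x, ζ ^ x = ζ ^ (x % p ^ W) := by
        intro x
        conv_lhs => rw [← Nat.mod_add_div x (p ^ W), pow_add, pow_mul, hζW, one_pow, mul_one]
      rw [e1 s, e1 t, hst]
    rw [← pow_add, h7 _ _ h6, pow_add, pow_mul]
  have hgeom : ∑ d ∈ Finset.range (p ^ W), (ζ ^ p ^ h) ^ d = 0 := by
    have h1 : ζ ^ p ^ h ≠ 1 := by
      refine hζ.pow_ne_one_of_pos_of_lt (Nat.pow_pos hp0).ne' ?_
      exact Nat.pow_lt_pow_right (by omega) (by omega)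
    have h2 := mul_neg_geom_sum (ζ ^ p ^ h) (p ^ W)
    have h3 : (ζ ^ p ^ h) ^ p ^ W = 1 := by
      rw [← pow_mul, mul_comm, pow_mul, hζW, one_pow]
    rw [h3, sub_self, mul_eq_zero] at h2
    rcases h2 with h4 | h4
    · exact absurd (sub_eq_zero.1 h4).symm h1
    · exact h4
  have hmul : (∑ d ∈ Finset.range (p ^ W), ζ ^ (dg (mm p W) l (F (k + d * mm p W l)) +
      dg (mm p W) l (G (k + d * mm p W l)))) * ζ ^ X = 0 := by
    rw [Finset.sum_mul, Finset.sum_congr rfl hterm, ← Finset.mul_sum, hgeom, mul_zero]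
  rcases mul_eq_zero.1 hmul with h1 | h1
  · exact h1
  · exact absurd h1 (pow_ne_zero _ hζ0)

/-- the product of the two transforms vanishes -/
lemma node_prod {p h W : ℕ} (hp : 2 ≤ p) (hW : 1 ≤ W) {F G : ℕ → ℕ} (hs : Sys p h F G)
    (l a b i : ℕ) (hi : h ≤ i) (hiW : i < W) (ζ : ℂ)
    (hζ : IsPrimitiveRoot ζ (p ^ (i + 1))) :
    ∑ u ∈ Finset.range (p ^ W), ∑ v ∈ Finset.range (p ^ W),
      (n2 (mm p W) F G l a b u v : ℂ) * ζ ^ (u + v) = 0 := by
  have hR := rad_mm hp hW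
  have hF := act_mm (W := W) hs
  have hG := act_mm (W := W) hs.symm
  have h1 : ∑ u ∈ Finset.range (p ^ W), ∑ v ∈ Finset.range (p ^ W),
      (n2 (mm p W) F G l a b u v : ℂ) * ζ ^ (u + v) =
      ∑ z ∈ Finset.range (mm p W (l + 1)),
        if F z % mm p W l = a ∧ G z % mm p W l = b then
          ζ ^ (dg (mm p W) l (F z) + dg (mm p W) l (G z)) else 0 := by
    have e1 : ∀ u ∈ Finset.range (p ^ W), ∀ v ∈ Finset.range (p ^ W),
        (n2 (mm p W) F G l a b u v : ℂ) * ζ ^ (u + v) =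
        ∑ z ∈ Finset.range (mm p W (l + 1)), if (F z % mm p W l = a ∧ G z % mm p W l = b) ∧
          (dg (mm p W) l (F z) = u ∧ dg (mm p W) l (G z) = v) then ζ ^ (u + v) else 0 := by
      intro u _ v _
      unfold n2
      push_cast
      rw [Finset.sum_mul]
      refine Finset.sum_congr rfl fun z _ => ?_
      split_ifs
      · rw [one_mul]
      · rw [zero_mul]
    rw [Finset.sum_congr rfl fun u hu => Finset.sum_congr rfl fun v hv => e1 u hu v hv]
    rw [Finset.sum_congr rfl fun u _ => Finset.sum_comm]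
    rw [Finset.sum_comm]
    refine Finset.sum_congr rfl fun z _ => ?_
    by_cases e : F z % mm p W l = a ∧ G z % mm p W l = b
    · rw [if_pos e, Finset.sum_eq_single (dg (mm p W) l (F z))]
      · rw [Finset.sum_eq_single (dg (mm p W) l (G z))]
        · rw [if_pos ⟨e, rfl, rfl⟩]
        · intro v _ hv
          rw [if_neg fun hh => hv hh.2.2.symm]
        · intro hv
          exact absurd (Finset.mem_range.2 (dg_lt hR l (G z))) hv
      · intro u _ hu
        exact Finset.sum_eq_zero fun v _ => if_neg fun hh => hu hh.2.1.symm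
      · intro hu
        exact absurd (Finset.mem_range.2 (dg_lt hR l (F z))) hu
    · rw [if_neg e]
      exact Finset.sum_eq_zero fun u _ => Finset.sum_eq_zero fun v _ => if_neg fun hh => e hh.1
  rw [h1, hR.succ, sum_split]
  refine Finset.sum_eq_zero fun k hk => ?_
  rw [Finset.mem_range] at hk
  by_cases e : F k % mm p W l = a ∧ G k % mm p W l = b
  · rw [← node_cancel hp hW hs l k i hi hiW hk ζ hζ]
    refine Finset.sum_congr rfl fun d _ => ?_
    rw [mod_lift hR hF l hk d, mod_lift hR hG l hk d, if_pos e]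
  · refine Finset.sum_eq_zero fun d _ => ?_
    rw [mod_lift hR hF l hk d, mod_lift hR hG l hk d, if_neg e]

/-- in an exactly independent node every place branches in one of the two sets -/
lemma node_branch {p h W : ℕ} (hp : p.Prime) (hW : 1 ≤ W) {F G : ℕ → ℕ} (hs : Sys p h F G)
    (l a b i : ℕ) (hi : h ≤ i) (hiW : i < W) (U V : Finset ℕ)
    (hU : U ⊆ Finset.range (p ^ W)) (hV : V ⊆ Finset.range (p ^ W))
    (hU0 : U.Nonempty) (hV0 : V.Nonempty)
    (hex : ∀ u < p ^ W, ∀ v < p ^ W, ∀ u' < p ^ W, ∀ v' < p ^ W,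
      n2 (mm p W) F G l a b u v * n2 (mm p W) F G l a b u' v' =
        n2 (mm p W) F G l a b u v' * n2 (mm p W) F G l a b u' v)
    (hsupp : ∀ u < p ^ W, ∀ v < p ^ W, 0 < n2 (mm p W) F G l a b u v ↔ u ∈ U ∧ v ∈ V) :
    FB p U i ∨ FB p V i := by
  set N := n2 (mm p W) F G l a b with hN
  set N1 : ℕ → ℕ := fun u => ∑ v ∈ Finset.range (p ^ W), N u v with hN1
  set N2 : ℕ → ℕ := fun v => ∑ u ∈ Finset.range (p ^ W), N u v with hN2
  set ζ : ℂ := Complex.exp (2 * Real.pi * Complex.I / ((p ^ (i + 1) : ℕ) : ℂ)) with hζdef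
  have hζ : IsPrimitiveRoot ζ (p ^ (i + 1)) :=
    Complex.isPrimitiveRoot_exp _ (Nat.pow_pos hp.pos).ne'
  have hprod : (∑ u ∈ Finset.range (p ^ W), (N1 u : ℂ) * ζ ^ u) *
      (∑ v ∈ Finset.range (p ^ W), (N2 v : ℂ) * ζ ^ v) = 0 := by
    have h1 : ∀ u ∈ Finset.range (p ^ W), ∀ v ∈ Finset.range (p ^ W),
        N1 u * N2 v = (∑ u' ∈ Finset.range (p ^ W), ∑ v' ∈ Finset.range (p ^ W), N u' v') *
          N u v := by
      intro u hu v hv
      rw [Finset.mem_range] at hu hv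
      rw [hN1, hN2]
      simp only
      rw [Finset.sum_mul_sum, Finset.sum_comm, Finset.sum_mul]
      refine Finset.sum_congr rfl fun u' hu' => ?_
      rw [Finset.sum_mul]
      refine Finset.sum_congr rfl fun v' hv' => ?_
      rw [Finset.mem_range] at hu' hv'
      have := hex u hu v hv u' hu' v' hv'
      rw [← this, mul_comm]
    rw [Finset.sum_mul_sum]
    have h2 : ∀ u ∈ Finset.range (p ^ W), ∀ v ∈ Finset.range (p ^ W),
        (N1 u : ℂ) * ζ ^ u * ((N2 v : ℂ) * ζ ^ v) =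
        ((∑ u' ∈ Finset.range (p ^ W), ∑ v' ∈ Finset.range (p ^ W), N u' v' : ℕ) : ℂ) *
          ((N u v : ℂ) * ζ ^ (u + v)) := by
      intro u hu v hv
      have e1 : ((N1 u * N2 v : ℕ) : ℂ) = (((∑ u' ∈ Finset.range (p ^ W),
          ∑ v' ∈ Finset.range (p ^ W), N u' v') * N u v : ℕ) : ℂ) := by rw [h1 u hu v hv]
      rw [Nat.cast_mul, Nat.cast_mul] at e1
      rw [pow_add]
      calc (N1 u : ℂ) * ζ ^ u * ((N2 v : ℂ) * ζ ^ v) = ((N1 u : ℂ) * N2 v) * (ζ ^ u * ζ ^ v) := by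
            ring
        _ = _ := by rw [e1]; ring
    rw [Finset.sum_congr rfl fun u hu => Finset.sum_congr rfl fun v hv => h2 u hu v hv]
    rw [Finset.sum_congr rfl fun u _ => (Finset.mul_sum _ _ _).symm, ← Finset.mul_sum,
      node_prod hp.two_le hW hs l a b i hi hiW ζ hζ, mul_zero]
  have hpos1 : ∀ u < p ^ W, 0 < N1 u ↔ u ∈ U := by
    intro u hu
    rw [hN1]
    simp only
    constructor
    · intro h0
      obtain ⟨v, hv, h2⟩ := Finset.exists_ne_zero_of_sum_ne_zero h0.ne'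
      exact ((hsupp u hu v (Finset.mem_range.1 hv)).1 (Nat.pos_of_ne_zero h2)).1
    · intro hu2
      obtain ⟨v, hv⟩ := hV0
      have hv2 := Finset.mem_range.1 (hV hv)
      exact Finset.sum_pos' (fun _ _ => Nat.zero_le _)
        ⟨v, Finset.mem_range.2 hv2, (hsupp u hu v hv2).2 ⟨hu2, hv⟩⟩
  have hpos2 : ∀ v < p ^ W, 0 < N2 v ↔ v ∈ V := by
    intro v hv
    rw [hN2]
    simp only
    constructor
    · intro h0
      obtain ⟨u, hu, h2⟩ := Finset.exists_ne_zero_of_sum_ne_zero h0.ne'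
      exact ((hsupp u (Finset.mem_range.1 hu) v hv).1 (Nat.pos_of_ne_zero h2)).2
    · intro hv2
      obtain ⟨u, hu⟩ := hU0
      have hu2 := Finset.mem_range.1 (hU hu)
      exact Finset.sum_pos' (fun _ _ => Nat.zero_le _)
        ⟨u, Finset.mem_range.2 hu2, (hsupp u hu2 v hv).2 ⟨hu, hv2⟩⟩
  rcases mul_eq_zero.1 hprod with h0 | h0
  · left
    intro u hu x hx
    have hu2 := Finset.mem_range.1 (hU hu)
    obtain ⟨u', hu', h1, h2⟩ := full_branch hp N1 ζ hζ h0 u hu2 ((hpos1 u hu2).2 hu) x hx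
    exact ⟨u', (hpos1 u' hu').1 h1, h2⟩
  · right
    intro v hv x hx
    have hv2 := Finset.mem_range.1 (hV hv)
    obtain ⟨v', hv', h1, h2⟩ := full_branch hp N2 ζ hζ h0 v hv2 ((hpos2 v hv2).2 hv) x hx
    exact ⟨v', (hpos2 v' hv').1 h1, h2⟩

/-- the type of a residue -/
noncomputable def TT2 (B p h W : ℕ) (F : ℕ → ℕ) (l a : ℕ) : Finset ℕ :=
  UU p h W (tp p h W (bigB B (p ^ W) (nu (mm p W) (p ^ W) F l a)))

lemma bigB_sub (B g : ℕ) (μ : ℕ → ℝ) : bigB B g μ ⊆ Finset.range g := Finset.filter_subset _ _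

/-- the types of the two residues in a good node -/
theorem good_rel {p h W B : ℕ} (hp : p.Prime) (hW : 1 ≤ W) {F G : ℕ → ℕ} (hs : Sys p h F G)
    (l z : ℕ) (hgood : Good2 B (mm p W) (p ^ W) F G l (F z % mm p W l) (G z % mm p W l)) :
    rel p h W (TT2 B p h W F l (F z % mm p W l)) (TT2 B p h W G l (G z % mm p W l)) ∧
    dg (mm p W) l (F z) ∈ TT2 B p h W F l (F z % mm p W l) ∧
    dg (mm p W) l (G z) ∈ TT2 B p h W G l (G z % mm p W l) := by
  have hR := rad_mm hp.two_le hW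
  have hF := act_mm (W := W) hs
  have hG := act_mm (W := W) hs.symm
  set a := F z % mm p W l with ha
  set b := G z % mm p W l with hb
  set U := bigB B (p ^ W) (nu (mm p W) (p ^ W) F l a) with hU
  set V := bigB B (p ^ W) (nu (mm p W) (p ^ W) G l b) with hV
  have hUs : U ⊆ Finset.range (p ^ W) := bigB_sub _ _ _
  have hVs : V ⊆ Finset.range (p ^ W) := bigB_sub _ _ _
  obtain ⟨hex, hsupp⟩ := hgood
  -- the node is realized by `z`
  have hz : 0 < n2 (mm p W) F G l a b (dg (mm p W) l (F z)) (dg (mm p W) l (G z)) := by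
    unfold n2
    refine Finset.sum_pos' (fun _ _ => Nat.zero_le _) ⟨z % mm p W (l + 1),
      Finset.mem_range.2 (Nat.mod_lt _ (hR.pos _)), ?_⟩
    have e1 : F (z % mm p W (l + 1)) % mm p W (l + 1) = F z % mm p W (l + 1) := (hF (l + 1) z).symm
    have e2 : G (z % mm p W (l + 1)) % mm p W (l + 1) = G z % mm p W (l + 1) := (hG (l + 1) z).symm
    rw [mod_eq_iff hR] at e1 e2
    rw [if_pos ⟨⟨e1.1, e2.1⟩, e1.2, e2.2⟩]
    norm_num
  have hmem := (hsupp _ (dg_lt hR l (F z)) _ (dg_lt hR l (G z))).1 hz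
  have hU0 : U.Nonempty := ⟨_, hmem.1⟩
  have hV0 : V.Nonempty := ⟨_, hmem.2⟩
  have hcompl : tp p h W V = core h W \ tp p h W U := by
    refine tp_compl hp.two_le hU0 hV0 ((a + b) / mm p W l) ?_ ?_
    · intro u hu v hv i hi hlt
      have h0 := (hsupp u (Finset.mem_range.1 (hUs hu)) v (Finset.mem_range.1 (hVs hv))).2 ⟨hu, hv⟩
      obtain ⟨y, _, h1, h2, h3, h4⟩ := n2_pos h0
      constructor
      · rw [← h3]
        refine zero_run hp.two_le hW hs l y i hi ?_
        rw [h1, h2, h3, h4]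
        exact hlt
      · rw [← h4]
        refine zero_run hp.two_le hW hs.symm l y i hi ?_
        rw [h1, h2, h3, h4, add_comm v u, add_comm b a]
        exact hlt
    · intro i hi hiW
      exact node_branch hp hW hs l a b i hi hiW U V hUs hVs hU0 hV0 hex hsupp
  refine ⟨⟨tp p h W U, tp_sub p h W U, rfl, ?_⟩, sub_UU hUs hmem.1, sub_UU hVs hmem.2⟩
  unfold TT2
  rw [← hcompl]

end Pool.Agent.Helper72.PL
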