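import Pool.Agent.Helper72.PW.Schur

/-! The Schur test for an abstract relation of digit sets. -/

namespace Pool.Agent.Helper72.PL

open Finset Pool.Agent.Helper72.PW

/-- a relation of digit sets with the properties of tilings -/
structure GoodRel (g : ℕ) (rl : Finset ℕ → Finset ℕ → Prop) : Prop where
  symm : ∀ {X Y}, rl X Y → rl Y X
  uniq : ∀ {X Y Z}, rl X Y → rl X Z → Y = Z
  mul : ∀ {X Y}, rl X Y → (sums X).card * (sums Y).card + 1 ≤ g ^ 2

open Classical in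
/-- the weight of a pair of digit sets -/
noncomputable def rh (w : ℝ) (rl : Finset ℕ → Finset ℕ → Prop) (X Y : Finset ℕ) : ℝ :=
  if rl X Y then 1 else w

variable {rl : Finset ℕ → Finset ℕ → Prop}

lemma rh_nonneg {w : ℝ} (hw : 0 ≤ w) (rl : Finset ℕ → Finset ℕ → Prop) (X Y : Finset ℕ) :
    0 ≤ rh w rl X Y := by
  unfold rh
  split_ifs
  · norm_num
  · exact hw

lemma rh_comm {g : ℕ} (hr : GoodRel g rl) (w : ℝ) (X Y : Finset ℕ) :
    rh w rl X Y = rh w rl Y X := by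
  unfold rh
  by_cases h : rl X Y
  · rw [if_pos h, if_pos (hr.symm h)]
  · rw [if_neg h, if_neg fun h' => h (hr.symm h')]

/-- a pair of tiles -/
lemma ee_rel {Q g : ℕ} (hr : GoodRel g rl) (hg : 2 ≤ g) (hgQ : g ≤ Q) {w : ℝ} (hw : 0 < w)
    (hw1 : w * (32 * (Q : ℝ) ^ 2) * 2 ^ Q ≤ 1) {X Y : Finset ℕ} (hX : X ⊆ Finset.range g)
    (hY : Y ⊆ Finset.range g) (h : rl X Y) :
    ee w g X * ee w g Y ≤ √(g : ℝ) * (1 - 1 / (8 * (Q : ℝ) ^ 2)) := by
  have hgr : (2 : ℝ) ≤ g := by exact_mod_cast hg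
  have hQr : (g : ℝ) ≤ Q := by exact_mod_cast hgQ
  have hQ0 : (0 : ℝ) < Q := by linarith
  have h2Q : (1 : ℝ) ≤ 2 ^ Q := one_le_pow₀ (by norm_num)
  have hwQ : w * (32 * (Q : ℝ) ^ 2) ≤ 1 := by
    calc w * (32 * (Q : ℝ) ^ 2) ≤ w * (32 * (Q : ℝ) ^ 2) * 2 ^ Q :=
          le_mul_of_one_le_right (by positivity) h2Q
      _ ≤ 1 := hw1
  have hwg : w * (32 * (g : ℝ) ^ 2) ≤ 1 := by
    calc w * (32 * (g : ℝ) ^ 2) ≤ w * (32 * (Q : ℝ) ^ 2) := by gcongr
      _ ≤ 1 := hwQ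
  have hw2 : w ≤ 1 := by nlinarith [sq_nonneg ((g : ℝ) - 1)]
  have hs1 : ((sums X).card : ℝ) * ((sums Y).card : ℝ) + 1 ≤ (g : ℝ) ^ 2 := by
    exact_mod_cast hr.mul h
  have hs2 : ((sums X).card : ℝ) ≤ 2 * g := by exact_mod_cast card_sums_range hX
  have hs3 : ((sums Y).card : ℝ) ≤ 2 * g := by exact_mod_cast card_sums_range hY
  have hprod : EE w g X * EE w g Y ≤ (g : ℝ) ^ 2 - 1 / 2 := by
    unfold EE
    set s := ((sums X).card : ℝ)
    set s' := ((sums Y).card : ℝ)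
    have hs0 : 0 ≤ s := Nat.cast_nonneg _
    have hs0' : 0 ≤ s' := Nat.cast_nonneg _
    have e1 : (s + 2 * g * w) * (s' + 2 * g * w) =
        s * s' + 2 * g * w * (s + s') + 4 * g ^ 2 * w * w := by ring
    rw [e1]
    have e2 : 2 * (g : ℝ) * w * (s + s') ≤ 2 * g * w * (4 * g) := by
      have : s + s' ≤ 4 * g := by linarith
      gcongr
    have e3 : 4 * (g : ℝ) ^ 2 * w * w ≤ 4 * g ^ 2 * w * 1 := by gcongr
    have e4 : (12 : ℝ) * (w * g ^ 2) ≤ 1 / 2 := by nlinarith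
    nlinarith
  set x : ℝ := 1 / (8 * (g : ℝ) ^ 2) with hx
  have hx0 : 0 ≤ x := by positivity
  have hx1 : x ≤ 1 := by
    rw [hx, div_le_one (by positivity)]
    nlinarith
  have hxQ : 1 - x ≤ 1 - 1 / (8 * (Q : ℝ) ^ 2) := by
    have : 1 / (8 * (Q : ℝ) ^ 2) ≤ x := by
      rw [hx]
      gcongr
    linarith
  have hxg : (g : ℝ) ^ 2 * (4 * x) = 1 / 2 := by
    rw [hx]
    field_simp
    norm_num
  have hb : (g : ℝ) ^ 2 - 1 / 2 ≤ (√(g : ℝ) * (1 - x)) ^ 4 := by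
    have e1 : (√(g : ℝ) * (1 - x)) ^ 4 = (g : ℝ) ^ 2 * (1 - x) ^ 4 := by
      have : √(g : ℝ) ^ 2 = g := Real.sq_sqrt (by positivity)
      calc (√(g : ℝ) * (1 - x)) ^ 4 = (√(g : ℝ) ^ 2) ^ 2 * (1 - x) ^ 4 := by ring
        _ = _ := by rw [this]
    rw [e1]
    have e2 : 1 - 4 * x ≤ (1 - x) ^ 4 := by
      have h1 : 0 ≤ 1 - x := by linarith
      nlinarith [mul_nonneg hx0 hx0, mul_nonneg (mul_nonneg hx0 hx0) h1,
        mul_nonneg (mul_nonneg hx0 hx0) hx0, sq_nonneg (x * x)]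
    calc (g : ℝ) ^ 2 - 1 / 2 = (g : ℝ) ^ 2 * (1 - 4 * x) := by rw [← hxg]; ring
      _ ≤ _ := by gcongr
  have hmain : ee w g X * ee w g Y ≤ √(g : ℝ) * (1 - x) := by
    have e0 : 0 ≤ √(g : ℝ) * (1 - x) := mul_nonneg (Real.sqrt_nonneg _) (by linarith)
    unfold ee
    rw [← Real.sqrt_mul (Real.sqrt_nonneg _), ← Real.sqrt_mul (EE_nonneg hw.le g X)]
    rw [Real.sqrt_le_left e0, Real.sqrt_le_left (by positivity)]
    calc EE w g X * EE w g Y ≤ (g : ℝ) ^ 2 - 1 / 2 := hprod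
      _ ≤ (√(g : ℝ) * (1 - x)) ^ 4 := hb
      _ = ((√(g : ℝ) * (1 - x)) ^ 2) ^ 2 := by ring
  refine hmain.trans ?_
  gcongr

/-- the local Schur test -/
lemma schur_local2 {Q g : ℕ} (hr : GoodRel g rl) (hg : 2 ≤ g) (hgQ : g ≤ Q) {w : ℝ} (hw : 0 < w)
    (hw1 : w * (32 * (Q : ℝ) ^ 2) * 2 ^ Q ≤ 1) {X : Finset ℕ} (hX : X ⊆ Finset.range g) :
    ∑ Y ∈ (Finset.range g).powerset, rh w rl X Y * (ee w g X * ee w g Y) ≤
      √(g : ℝ) * (1 - 1 / (16 * (Q : ℝ) ^ 2)) := by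
  classical
  have hgr : (2 : ℝ) ≤ g := by exact_mod_cast hg
  have hQr : (g : ℝ) ≤ Q := by exact_mod_cast hgQ
  have hQ0 : (0 : ℝ) < Q := by linarith
  have h2Q : (1 : ℝ) ≤ 2 ^ Q := one_le_pow₀ (by norm_num)
  have hwQ : w * (32 * (Q : ℝ) ^ 2) ≤ 1 := by
    calc w * (32 * (Q : ℝ) ^ 2) ≤ w * (32 * (Q : ℝ) ^ 2) * 2 ^ Q :=
          le_mul_of_one_le_right (by positivity) h2Q
      _ ≤ 1 := hw1
  have hw2 : w ≤ 1 / 2 := by
    have : (4 : ℝ) ≤ (Q : ℝ) ^ 2 := by nlinarith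
    nlinarith
  rw [← Finset.sum_filter_add_sum_filter_not _ (fun Y => rl X Y)]
  have hA : ∑ Y ∈ (Finset.range g).powerset.filter (fun Y => rl X Y),
      rh w rl X Y * (ee w g X * ee w g Y) ≤ √(g : ℝ) * (1 - 1 / (8 * (Q : ℝ) ^ 2)) := by
    have h0 : 0 ≤ √(g : ℝ) * (1 - 1 / (8 * (Q : ℝ) ^ 2)) := by
      refine mul_nonneg (Real.sqrt_nonneg _) ?_
      have : 1 / (8 * (Q : ℝ) ^ 2) ≤ 1 := by
        rw [div_le_one (by positivity)]
        nlinarith
      linarith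
    rcases ((Finset.range g).powerset.filter (fun Y => rl X Y)).eq_empty_or_nonempty with
      he | ⟨Z, hZ⟩
    · rw [he, Finset.sum_empty]
      exact h0
    · rw [Finset.mem_filter, Finset.mem_powerset] at hZ
      have h1 : (Finset.range g).powerset.filter (fun Y => rl X Y) = {Z} := by
        ext Y
        rw [Finset.mem_filter, Finset.mem_powerset, Finset.mem_singleton]
        constructor
        · rintro ⟨-, hY⟩
          exact hr.uniq hY hZ.2
        · rintro rfl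
          exact hZ
      rw [h1, Finset.sum_singleton]
      unfold rh
      rw [if_pos hZ.2, one_mul]
      exact ee_rel hr hg hgQ hw hw1 hX hZ.1 hZ.2
  have hB : ∑ Y ∈ (Finset.range g).powerset.filter (fun Y => ¬ rl X Y),
      rh w rl X Y * (ee w g X * ee w g Y) ≤ 2 ^ Q * (w * (√(g : ℝ) * (7 / 4))) := by
    calc ∑ Y ∈ (Finset.range g).powerset.filter (fun Y => ¬ rl X Y),
          rh w rl X Y * (ee w g X * ee w g Y)
        ≤ ∑ Y ∈ (Finset.range g).powerset.filter (fun Y => ¬ rl X Y),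
          w * (√(g : ℝ) * (7 / 4)) := by
          refine Finset.sum_le_sum fun Y hY => ?_
          rw [Finset.mem_filter, Finset.mem_powerset] at hY
          unfold rh
          rw [if_neg hY.2]
          have := ee_any hw hw2 hX hY.1
          gcongr
      _ = (((Finset.range g).powerset.filter (fun Y => ¬ rl X Y)).card : ℝ) *
          (w * (√(g : ℝ) * (7 / 4))) := by
          rw [Finset.sum_const, nsmul_eq_mul]
      _ ≤ 2 ^ Q * (w * (√(g : ℝ) * (7 / 4))) := by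
          have h1 : ((Finset.range g).powerset.filter (fun Y => ¬ rl X Y)).card ≤ 2 ^ Q := by
            refine (Finset.card_filter_le _ _).trans ?_
            rw [Finset.card_powerset, Finset.card_range]
            exact Nat.pow_le_pow_right (by norm_num) hgQ
          have h2 : ((((Finset.range g).powerset.filter
              (fun Y => ¬ rl X Y)).card : ℕ) : ℝ) ≤ 2 ^ Q := by exact_mod_cast h1
          have h3 : 0 ≤ w * (√(g : ℝ) * (7 / 4)) := by positivity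
          exact mul_le_mul_of_nonneg_right h2 h3
  have hC : 2 ^ Q * (w * (√(g : ℝ) * (7 / 4))) ≤ √(g : ℝ) * (1 / (16 * (Q : ℝ) ^ 2)) := by
    have h1 : w * 2 ^ Q ≤ 1 / (32 * (Q : ℝ) ^ 2) := by
      rw [le_div_iff₀ (by positivity)]
      calc w * 2 ^ Q * (32 * (Q : ℝ) ^ 2) = w * (32 * (Q : ℝ) ^ 2) * 2 ^ Q := by ring
        _ ≤ 1 := hw1
    calc 2 ^ Q * (w * (√(g : ℝ) * (7 / 4))) = √(g : ℝ) * ((w * 2 ^ Q) * (7 / 4)) := by ring
      _ ≤ √(g : ℝ) * (1 / (32 * (Q : ℝ) ^ 2) * (7 / 4)) := by gcongr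
      _ ≤ √(g : ℝ) * (1 / (16 * (Q : ℝ) ^ 2)) := by
          have : 1 / (32 * (Q : ℝ) ^ 2) * (7 / 4) ≤ 1 / (16 * (Q : ℝ) ^ 2) := by
            rw [div_mul_div_comm, div_le_div_iff₀ (by positivity) (by positivity)]
            nlinarith [sq_nonneg (Q : ℝ)]
          gcongr
  have hD : √(g : ℝ) * (1 - 1 / (8 * (Q : ℝ) ^ 2)) + √(g : ℝ) * (1 / (16 * (Q : ℝ) ^ 2)) =
      √(g : ℝ) * (1 - 1 / (16 * (Q : ℝ) ^ 2)) := by
    have : 1 / (8 * (Q : ℝ) ^ 2) = 2 * (1 / (16 * (Q : ℝ) ^ 2)) := by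
      field_simp
      norm_num
    rw [this]
    ring
  linarith

/-- the kernel -/
lemma schur_kernel2 {Q : ℕ} (g : ℕ) (hr : GoodRel g rl) (hg : 2 ≤ g ∧ g ≤ Q) {w : ℝ} (hw : 0 < w)
    (hw1 : w * (32 * (Q : ℝ) ^ 2) * 2 ^ Q ≤ 1) (J : ℕ) {G : Fin J → Finset ℕ}
    (hG : G ∈ seqs (fun _ => g) J) :
    ∑ H ∈ seqs (fun _ => g) J, ∏ j : Fin J, (rh w rl (G j) (H j) * (ee w g (G j) * ee w g (H j)))
      ≤ ∏ j : Fin J, (√(g : ℝ) * (1 - 1 / (16 * (Q : ℝ) ^ 2))) := by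
  unfold seqs
  rw [← Finset.prod_univ_sum (fun j : Fin J => (Finset.range g).powerset)
    (fun j Y => rh w rl (G j) Y * (ee w g (G j) * ee w g Y))]
  refine Finset.prod_le_prod (fun j _ => Finset.sum_nonneg fun Y _ => ?_) fun j _ => ?_
  · exact mul_nonneg (rh_nonneg hw.le _ _ _) (mul_nonneg (ee_nonneg _ _ _) (ee_nonneg _ _ _))
  · exact schur_local2 hr hg.1 hg.2 hw hw1 (mem_seqs.1 hG j)

/-- The Schur test. -/
theorem schur2 {Q : ℕ} (g : ℕ) (hr : GoodRel g rl) (hg : 2 ≤ g ∧ g ≤ Q) {w : ℝ} (hw : 0 < w)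
    (hw1 : w * (32 * (Q : ℝ) ^ 2) * 2 ^ Q ≤ 1) (J : ℕ) (r b : (Fin J → Finset ℕ) → ℝ) (R Y : ℝ)
    (hR : 0 ≤ R) (hr0 : ∀ G, 0 ≤ r G) (hb0 : ∀ G, 0 ≤ b G)
    (hrr : ∀ G ∈ seqs (fun _ => g) J, r G ^ 2 ≤ R * ∏ j : Fin J, EE w g (G j))
    (hb : ∀ G ∈ seqs (fun _ => g) J, b G ^ 2 ≤ R * ∏ j : Fin J, EE w g (G j))
    (hrY : ∑ G ∈ seqs (fun _ => g) J, r G ≤ Y) (hbY : ∑ G ∈ seqs (fun _ => g) J, b G ≤ Y) :
    ∑ G ∈ seqs (fun _ => g) J, ∑ H ∈ seqs (fun _ => g) J, (∏ j : Fin J, rh w rl (G j) (H j)) * (r G * b H) ≤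
      √R * (∏ j : Fin J, (√(g : ℝ) * (1 - 1 / (16 * (Q : ℝ) ^ 2)))) * Y := by
  set κ := ∏ j : Fin J, (√(g : ℝ) * (1 - 1 / (16 * (Q : ℝ) ^ 2))) with hκ
  have hroot : ∀ c : (Fin J → Finset ℕ) → ℝ, (∀ G, 0 ≤ c G) →
      (∀ G ∈ seqs (fun _ => g) J, c G ^ 2 ≤ R * ∏ j : Fin J, EE w g (G j)) →
      ∀ G ∈ seqs (fun _ => g) J, √(c G) ≤ √(√R) * ∏ j : Fin J, ee w g (G j) := by
    intro c hc0 hc G hG
    have h1 : c G ≤ √R * ∏ j : Fin J, √(EE w g (G j)) := by
      have h2 : √R * ∏ j : Fin J, √(EE w g (G j)) =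
          √(R * ∏ j : Fin J, EE w g (G j)) := by
        rw [Real.sqrt_mul hR, Real.sqrt_prod _ fun j _ => EE_nonneg hw.le _ _]
      rw [h2]
      exact Real.le_sqrt_of_sq_le (hc G hG)
    have h3 : √(√R) * ∏ j : Fin J, ee w g (G j) =
        √(√R * ∏ j : Fin J, √(EE w g (G j))) := by
      rw [Real.sqrt_mul (Real.sqrt_nonneg _), Real.sqrt_prod _ fun j _ => Real.sqrt_nonneg _]
      rfl
    rw [h3]
    exact Real.sqrt_le_sqrt h1
  have hterm : ∀ G ∈ seqs (fun _ => g) J, ∀ H ∈ seqs (fun _ => g) J,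
      (∏ j : Fin J, rh w rl (G j) (H j)) * (r G * b H) ≤
        √R * (∏ j : Fin J, (rh w rl (G j) (H j) * (ee w g (G j) * ee w g (H j)))) *
          ((r G + b H) / 2) := by
    intro G hG H hH
    have h1 := hroot r hr0 hrr G hG
    have h2 := hroot b hb0 hb H hH
    have h3 : r G * b H = (√(r G) * √(b H)) * (√(r G) * √(b H)) := by
      have e1 := Real.mul_self_sqrt (hr0 G)
      have e2 := Real.mul_self_sqrt (hb0 H)
      calc r G * b H = (√(r G) * √(r G)) * (√(b H) * √(b H)) := by rw [e1, e2]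
        _ = _ := by ring
    have h4 : √(r G) * √(b H) ≤ (r G + b H) / 2 := by
      have e1 := Real.sq_sqrt (hr0 G)
      have e2 := Real.sq_sqrt (hb0 H)
      nlinarith [sq_nonneg (√(r G) - √(b H))]
    have h5 : √(r G) * √(b H) ≤
        √R * ∏ j : Fin J, (ee w g (G j) * ee w g (H j)) := by
      rw [Finset.prod_mul_distrib]
      have e1 : √(√R) * √(√R) = √R := Real.mul_self_sqrt (Real.sqrt_nonneg _)
      have e2 : 0 ≤ ∏ j : Fin J, ee w g (G j) :=
        Finset.prod_nonneg fun j _ => ee_nonneg _ _ _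
      calc √(r G) * √(b H) ≤ (√(√R) * ∏ j : Fin J, ee w g (G j)) *
            (√(√R) * ∏ j : Fin J, ee w g (H j)) :=
            mul_le_mul h1 h2 (Real.sqrt_nonneg _) (mul_nonneg (Real.sqrt_nonneg _) e2)
        _ = (√(√R) * √(√R)) * ((∏ j : Fin J, ee w g (G j)) *
            ∏ j : Fin J, ee w g (H j)) := by ring
        _ = _ := by rw [e1]
    have h6 : 0 ≤ ∏ j : Fin J, rh w rl (G j) (H j) :=
      Finset.prod_nonneg fun j _ => rh_nonneg hw.le _ _ _
    have h7 : 0 ≤ ∏ j : Fin J, (ee w g (G j) * ee w g (H j)) :=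
      Finset.prod_nonneg fun j _ => mul_nonneg (ee_nonneg _ _ _) (ee_nonneg _ _ _)
    rw [h3]
    calc (∏ j : Fin J, rh w rl (G j) (H j)) * ((√(r G) * √(b H)) * (√(r G) * √(b H)))
        ≤ (∏ j : Fin J, rh w rl (G j) (H j)) *
          ((√R * ∏ j : Fin J, (ee w g (G j) * ee w g (H j))) * ((r G + b H) / 2)) := by
          refine mul_le_mul_of_nonneg_left ?_ h6
          exact mul_le_mul h5 h4 (mul_nonneg (Real.sqrt_nonneg _) (Real.sqrt_nonneg _))
            (mul_nonneg (Real.sqrt_nonneg _) h7)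
      _ = √R * ((∏ j : Fin J, rh w rl (G j) (H j)) *
          ∏ j : Fin J, (ee w g (G j) * ee w g (H j))) * ((r G + b H) / 2) := by ring
      _ = _ := by rw [← Finset.prod_mul_distrib]
  set K : (Fin J → Finset ℕ) → (Fin J → Finset ℕ) → ℝ := fun G H =>
    ∏ j : Fin J, (rh w rl (G j) (H j) * (ee w g (G j) * ee w g (H j))) with hK
  have hKsymm : ∀ G H, K G H = K H G := by
    intro G H
    rw [hK]
    simp only
    refine Finset.prod_congr rfl fun j _ => ?_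
    rw [rh_comm hr, mul_comm (ee w g (G j))]
  have hKsum : ∀ G ∈ seqs (fun _ => g) J, ∑ H ∈ seqs (fun _ => g) J, K G H ≤ κ := fun G hG =>
    schur_kernel2 g hr hg hw hw1 J hG
  calc ∑ G ∈ seqs (fun _ => g) J, ∑ H ∈ seqs (fun _ => g) J, (∏ j : Fin J, rh w rl (G j) (H j)) * (r G * b H)
      ≤ ∑ G ∈ seqs (fun _ => g) J, ∑ H ∈ seqs (fun _ => g) J, √R * K G H * ((r G + b H) / 2) :=
        Finset.sum_le_sum fun G hG => Finset.sum_le_sum fun H hH => hterm G hG H hH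
    _ = √R / 2 * (∑ G ∈ seqs (fun _ => g) J, r G * ∑ H ∈ seqs (fun _ => g) J, K G H) +
        √R / 2 * (∑ H ∈ seqs (fun _ => g) J, b H * ∑ G ∈ seqs (fun _ => g) J, K H G) := by
        have e1 : ∑ G ∈ seqs (fun _ => g) J, ∑ H ∈ seqs (fun _ => g) J, √R * K G H * ((r G + b H) / 2) =
            ∑ G ∈ seqs (fun _ => g) J, ∑ H ∈ seqs (fun _ => g) J, (√R / 2 * (r G * K G H)) +
            ∑ G ∈ seqs (fun _ => g) J, ∑ H ∈ seqs (fun _ => g) J, (√R / 2 * (b H * K H G)) := by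
          rw [← Finset.sum_add_distrib]
          refine Finset.sum_congr rfl fun G _ => ?_
          rw [← Finset.sum_add_distrib]
          refine Finset.sum_congr rfl fun H _ => ?_
          rw [hKsymm H G]
          ring
        rw [e1]
        congr 1
        · rw [Finset.mul_sum]
          refine Finset.sum_congr rfl fun G _ => ?_
          rw [Finset.mul_sum, Finset.mul_sum]
        · rw [Finset.sum_comm, Finset.mul_sum]
          refine Finset.sum_congr rfl fun H _ => ?_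
          rw [Finset.mul_sum, Finset.mul_sum]
    _ ≤ √R / 2 * (∑ G ∈ seqs (fun _ => g) J, r G * κ) + √R / 2 * (∑ H ∈ seqs (fun _ => g) J, b H * κ) := by
        have e0 : 0 ≤ √R / 2 := by positivity
        refine add_le_add (mul_le_mul_of_nonneg_left ?_ e0) (mul_le_mul_of_nonneg_left ?_ e0)
        · exact Finset.sum_le_sum fun G hG => mul_le_mul_of_nonneg_left (hKsum G hG) (hr0 G)
        · exact Finset.sum_le_sum fun H hH => mul_le_mul_of_nonneg_left (hKsum H hH) (hb0 H)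
    _ = √R / 2 * κ * (∑ G ∈ seqs (fun _ => g) J, r G) + √R / 2 * κ * (∑ H ∈ seqs (fun _ => g) J, b H) := by
        rw [← Finset.sum_mul, ← Finset.sum_mul]
        ring
    _ ≤ √R / 2 * κ * Y + √R / 2 * κ * Y := by
        have hκ0 : 0 ≤ κ := by
          rcases (seqs (fun _ => g) J).eq_empty_or_nonempty with he | ⟨G, hG⟩
          · exfalso
            have : (fun _ : Fin J => (∅ : Finset ℕ)) ∈ seqs (fun _ => g) J :=
              mem_seqs.2 fun j => Finset.empty_subset _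
            rw [he] at this
            exact Finset.notMem_empty _ this
          · refine le_trans (Finset.sum_nonneg fun H _ => Finset.prod_nonneg fun j _ => ?_)
              (hKsum G hG)
            exact mul_nonneg (rh_nonneg hw.le _ _ _)
              (mul_nonneg (ee_nonneg _ _ _) (ee_nonneg _ _ _))
        have e0 : 0 ≤ √R / 2 * κ := by positivity
        exact add_le_add (mul_le_mul_of_nonneg_left hrY e0) (mul_le_mul_of_nonneg_left hbY e0)
    _ = _ := by ring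

end Pool.Agent.Helper72.PL
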