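import Pool.Agent.Helper72.PL.Node
import Pool.Agent.Helper72.PL.Schur2
import Pool.Agent.Helper72.PW.Main

/-! Comparison of the two sums for functions which act on the `p`-adic integers. -/

namespace Pool.Agent.Helper72.PL

open Finset Pool.Agent.Helper72.PW

variable {p h W B : ℕ} {F G : ℕ → ℕ}

lemma c2_le (hp : 2 ≤ p) (hW : h ≤ W) (hs : Sys p h F G) (l a b : ℕ) :
    c2 (mm p W) F G l a b ≤ p ^ h := by
  have hp0 : 0 < p := by omega
  rcases Nat.eq_zero_or_pos l with h0 | h0
  · subst h0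
    unfold c2
    have e1 : mm p W 0 = 1 := pow_zero _
    rw [e1, Finset.sum_range_one]
    have e2 : 1 ≤ p ^ h := Nat.one_le_pow _ _ hp0
    split_ifs
    · exact e2
    · exact Nat.zero_le _
  · set m := mm p W l with hm
    have hle : h ≤ W * l := hW.trans (Nat.le_mul_of_pos_right _ h0)
    have hmm : m = p ^ (W * l - h) * p ^ h := by
      rw [hm, mm_eq, ← pow_add, Nat.sub_add_cancel hle]
    unfold c2
    rw [← Finset.card_filter]
    have hinj : Set.InjOn (fun z => z / p ^ (W * l - h))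
        (((Finset.range m).filter fun z => F z % m = a ∧ G z % m = b : Finset ℕ) : Set ℕ) := by
      intro z hz z' hz' hzz
      rw [Finset.mem_coe, Finset.mem_filter] at hz hz'
      have e1 : p ^ h * z ≡ p ^ h * z' [MOD p ^ h * p ^ (W * l - h)] := by
        rw [mul_comm (p ^ h) (p ^ (W * l - h)), ← hmm, ← hs.add z, ← hs.add z']
        refine Nat.ModEq.add ?_ ?_
        · exact hz.2.1.trans hz'.2.1.symm
        · exact hz.2.2.trans hz'.2.2.symm
      have e2 : z ≡ z' [MOD p ^ (W * l - h)] :=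
        Nat.ModEq.mul_left_cancel' (Nat.pow_pos hp0).ne' e1
      have e3 := Nat.div_add_mod z (p ^ (W * l - h))
      have e4 := Nat.div_add_mod z' (p ^ (W * l - h))
      simp only at hzz
      rw [hzz, show z % p ^ (W * l - h) = z' % p ^ (W * l - h) from e2, e4] at e3
      exact e3.symm
    rw [← Finset.card_image_of_injOn hinj]
    have hsub : ((Finset.range m).filter fun z => F z % m = a ∧ G z % m = b).image
        (fun z => z / p ^ (W * l - h)) ⊆ Finset.range (p ^ h) := by
      intro y hy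
      rw [Finset.mem_image] at hy
      obtain ⟨z, hz, rfl⟩ := hy
      rw [Finset.mem_filter, Finset.mem_range] at hz
      rw [Finset.mem_range]
      refine Nat.div_lt_of_lt_mul ?_
      rw [← hmm]
      exact hz.1
    exact (Finset.card_le_card hsub).trans (le_of_eq (Finset.card_range _))

/-- the residues of `F` -/
def red (m : ℕ) (F : ℕ → ℕ) : Finset ℕ := (Finset.range m).image fun z => F z % m

lemma mem_red {m : ℕ} {F : ℕ → ℕ} {z : ℕ} (hz : z < m) : F z % m ∈ red m F :=
  Finset.mem_image.2 ⟨z, Finset.mem_range.2 hz, rfl⟩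

lemma phi2_sum_le (hp : 2 ≤ p) (hW : h ≤ W) (hW1 : 1 ≤ W) (hs : Sys p h F G) (L : ℕ) :
    ∑ z ∈ Finset.range (mm p W L), phi2 (mm p W) F G L z ≤
      mm p W L * (h * Real.log p + Real.log ((red (mm p W L) F).card : ℝ) +
        Real.log ((red (mm p W L) G).card : ℝ) - Real.log (mm p W L)) := by
  have hR := rad_mm hp hW1
  have hm : 0 < mm p W L := hR.pos L
  have hpr : (0 : ℝ) < p := by exact_mod_cast (by omega : 0 < p)
  have h1 := entropy_le (fun z => F z % mm p W L) hm
  have h2 := entropy_le (fun z => G z % mm p W L) hm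
  have e1 : ∀ (F : ℕ → ℕ) a, cnt (fun z => F z % mm p W L) (mm p W L) a = c1 (mm p W) F L a := by
    intro F a
    rw [cnt_eq]
    rfl
  have h3 : ∑ z ∈ Finset.range (mm p W L), phi2 (mm p W) F G L z ≤
      mm p W L * Real.log (mm p W L) + mm p W L * (h * Real.log p) +
      ∑ z ∈ Finset.range (mm p W L), -Real.log (c1 (mm p W) F L (F z % mm p W L)) +
      ∑ z ∈ Finset.range (mm p W L), -Real.log (c1 (mm p W) G L (G z % mm p W L)) := by
    have h4 : ∀ z ∈ Finset.range (mm p W L), phi2 (mm p W) F G L z ≤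
        Real.log (mm p W L) + h * Real.log p + -Real.log (c1 (mm p W) F L (F z % mm p W L)) +
          -Real.log (c1 (mm p W) G L (G z % mm p W L)) := by
      intro z hz
      unfold phi2
      have h5 : Real.log (c2 (mm p W) F G L (F z % mm p W L) (G z % mm p W L)) ≤
          h * Real.log p := by
        rw [← Real.log_pow]
        refine Real.log_le_log ?_ ?_
        · exact_mod_cast c2_pos F G (Finset.mem_range.1 hz)
        · exact_mod_cast c2_le hp hW hs L _ _
      linarith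
    refine (Finset.sum_le_sum h4).trans (le_of_eq ?_)
    rw [Finset.sum_add_distrib, Finset.sum_add_distrib, Finset.sum_const, Finset.card_range,
      nsmul_eq_mul, mul_add]
  simp only [e1] at h1 h2
  unfold red
  linarith

/-- the types along `a` -/
noncomputable def TS2 (B p h W : ℕ) (F : ℕ → ℕ) (L a : ℕ) : Fin L → Finset ℕ :=
  fun j => TT2 B p h W F j (a % mm p W j)

lemma TS2_mem (B p h W : ℕ) (F : ℕ → ℕ) (L a : ℕ) :
    TS2 B p h W F L a ∈ seqs (fun _ => p ^ W) L := by
  rw [mem_seqs]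
  intro j
  unfold TS2 TT2
  exact UU_sub _ _ _ _

/-- the weight of a pair -/
noncomputable def pw2 (w : ℝ) (B p h W : ℕ) (F G : ℕ → ℕ) (L a b : ℕ) : ℝ :=
  wt w (mm p W) (TS2 B p h W F L a) a * wt w (mm p W) (TS2 B p h W G L b) b *
    ∏ j : Fin L, rh w (rel p h W) (TS2 B p h W F L a j) (TS2 B p h W G L b j)

lemma pw2_nonneg {w : ℝ} (hw : 0 ≤ w) (B p h W : ℕ) (F G : ℕ → ℕ) (L a b : ℕ) :
    0 ≤ pw2 w B p h W F G L a b :=
  mul_nonneg (mul_nonneg (wt_nonneg hw _ _ _) (wt_nonneg hw _ _ _))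
    (Finset.prod_nonneg fun _ _ => rh_nonneg hw _ _ _)

lemma dg_mod (hp : 2 ≤ p) (hW : 1 ≤ W) {L j : ℕ} (hj : j < L) (x : ℕ) :
    dg (mm p W) j (x % mm p W L) = dg (mm p W) j x := by
  unfold dg
  rw [Nat.mod_mod_of_dvd x ((rad_mm hp hW).dvd_le hj)]

lemma exp_NN2_le (hp : p.Prime) (hW : 1 ≤ W) (hs : Sys p h F G) {w : ℝ} (hw : 0 < w)
    (hw1 : w ≤ 1) (L z : ℕ) :
    Real.exp (-(-(3 * Real.log w) * NN2 B (mm p W) (p ^ W) F G L z)) ≤
      pw2 w B p h W F G L (F z % mm p W L) (G z % mm p W L) := by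
  classical
  have hR := rad_mm hp.two_le hW
  have h1 : Real.exp (-(-(3 * Real.log w) * NN2 B (mm p W) (p ^ W) F G L z)) =
      ∏ j : Fin L, Real.exp (3 * Real.log w *
        bad2 B (mm p W) (p ^ W) F G j (F z % mm p W j) (G z % mm p W j)) := by
    rw [← Real.exp_sum, ← Finset.mul_sum]
    unfold NN2
    rw [Finset.sum_range]
    congr 1
    ring
  rw [h1]
  unfold pw2 wt
  rw [← Finset.prod_mul_distrib, ← Finset.prod_mul_distrib]
  refine Finset.prod_le_prod (fun j _ => (Real.exp_pos _).le) fun j _ => ?_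
  have eF : TS2 B p h W F L (F z % mm p W L) j = TT2 B p h W F j (F z % mm p W j) := by
    unfold TS2
    rw [Nat.mod_mod_of_dvd (F z) (hR.dvd_le j.2.le)]
  have eG : TS2 B p h W G L (G z % mm p W L) j = TT2 B p h W G j (G z % mm p W j) := by
    unfold TS2
    rw [Nat.mod_mod_of_dvd (G z) (hR.dvd_le j.2.le)]
  rw [eF, eG, dg_mod hp.two_le hW j.2 (F z), dg_mod hp.two_le hW j.2 (G z)]
  have hwA := w_le_ite hw1 (dg (mm p W) j (F z) ∈ TT2 B p h W F j (F z % mm p W j))
  have hwB := w_le_ite hw1 (dg (mm p W) j (G z) ∈ TT2 B p h W G j (G z % mm p W j))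
  have hwC : w ≤ rh w (rel p h W) (TT2 B p h W F j (F z % mm p W j))
      (TT2 B p h W G j (G z % mm p W j)) := by
    unfold rh
    exact w_le_ite hw1 _
  by_cases hgood : Good2 B (mm p W) (p ^ W) F G j (F z % mm p W j) (G z % mm p W j)
  · have hb : bad2 B (mm p W) (p ^ W) F G j (F z % mm p W j) (G z % mm p W j) = 0 := by
      unfold bad2
      rw [if_pos hgood]
    obtain ⟨q1, q2, q3⟩ := good_rel hp hW hs j z hgood
    rw [hb, mul_zero, Real.exp_zero]
    unfold rh
    rw [if_pos q1, if_pos q2, if_pos q3, one_mul, one_mul]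
  · have hb : bad2 B (mm p W) (p ^ W) F G j (F z % mm p W j) (G z % mm p W j) = 1 := by
      unfold bad2
      rw [if_neg hgood]
    have e1 : Real.exp (3 * Real.log w * 1) = w * w * w := by
      rw [mul_one, show 3 * Real.log w = Real.log w + Real.log w + Real.log w by ring,
        Real.exp_add, Real.exp_add, Real.exp_log hw]
    rw [hb, e1]
    exact mul_le_mul (mul_le_mul hwA hwB hw.le (hw.le.trans hwA)) hwC hw.le
      (mul_nonneg (hw.le.trans hwA) (hw.le.trans hwB))

/-- The sum over `z` is at most a constant times the sum over all pairs. -/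
lemma pair_sum2_le (hp : 2 ≤ p) (hW : h ≤ W) (hs : Sys p h F G) (L : ℕ) (H : ℕ → ℕ → ℝ)
    (hH : ∀ a b, 0 ≤ H a b) :
    ∑ z ∈ Finset.range (mm p W L), H (F z % mm p W L) (G z % mm p W L) ≤
      (p : ℝ) ^ h * ∑ a ∈ red (mm p W L) F, ∑ b ∈ red (mm p W L) G, H a b := by
  classical
  have h1 : ∑ z ∈ Finset.range (mm p W L), H (F z % mm p W L) (G z % mm p W L) =
      ∑ q ∈ red (mm p W L) F ×ˢ red (mm p W L) G,
        (((Finset.range (mm p W L)).filter fun z =>
          (F z % mm p W L, G z % mm p W L) = q).card : ℝ) * H q.1 q.2 := by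
    rw [← Finset.sum_fiberwise_of_maps_to (t := red (mm p W L) F ×ˢ red (mm p W L) G)
      (g := fun z => (F z % mm p W L, G z % mm p W L))]
    · refine Finset.sum_congr rfl fun q _ => ?_
      rw [Finset.sum_congr rfl (g := fun _ => H q.1 q.2) fun z hz => by
        rw [← (Finset.mem_filter.1 hz).2]]
      rw [Finset.sum_const, nsmul_eq_mul]
    · intro z hz
      rw [Finset.mem_product]
      exact ⟨mem_red (Finset.mem_range.1 hz), mem_red (Finset.mem_range.1 hz)⟩
  rw [h1, ← Finset.sum_product', Finset.mul_sum]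
  refine Finset.sum_le_sum fun q _ => ?_
  refine mul_le_mul_of_nonneg_right ?_ (hH _ _)
  have h2 := c2_le hp hW hs L q.1 q.2
  have h3 : ((Finset.range (mm p W L)).filter fun z =>
      (F z % mm p W L, G z % mm p W L) = q).card = c2 (mm p W) F G L q.1 q.2 := by
    unfold c2
    rw [Finset.card_filter]
    refine Finset.sum_congr rfl fun z _ => ?_
    exact ite_one ⟨fun hh => by rw [← hh]; exact ⟨rfl, rfl⟩, fun hh => Prod.ext hh.1 hh.2⟩
  rw [h3]
  exact_mod_cast h2

open Classical in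
/-- total weight of a class -/
noncomputable def rr2 (w : ℝ) (B p h W : ℕ) (F : ℕ → ℕ) (L : ℕ) (T : Fin L → Finset ℕ) : ℝ :=
  ∑ a ∈ (red (mm p W L) F).filter (fun a => TS2 B p h W F L a = T), wt w (mm p W) T a

lemma group2 (w : ℝ) (L : ℕ) :
    ∑ a ∈ red (mm p W L) F, ∑ b ∈ red (mm p W L) G, pw2 w B p h W F G L a b =
      ∑ S ∈ seqs (fun _ => p ^ W) L, ∑ T ∈ seqs (fun _ => p ^ W) L,
        (∏ j : Fin L, rh w (rel p h W) (S j) (T j)) *
        (rr2 w B p h W F L S * rr2 w B p h W G L T) := by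
  classical
  rw [← Finset.sum_fiberwise_of_maps_to (g := fun a => TS2 B p h W F L a)
    (fun a _ => TS2_mem B p h W F L a)]
  refine Finset.sum_congr rfl fun S _ => ?_
  have h1 : ∀ a, ∑ b ∈ red (mm p W L) G, pw2 w B p h W F G L a b =
      ∑ T ∈ seqs (fun _ => p ^ W) L, ∑ b ∈ (red (mm p W L) G).filter
        (fun b => TS2 B p h W G L b = T), pw2 w B p h W F G L a b := fun a =>
    (Finset.sum_fiberwise_of_maps_to (g := fun b => TS2 B p h W G L b)
      (fun b _ => TS2_mem B p h W G L b) _).symm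
  simp_rw [h1]
  rw [Finset.sum_comm]
  refine Finset.sum_congr rfl fun T _ => ?_
  unfold rr2
  rw [Finset.sum_mul_sum, Finset.mul_sum]
  refine Finset.sum_congr (by congr) fun a ha => ?_
  rw [Finset.mul_sum]
  refine Finset.sum_congr (by congr) fun b hb => ?_
  rw [Finset.mem_filter] at ha hb
  unfold pw2
  rw [ha.2, hb.2]
  ring

lemma rr2_sq (hp : 2 ≤ p) (hW : 1 ≤ W) {w : ℝ} (hw : 0 ≤ w) (hw1 : w ≤ 1) (L : ℕ) (R : ℝ)
    (hR0 : 0 ≤ R)
    (hR : ∀ s, (((red (mm p W L) F ×ˢ red (mm p W L) F).filter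
      fun p => p.1 + p.2 = s).card : ℝ) ≤ R) (T : Fin L → Finset ℕ) :
    rr2 w B p h W F L T ^ 2 ≤ R * ∏ j : Fin L, EE w (p ^ W) (T j) := by
  classical
  have hRad := rad_mm hp hW
  unfold rr2
  refine class_sq hRad hw hw1 L T _ ?_ R hR0 ?_
  · intro a ha
    rw [Finset.mem_filter] at ha
    unfold red at ha
    rw [Finset.mem_image] at ha
    obtain ⟨⟨z, _, rfl⟩, _⟩ := ha
    exact Nat.mod_lt _ (hRad.pos L)
  · intro s
    refine le_trans ?_ (hR s)
    have : ((((red (mm p W L) F).filter (fun a => TS2 B p h W F L a = T)) ×ˢ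
        ((red (mm p W L) F).filter (fun a => TS2 B p h W F L a = T))).filter
        fun p => p.1 + p.2 = s) ⊆
        ((red (mm p W L) F ×ˢ red (mm p W L) F).filter fun p => p.1 + p.2 = s) := by
      refine Finset.filter_subset_filter _ ?_
      exact Finset.product_subset_product (Finset.filter_subset _ _) (Finset.filter_subset _ _)
    exact_mod_cast Finset.card_le_card this

lemma rr2_nonneg {w : ℝ} (hw : 0 ≤ w) (B p h W : ℕ) (F : ℕ → ℕ) (L : ℕ)
    (T : Fin L → Finset ℕ) : 0 ≤ rr2 w B p h W F L T :=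
  Finset.sum_nonneg fun _ _ => wt_nonneg hw _ _ _

lemma rr2_sum {w : ℝ} (hw : 0 ≤ w) (hw1 : w ≤ 1) (B p h W : ℕ) (F : ℕ → ℕ) (L : ℕ) :
    ∑ T ∈ seqs (fun _ => p ^ W) L, rr2 w B p h W F L T ≤ (red (mm p W L) F).card := by
  classical
  have h1 : ∑ T ∈ seqs (fun _ => p ^ W) L, rr2 w B p h W F L T =
      ∑ a ∈ red (mm p W L) F, wt w (mm p W) (TS2 B p h W F L a) a := by
    rw [← Finset.sum_fiberwise_of_maps_to (g := fun a => TS2 B p h W F L a)
      (fun a _ => TS2_mem B p h W F L a)]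
    refine Finset.sum_congr rfl fun T _ => ?_
    unfold rr2
    refine Finset.sum_congr (by congr) fun a ha => ?_
    rw [Finset.mem_filter] at ha
    rw [ha.2]
  rw [h1]
  refine (Finset.sum_le_sum fun a _ => wt_le_one hw hw1 _ _ _).trans (le_of_eq ?_)
  rw [Finset.sum_const, nsmul_eq_mul, mul_one]

end Pool.Agent.Helper72.PL
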